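import Mathlib
import Pool.Agent.H576.CT.Stm

/-!
# PROJECT CE: linear cover time of the time-biased walk on all graphs with local exponential growth (MP_10effd_pr)

Goal: for every bias `ε`, degree bound `Δ` and `κ, δ, c > 0` there is `C` such that the time-biased walk has cover
time at most `C n` on every connected graph with `n` vertices, degrees at most `Δ` and
`|B(x, r)| ≥ c exp (κ r)` for all `x` and all `r ≤ δ log n`.

Library modules `Pool.Graph.R_seed8.TH112.BW.{Pot,Val,Dfs,Off,Shift,Clus}`; namespace `Pool.Agent.TH112.BW`.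
Models to copy from: `Pool/Agent/H672/CTLink.lean`, `Pool/Agent/H800/CTDrop.lean`, `Pool/Agent/H591/CTCover.lean`.
-/

set_option autoImplicit false
set_option linter.unusedSectionVars false

namespace Pool.Agent.H576.CE

open Finset Pool.Agent.TH112.BW Pool.Agent.H576.CT

/-- the vertices at distance at most `t` from `K` -/
noncomputable def nbd {V : Type} [Fintype V] (G : SimpleGraph V) (K : Finset V) (t : ℕ) : Finset V :=
  open Classical in univ.filter (fun x => ∃ y ∈ K, G.dist x y ≤ t)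

/-- MODE. Covering `B` from the centre `o` in stages and with interrupts: at the first visit of `v ∈ B` a sub-process
(value at most `T v`) is run at `v` which visits `Cov v` and returns to `v`. PROOF. Modify `J_cycle` and `J_mode` of
the library file `Val.lean` (`lake` path `Pool/Graph/R_seed8/TH112/BW/Val.lean`). Put `Y = insert o S0 ∪ B ∪ B.biUnion Cov`,
`cs s = E * R * ∑ i ∈ Ico s (N0+1), Tt i`.
CLAIM(s), by descending induction on `s ≤ N0 + 1`: for all `k`, `A ⊆ B` with `A.card * E ^ s ≤ N0`, all `S ∋ o` with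
`insert o S0 ∪ (B \ A) ∪ (B \ A).biUnion Cov ⊆ S`: `J (Dt o Y) k o S ≤ cs s + ∑ v ∈ A, T v`.
If `A = ∅` the state is a target state (value `0`). For `s = N0 + 1`: `E ^ s > N0`, so `A = ∅`. Step: `A ≠ ∅`; take `w` for
`A` at stage `s`, `K0 = N0 / E ^ (s+1) + 1`, `g = tot G w * R`, `h`, `q v` as in `J_mode` (`exists_hit`, `exists_prob`), and
for `A' ⊆ A` the potential `Pot A' x = h x + (g / K0) * (A'.card - ∑ v ∈ A', q v x) + ∑ v ∈ A', T v + cs (s+1)`.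
SUBCLAIM, induction on `k`, as in `J_cycle`: for `A' ⊆ A`, `x ∈ S`, `x ∉ A'`, `insert o S0 ∪ (B \ A') ∪ (B \ A').biUnion Cov ⊆ S`:
`J (Dt o Y) k x S ≤ Pot A' x`. At a new vertex `y ∈ A'`: `J_comp` with the sub-process, and
`T y + Pot (A'.erase y) y = Pot A' y` because `q y y = 1`. At `x = o` with `A'.card * E ^ (s+1) ≤ N0`: use
CLAIM(s+1) (`Pot A' o ≥ cs (s+1) + ∑ v ∈ A', T v` as `h o = 0`, `q v o = 0`). At `x = o` otherwise `A'.card ≥ K0` and `J_step`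
applies as in `ct_drop` of `Pool/Agent/H800/CTDrop.lean`: `K0 * tot ≤ A'.card * tot ≤ g * ∑ v ∈ A', w o * ∑ w y * q v y`. At
`x ≠ o`: `lap` of `h` is `dg`, of `q v` is `0` (`x ∉ A'`). Finally `(g / K0) * A.card ≤ E * R * Tt s` since
`A.card ≤ E * K0` (`A.card * E ^ s ≤ N0 < K0 * E ^ (s+1)`).
THEN: stage 1 from `p` to `o` and stage 3 from `o` to `p` cost at most `R * Tt 0` each (network for `{p}` with `s = 0`, if
`p ≠ o`, exactly as in `J_mode`), stage 2 is CLAIM(0) for `A = B`. -/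
def S_MODE : Prop :=
  ∀ (V : Type) [Fintype V] [DecidableEq V] (G : SimpleGraph V) [DecidableRel G.Adj] (ε : ℝ),
    0 ≤ ε → ε ≤ 1 → ∀ (hN : ∀ x, (G.neighborFinset x).Nonempty), G.Connected →
    ∀ (o p : V) (R : ℝ), 0 ≤ R → ∀ (B : Finset V), o ∉ B → (p = o ∨ p ∈ B) →
    ∀ (E N0 : ℕ), 2 ≤ E → B.card ≤ N0 → ∀ Tt : ℕ → ℝ, (∀ s, 0 ≤ Tt s) →
    (∀ (s : ℕ) (A : Finset V), A ⊆ B → A.Nonempty → A.card * E ^ s ≤ N0 →
      ∃ w : V → ℝ, Adm G ε w ∧ (∀ v ∈ A, Res G w v o R) ∧ tot G w ≤ Tt s) →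
    ∀ (T : V → ℝ), (∀ v ∈ B, 0 ≤ T v) → ∀ (Cov : V → Finset V),
    (∀ v ∈ B, ∀ k S, v ∈ S → J G ε hN (Dt v (S ∪ Cov v)) k v S ≤ T v) →
    ∀ (k : ℕ) (S : Finset V), p ∈ S →
    J G ε hN (Dt p (insert o S ∪ B ∪ B.biUnion Cov)) k p S
      ≤ (E * R * ∑ s ∈ range (N0 + 1), Tt s + 2 * R * Tt 0) + ∑ v ∈ B, T v

/-- SHIFT. The random shift clusters with the slow rate `b0`. PROOF. All of it is in the proof of `bound_polylog` in the
library file `Clus.lean` (with `b0` in place of `b`): `kk x u = b0 ^ dist x u`, `exists_shift`, `m u`, `F x`, `cl x` the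
maximiser of `m u * kk x u` of least index `e u`. `rho x u = m u * kk x u / F x`. (1) `hidem`. (2) star shape: for
`u = cl x ≠ x` take `z` adjacent to `x` with `dist z u + 1 = dist x u` (`exists_closer`). `u` is a maximiser at `z` (`hzF`), and a
maximiser `u'` at `z` with smaller index would be one at `x` too: `m u' * kk x u' ≥ m u' * kk z u' * b0 = m u * kk z u * b0 =
m u * kk x u = F x`. (3) `hrad`: `1 ≤ F x = m u * b0 ^ dist x u ≤ n ^ 2 * b0 ^ dist x u`. (5) For `u = cl y`: `F y = m u * kk y u`,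
`kk x u ≥ b0 ^ dist x y * kk y u`, `b0 ^ dist x y * F x ≤ F y`. (6) `exists_shift`. -/
def S_SHIFT : Prop :=
  ∀ (b0 : ℝ), 0 < b0 → b0 < 1 → ∀ (V : Type) [Fintype V] [DecidableEq V] (G : SimpleGraph V), G.Connected →
    ∃ (cl : V → V) (rho : V → V → ℝ), (∀ x, cl (cl x) = cl x) ∧
      (∀ x, cl x ≠ x → ∃ z, G.Adj x z ∧ cl z = cl x ∧ G.dist z (cl x) + 1 = G.dist x (cl x)) ∧
      (∀ x, 1 ≤ (Fintype.card V : ℝ) ^ 2 * b0 ^ G.dist x (cl x)) ∧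
      (∀ x u, 0 ≤ rho x u) ∧ (∀ x y, b0 ^ (2 * G.dist x y) ≤ rho x (cl y)) ∧
      ∑ x, ∑ u, rho x u ≤ 4 * Fintype.card V

/-- LINK2. Hierarchical links for a cluster `K` with centre `u`. PROOF: copy `Pool/Agent/H672/CTLink.lean`. `p j v`
as there (`p 0 v = v`, `p (j+1) v = ν (j+1) (p j v)`), `dist v (p j v) + 2 ≤ 2 ^ (j+1)`. For `v ∈ A` there is `y v ∈ K` with
`dist v (y v) ≤ 1`, so `p j v` is at distance `≤ 2 ^ (j+1) - 1` from `K`. `L j` for `j < J` is as there (geodesics from `p j v` to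
`p (j+1) v`, all points at distance `≤ 2 ^ (j+2)` from `K`, at most `2 ^ (j+1)` points each). `L J`: for every point `q` of
`A.image (p J)` choose `v q ∈ A` with `p J (v q) = q`, the geodesic from `q` to `y (v q)` (length `≤ 2 ^ (J+1) - 1`) and then a
path inside `K` from `y (v q)` to `u` with `dist (y (v q)) u + 1 ≤ r1 * 2 ^ J + 1` points (iterate `hstar`); together at most
`(r1 + 6) * 2 ^ J` points. Packing: the balls of radius `2 ^ j / 4` around the points of `A.image (p j)` are disjoint and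
contained in `nbd G K (2 ^ (j+2))`. Last part: `2 ^ (j+1) * I / 4 ^ j` for `j < J`, sum `≤ 4 I`, and
`(r1 + 2) * 2 ^ J * I / 4 ^ J ≤ (r1 + 2) * I` for the last link (go from `p J v` to `u` along the path of `q = p J v`). -/
def S_LINK2 : Prop :=
  ∀ (V : Type) [Fintype V] [DecidableEq V] (G : SimpleGraph V), G.Connected →
    ∀ (u : V) (K : Finset V), u ∈ K →
    (∀ x ∈ K, x ≠ u → ∃ z ∈ K, G.Adj x z ∧ G.dist z u + 1 = G.dist x u) →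
    ∀ (J r1 : ℕ), (∀ x ∈ K, G.dist x u ≤ r1 * 2 ^ J) →
    ∀ A : Finset V, A ⊆ nbd G K 1 → A.Nonempty →
    ∃ L : ℕ → Finset V,
      (∀ j ≤ J, (L j).Nonempty ∧ L j ⊆ nbd G K (2 ^ (j + 2)) ∧
        ∃ m : ℕ, (L j).card ≤ (r1 + 6) * 2 ^ j * m ∧ m ≤ A.card ∧
          ∀ q : ℕ, (∀ x, q ≤ (ball G x (2 ^ j / 4)).card) → m * q ≤ (nbd G K (2 ^ (j + 2))).card) ∧
      ∀ (f : V → ℝ) (I : ℝ), 0 ≤ I →
        (∀ j ≤ J, ∀ x ∈ L j, ∀ y ∈ L j, G.Adj x y → f x - f y ≤ I / 4 ^ j) →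
        ∀ v ∈ A, f v - f u ≤ (r1 + 10) * I ∧ f u - f v ≤ (r1 + 10) * I

/-- WEIGHT2. As `S_WEIGHT` with a general lower bound `D j x` for the distance of `x` to `L j`. -/
def S_WEIGHT2 : Prop :=
  ∀ (V : Type) [Fintype V] [DecidableEq V] (G : SimpleGraph V) [DecidableRel G.Adj], G.Connected →
    ∀ (Δ : ℕ), (∀ v, G.degree v ≤ Δ) → ∀ (b : ℝ), 0 < b → b < 1 → ∀ (J : ℕ) (L : ℕ → Finset V),
    (∀ j ≤ J, (L j).Nonempty) →
    ∃ w : V → ℝ, (∀ x, 0 < w x) ∧ (∀ x y, G.Adj x y → b * w x ≤ w y) ∧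
      (∀ j ≤ J, ∀ z ∈ L j, (2 : ℝ) ^ j ≤ w z) ∧
      ∀ (i : ℕ → ℕ) (D : ℕ → V → ℕ), (∀ j ≤ J, ∀ z ∈ L j, ∀ x, D j x ≤ G.dist x z) →
        ∑ x, w x ^ 2 ≤ ∑ j ∈ range (J + 1),
          (4 : ℝ) ^ j * ((L j).card * ((Δ : ℝ) + 1) ^ i j + b ^ i j * ∑ x, b ^ D j x)

/-- ARITH2. PROOF. `m j ^ 2 * (16 M^4)^s * β j ≤ x^2 Q * x^(2^(j+3)) Q`, so by square roots
`m j * (4 M^2)^s * √(β j) ≤ Q * x * x^(2^(j+2))`. With `16^j * M^(p j + 2^j/e + 1) * x^(2^(j+2)) ≤ Y * √(β j)` (root of the third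
hypothesis) the first term of the `j`-th summand is `4^j * l j * M^(p j + s + ..) ≤ Λ * 8^j * m j * M^(p j + 2^j/e+1) * M^s ≤
Λ * x * Y * Q * (1/2)^j * (1/4)^s`, the second one is at most `4^j * (1/8)^j * b^s * Q`. Sum over `j` with
`∑ (1/2)^j ≤ 2` and `(1/4)^s, b^s ≤ g^s`. -/
def S_ARITH2 : Prop :=
  ∀ (b g x Y Q Λ : ℝ) (M p e s J N0 : ℕ) (m l : ℕ → ℕ) (β far : ℕ → ℝ), 0 < b → b < 1 → 1 / 4 ≤ g → b ≤ g →
    1 ≤ x → 0 ≤ Y → 0 ≤ Q → 0 ≤ Λ → 1 ≤ M → b ^ p ≤ 1 / 8 → (N0 : ℝ) ≤ x ^ 2 * Q →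
    (∀ j, b ^ (2 ^ j / e + 1) * x ^ (2 ^ (j + 3)) ≤ 1) →
    (∀ j ≤ J, 0 < β j ∧
      ((16 : ℝ) ^ j * (M : ℝ) ^ (p * j + (2 ^ j / e + 1)) * x ^ (2 ^ (j + 2))) ^ 2 ≤ Y ^ 2 * β j ∧
      (l j : ℝ) ≤ Λ * 2 ^ j * m j ∧ m j * (16 * M ^ 4) ^ s ≤ N0 ∧
      (m j : ℝ) * β j ≤ x ^ (2 ^ (j + 3)) * Q ∧ 0 ≤ far j ∧ far j ≤ x ^ (2 ^ (j + 3)) * Q) →
    ∑ j ∈ range (J + 1), (4 : ℝ) ^ j * (l j * (M : ℝ) ^ (p * j + s + (2 ^ j / e + 1))
      + b ^ (p * j + s + (2 ^ j / e + 1)) * far j) ≤ (2 * Λ * x * Y + 2) * Q * g ^ s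

/-- PARAM. Choice of the slow rate. PROOF. Take `e ≥ 1` with `8 * (2 * log M + log (1/b)) ≤ κ * e` and
`b0 = b ^ (1 / (8 e))` (`Real.rpow`), so `b0 ^ (8 e) = b`, `b ≤ b0 ^ 2` as `8 e ≥ 2`. Second: `b ^ (2^j/e+1) = b0 ^ (8 e (2^j/e + 1))` and
`e * (2^j/e + 1) ≥ 2^j` (natural division), `(1/b0)^(2^(j+3)) = b0^(-8 * 2^j)`. Third: `(1/b0)^(2 * 2^(j+2)) = (1/b)^(2^j/e)` (real
exponent), `M^(2 * (2^j/e + 1)) ≤ M^2 * exp (2 * log M * 2^j / e)`, product at most `M^2 * exp (κ * 2^j / 8)`, and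
`(2^j/4 : ℕ) ≥ 2^j / 4 - 1`, so the quotient is at most `256^j * M^(2 p j) * M^2 * exp (κ) * exp (- κ * 2^j / 8) / c0`, which is
bounded in `j` (it tends to `0`: `2^j ≥ j^2 / 4` or any such estimate). -/
def S_PARAM : Prop :=
  ∀ (b κ c0 : ℝ) (M p : ℕ), 0 < b → b < 1 → 0 < κ → 0 < c0 → 1 ≤ M →
    ∃ (e : ℕ) (b0 Y : ℝ), 1 ≤ e ∧ 0 < b0 ∧ b0 < 1 ∧ 0 ≤ Y ∧ b ≤ b0 ^ 2 ∧
      (∀ j, b ^ (2 ^ j / e + 1) * (1 / b0) ^ (2 ^ (j + 3)) ≤ 1) ∧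
      ∀ j : ℕ, ((16 : ℝ) ^ j * (M : ℝ) ^ (p * j + (2 ^ j / e + 1)) * (1 / b0) ^ (2 ^ (j + 2))) ^ 2
        ≤ Y ^ 2 * (c0 * Real.exp (κ * ((2 ^ j / 4 : ℕ) : ℝ)))

/-- DFS. `J_dfs` of the library with a general cost for the modes. -/
def S_DFS : Prop :=
  ∀ (V : Type) [Fintype V] [DecidableEq V] (G : SimpleGraph V) [DecidableRel G.Adj] (ε : ℝ),
    0 ≤ ε → ε ≤ 1 → ∀ (hN : ∀ x, (G.neighborFinset x).Nonempty), G.Connected →
    ∀ (cl : V → V), (∀ x, cl (cl x) = cl x) → ∀ (K : V → ℝ), (∀ u, 0 ≤ K u) →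
    (∀ u, cl u = u → ∀ p, cl p = u → ∀ (T : V → ℝ), (∀ v ∈ nb G cl u, 0 ≤ T v) → ∀ (Cov : V → Finset V),
      (∀ v ∈ nb G cl u, ∀ k S, v ∈ S → J G ε hN (Dt v (S ∪ Cov v)) k v S ≤ T v) →
      ∀ (k : ℕ) (S : Finset V), p ∈ S →
      J G ε hN (Dt p (insert u S ∪ nb G cl u ∪ (nb G cl u).biUnion Cov)) k p S
        ≤ K u + ∑ v ∈ nb G cl u, T v) →
    ∀ (v0 : V) (k : ℕ) (S : Finset V), v0 ∈ S → J G ε hN (Dt v0 Finset.univ) k v0 S ≤ ∑ u, K u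

/-- FINAL -/
def S_FINAL : Prop :=
  ∀ ε : ℝ, 0 < ε → ε < 1 → ∀ (Δ : ℕ) (κ δ c : ℝ), 0 < κ → 0 < δ → 0 < c → ∃ C : ℝ, 0 < C ∧
    ∀ (V : Type) [Fintype V] [DecidableEq V] (G : SimpleGraph V) [DecidableRel G.Adj],
      ∀ (hN : ∀ x, (G.neighborFinset x).Nonempty), G.Connected → (∀ v : V, G.degree v ≤ Δ) →
      (∀ (x : V) (r : ℕ), (r : ℝ) ≤ δ * Real.log (Fintype.card V) → c * Real.exp (κ * r) ≤ (ball G x r).card) →
      ∀ v₀ k, J G ε hN (Dt v₀ Finset.univ) k v₀ {v₀} ≤ C * Fintype.card V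

end Pool.Agent.H576.CE
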