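import Mathlib
import Pool.Agent.H576.CE.Stm

/-!
# PROJECT CE, second part: polynomial growth of large degree up to the scale `n ^ δ`
-/

set_option autoImplicit false
set_option linter.unusedSectionVars false

namespace Pool.Agent.H576.CE

open Finset Pool.Agent.TH112.BW Pool.Agent.H576.CT

/-- SHIFTP. Random shift clusters with polynomial tails. PROOF. Model: `exists_shift` in the library file
`Pool/Graph/R_seed8/TH112/BW/Shift.lean` (averaging over `ω : V → Fin n`, `sum_update`, strict winners, slack for ties) and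
the cluster part of `bound_polylog` in `Clus.lean`. `n = card V`, `σ i = (n / (i + 1)) ^ (1/a)` (real power), so
`1 ≤ σ i ≤ n ^ (1/a)`, `σ` is injective and strictly decreasing, and for `s ≥ 1` the number of `i` with `σ i ≥ s` is `⌊n / s^a⌋`.
`S x = max_u (σ (ω u) - dist x u)`, `cl x` the maximiser of least index (`Fintype.equivFin`). `S` is 1-Lipschitz, `S x ≥ 1` (`u = x`).
(1) `cl x` is a maximiser at `cl x`, and a maximiser there of smaller index would be a maximiser at `x`. (2) star shape: for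
`z` adjacent to `x` on a geodesic to `u = cl x ≠ x`, `u` is a maximiser at `z` (`S z ≤ S x + 1 = σ u - dist z u`), and a maximiser
`u'` of smaller index at `z` would be a maximiser at `x`. (3) `dist x u = σ (ω u) - S x ≤ n ^ (1/a) - 1`.
(4) `ex x u = S x - (σ (ω u) - dist x u) ≥ 0`, `rho x u = (1 + ex x u) ^ (-(a+2))`, i.e. `1 / (1 + ex x u) ^ (a + 2)`.
(5) for `u = cl y`, `d = dist x y`: `ex x u ≤ 2 d`. (6) Fix `x`, `u` and all `ω u'`, `u' ≠ u`; let `Y` be the max of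
`σ (ω u') - dist x u'` over `u' ≠ u` and `θ = Y + dist x u`, so `ex x u = max (θ - σ i) 0` for `ω u = i`. Let `Ngt` be the number of `i`
with `σ i > θ` (then `u` is the strict winner at `x`). If `θ < 1` all `i` have `σ i > θ`. If `θ ≥ 1`: for every natural `k` the
number of `i` with `σ i > θ - (k + 1)` is at most `n (k+2)^a / θ^a ≤ (k+2)^a (Ngt + 2)` (if `θ - (k+1) ≥ 1` it is at most
`n / (θ - (k+1))^a` and `θ / (θ - (k+1)) ≤ k + 2`; otherwise at most `n`, and `θ ≤ k + 2`; and `n / θ^a ≤ #{σ ≥ θ} + 1 ≤ Ngt + 2`).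
So `∑ i, rho ≤ Ngt + ∑ k, (k+2)^a (Ngt + 2) / (1+k)^(a+2) ≤ Ngt + 2^a (Ngt+2) ∑ 1/(1+k)^2 ≤ 2^(a+2) (Ngt + 2)` (the sum over
`k = ⌊θ - σ i⌋`, `k ≤ n`). Averaging over `ω` and summing over `u`: the probabilities of strict winning sum to at most
`1`, so `E ∑ u, rho x u ≤ 2^(a+2) (1 + 2)`. -/
def S_SHIFTP : Prop :=
  ∀ (a : ℕ), 1 ≤ a → ∀ (V : Type) [Fintype V] [DecidableEq V] (G : SimpleGraph V), G.Connected →
    ∃ (cl : V → V) (rho : V → V → ℝ), (∀ x, cl (cl x) = cl x) ∧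
      (∀ x, cl x ≠ x → ∃ z, G.Adj x z ∧ cl z = cl x ∧ G.dist z (cl x) + 1 = G.dist x (cl x)) ∧
      (∀ x, (G.dist x (cl x)) ^ a ≤ Fintype.card V) ∧
      (∀ x u, 0 ≤ rho x u) ∧ (∀ x y, 1 / (1 + 2 * (G.dist x y : ℝ)) ^ (a + 2) ≤ rho x (cl y)) ∧
      ∑ x, ∑ u, rho x u ≤ 3 * 2 ^ (a + 2) * Fintype.card V

/-- ARITH3. PROOF. `m j ^ 2 * (16 M^4)^s * β j ≤ (X1 * Q) * (X j * Q)`, so by square roots
`m j * (4 M^2)^s * √(β j) ≤ Q * √X1 * √(X j)`. With `16^j * M^(a j) * √(X j) ≤ Y * √(β j)` (root of the second condition) the first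
term of the `j`-th summand is `4^j * l j * M^(a j + s) ≤ Λ * 8^j * m j * M^(a j) * M^s ≤ Λ * √X1 * Y * Q * (1/2)^j * (1/4)^s`, the
second one is at most `(1/2)^j * b^s * Q` because `8^j * b^(a j) * X j ≤ 1`. Sum over `j`: `∑ (1/2)^j ≤ 2`. -/
def S_ARITH3 : Prop :=
  ∀ (b g X1 Y Q Λ : ℝ) (M s J N0 : ℕ) (m l a : ℕ → ℕ) (β far X : ℕ → ℝ), 0 < b → b < 1 → 1 / 4 ≤ g → b ≤ g →
    0 ≤ X1 → 0 ≤ Y → 0 ≤ Q → 0 ≤ Λ → 1 ≤ M → (N0 : ℝ) ≤ X1 * Q → (∀ j, 0 ≤ X j) →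
    (∀ j, (8 : ℝ) ^ j * b ^ a j * X j ≤ 1) →
    (∀ j ≤ J, 0 < β j ∧ ((16 : ℝ) ^ j * (M : ℝ) ^ a j) ^ 2 * X j ≤ Y ^ 2 * β j ∧
      (l j : ℝ) ≤ Λ * 2 ^ j * m j ∧ m j * (16 * M ^ 4) ^ s ≤ N0 ∧
      (m j : ℝ) * β j ≤ X j * Q ∧ 0 ≤ far j ∧ far j ≤ X j * Q) →
    ∑ j ∈ range (J + 1), (4 : ℝ) ^ j * (l j * (M : ℝ) ^ (a j + s) + b ^ (a j + s) * far j)
      ≤ (2 * Λ * Real.sqrt X1 * Y + 2) * Q * g ^ s

/-- PARAMP. PROOF. `Cb = sup_m b^m (1+2m)^(a+2)` is finite (`≥ 1`). `X j = Cb * (1 + 2 * 2^(j+2))^(a+2) ≤ Cb * 2^((j+4)(a+2))`.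
`aa j = p1 * j + p2` with `b^p1 ≤ 1/8 * (1/2)^(a+2)`, `b^p2 ≤ 1 / (Cb * 2^(4(a+2)))`. `D` with
`256 * M^(2 p1) * 2^(a+2) ≤ 2^D`. For `c > 0` put `Y ^ 2 = M^(2 p2) * Cb * 2^(4(a+2)) * 4^D / min c 1`. -/
def S_PARAMP : Prop :=
  ∀ (b : ℝ) (M a : ℕ), 0 < b → b < 1 → 1 ≤ M →
    ∃ (D : ℕ) (aa : ℕ → ℕ) (Cb : ℝ), 1 ≤ Cb ∧ (∀ m : ℕ, b ^ m * (1 + 2 * (m : ℝ)) ^ (a + 2) ≤ Cb) ∧
      (∀ j, (8 : ℝ) ^ j * b ^ aa j * (Cb * (1 + 2 * (2 : ℝ) ^ (j + 2)) ^ (a + 2)) ≤ 1) ∧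
      ∀ c : ℝ, 0 < c → ∃ Y : ℝ, 0 ≤ Y ∧
        ∀ j, ((16 : ℝ) ^ j * (M : ℝ) ^ aa j) ^ 2 * (Cb * (1 + 2 * (2 : ℝ) ^ (j + 2)) ^ (a + 2))
          ≤ Y ^ 2 * (min c 1 * ((2 : ℝ) ^ j / 4) ^ D)

/-- FINAL, polynomial growth -/
def S_FINALP : Prop :=
  ∀ ε : ℝ, 0 < ε → ε < 1 → ∀ (Δ : ℕ) (δ : ℝ), 0 < δ → ∃ D : ℕ, ∀ c : ℝ, 0 < c → ∃ C : ℝ, 0 < C ∧
    ∀ (V : Type) [Fintype V] [DecidableEq V] (G : SimpleGraph V) [DecidableRel G.Adj],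
      ∀ (hN : ∀ x, (G.neighborFinset x).Nonempty), G.Connected → (∀ v : V, G.degree v ≤ Δ) →
      (∀ (x : V) (r : ℕ), (r : ℝ) ≤ (Fintype.card V : ℝ) ^ δ → c * (r : ℝ) ^ D ≤ (ball G x r).card) →
      ∀ v₀ k, J G ε hN (Dt v₀ Finset.univ) k v₀ {v₀} ≤ C * Fintype.card V

end Pool.Agent.H576.CE
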