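import Mathlib
import Pool.Agent.H576.CE.Stm
import Pool.Agent.H576.CE.Dfs
import Pool.Agent.H576.CE.Weight
import Pool.Agent.H576.CT.Final

/-! Assembly of the project CE. -/

set_option autoImplicit false
set_option linter.unusedSectionVars false

namespace Pool.Agent.H576.CE

open Finset Pool.Agent.TH112.BW Pool.Agent.H576.CT

theorem mem_nbd {V : Type} [Fintype V] (G : SimpleGraph V) (K : Finset V) (t : ℕ) (x : V) :
    x ∈ nbd G K t ↔ ∃ y ∈ K, G.dist x y ≤ t := by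
  simp [nbd]

/-- the number of the vertices near a cluster -/
theorem card_nbd (b0 : ℝ) (h00 : 0 < b0) (h01 : b0 < 1) (V : Type) [Fintype V] (G : SimpleGraph V)
    (K : Finset V) (rho : V → ℝ) (hrho0 : ∀ x, 0 ≤ rho x)
    (hrho : ∀ x, ∀ y ∈ K, b0 ^ (2 * G.dist x y) ≤ rho x) (t : ℕ) :
    ((nbd G K t).card : ℝ) ≤ (1 / b0) ^ (2 * t) * ∑ x, rho x := by
  have h1 : ((nbd G K t).card : ℝ) * b0 ^ (2 * t) ≤ ∑ x, rho x := by
    calc ((nbd G K t).card : ℝ) * b0 ^ (2 * t) = ∑ x ∈ nbd G K t, b0 ^ (2 * t) := by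
          rw [Finset.sum_const, nsmul_eq_mul]
      _ ≤ ∑ x ∈ nbd G K t, rho x := by
          refine Finset.sum_le_sum fun x hx => ?_
          obtain ⟨y, hy, hxy⟩ := (mem_nbd G K t x).mp hx
          exact (pow_le_pow_of_le_one h00.le h01.le (by omega)).trans (hrho x y hy)
      _ ≤ ∑ x, rho x := Finset.sum_le_sum_of_subset_of_nonneg (Finset.subset_univ _) fun x _ _ => hrho0 x
  have hp : 0 < b0 ^ (2 * t) := pow_pos h00 _
  rw [one_div, inv_pow, inv_mul_eq_div, le_div_iff₀ hp]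
  exact h1

/-- the networks of a cluster -/
theorem cluster (hlink : S_LINK2) (harith : S_ARITH2)
    (b ε c κ b0 Y : ℝ) (hb0 : 0 < b) (hb1 : b < 1) (hbe : b ^ 2 = 1 - ε) (hc0 : 0 < c)
    (Δ p e : ℕ) (hp : b ^ p ≤ 1 / 8)
    (h00 : 0 < b0) (h01 : b0 < 1) (hY : 0 ≤ Y) (hbb : b ≤ b0 ^ 2)
    (hpar1 : ∀ j, b ^ (2 ^ j / e + 1) * (1 / b0) ^ (2 ^ (j + 3)) ≤ 1)
    (hpar2 : ∀ j : ℕ, ((16 : ℝ) ^ j * ((Δ + 1 : ℕ) : ℝ) ^ (p * j + (2 ^ j / e + 1)) * (1 / b0) ^ (2 ^ (j + 2))) ^ 2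
        ≤ Y ^ 2 * (c * Real.exp (κ * ((2 ^ j / 4 : ℕ) : ℝ))))
    (g : ℝ) (hg4 : 1 / 4 ≤ g) (hgb : b ≤ g)
    (V : Type) [Fintype V] [DecidableEq V] (G : SimpleGraph V) [DecidableRel G.Adj]
    (hG : G.Connected) (hΔ : ∀ v, G.degree v ≤ Δ) (J r1 : ℕ)
    (hgrow : ∀ x j, j ≤ J → c * Real.exp (κ * ((2 ^ j / 4 : ℕ) : ℝ)) ≤ ((ball G x (2 ^ j / 4)).card : ℝ))
    (u : V) (K : Finset V) (huK : u ∈ K)
    (hstar : ∀ x ∈ K, x ≠ u → ∃ z ∈ K, G.Adj x z ∧ G.dist z u + 1 = G.dist x u)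
    (hrad : ∀ x ∈ K, G.dist x u ≤ r1 * 2 ^ J)
    (rho : V → ℝ) (hrho0 : ∀ x, 0 ≤ rho x) (hrho : ∀ x, ∀ y ∈ K, b0 ^ (2 * G.dist x y) ≤ rho x)
    (N0 : ℕ) (hN0 : (N0 : ℝ) ≤ (1 / b0) ^ 2 * ∑ x, rho x)
    (s : ℕ) (A : Finset V) (hA : A ⊆ nbd G K 1) (hAn : A.Nonempty)
    (hAs : A.card * (16 * (Δ + 1) ^ 4) ^ s ≤ N0) :
    ∃ w : V → ℝ, Adm G ε w ∧ (∀ v ∈ A, Res G w v u (r1 + 10)) ∧
      tot G w ≤ Δ / b * (2 * (r1 + 6) * (1 / b0) * Y + 2) * (∑ x, rho x) * g ^ s := by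
  classical
  set Q : ℝ := ∑ x, rho x with hQ
  have hQ0 : 0 ≤ Q := Finset.sum_nonneg fun x _ => hrho0 x
  obtain ⟨L, hL, hf⟩ := hlink V G hG u K huK hstar J r1 hrad A hA hAn
  obtain ⟨w, hw0, hwr, hwL, hsum⟩ := ce_weight V G hG Δ hΔ b hb0 hb1 J L (fun j hj => (hL j hj).1)
  have hx1 : 1 ≤ 1 / b0 := by rw [le_div_iff₀ h00]; linarith
  refine ⟨w, ⟨hw0, ?_⟩, ?_, ?_⟩
  · intro x y z hxy hxz
    have h1 := hwr z x hxz.symm
    have h2 := hwr x y hxy
    rw [← hbe]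
    calc b ^ 2 * w z = b * (b * w z) := by ring
      _ ≤ b * w x := mul_le_mul_of_nonneg_left h1 hb0.le
      _ ≤ w y := h2
  · intro v hv f I hI hfl
    refine hf f I hI ?_ v hv
    intro j hj x hx y hy hxy
    have h4 : (0 : ℝ) < 4 ^ j := by positivity
    rcases le_or_gt (f x - f y) 0 with hneg | hpos
    · exact hneg.trans (div_nonneg hI h4.le)
    · rw [le_div_iff₀ h4]
      have h1 := hwL j hj x hx
      have h2 := hwL j hj y hy
      have h3 : (4 : ℝ) ^ j ≤ w x * w y := by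
        calc (4 : ℝ) ^ j = 2 ^ j * 2 ^ j := by rw [← mul_pow]; norm_num
          _ ≤ w x * w y := mul_le_mul h1 h2 (by positivity) (hw0 x).le
      have h5 := hfl x y hxy
      calc (f x - f y) * 4 ^ j = 4 ^ j * (f x - f y) := by ring
        _ ≤ w x * w y * (f x - f y) := mul_le_mul_of_nonneg_right h3 hpos.le
        _ ≤ I := h5
  · have h1 := tot_sq G b hb0 Δ hΔ w hw0 hwr
    set dK : V → ℕ := fun x => K.inf' ⟨u, huK⟩ (fun y => G.dist x y) with hdK
    have hdKle : ∀ x, ∀ y ∈ K, dK x ≤ G.dist x y := fun x y hy => Finset.inf'_le _ hy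
    have hdKex : ∀ x, ∃ y ∈ K, dK x = G.dist x y := fun x =>
      Finset.exists_mem_eq_inf' ⟨u, huK⟩ (fun y => G.dist x y)
    set D : ℕ → V → ℕ := fun j x => dK x - 2 ^ (j + 2) with hD
    have h2 := hsum (fun j => p * j + s + (2 ^ j / e + 1)) D (by
      intro j hj z hz x
      obtain ⟨y, hy, hzy⟩ := (mem_nbd G K _ z).mp ((hL j hj).2.1 hz)
      have h3 := hdKle x y hy
      have h4 := hG.dist_triangle (u := x) (v := z) (w := y)
      simp only [hD]
      omega)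
    have hfar : ∀ j, ∑ x, b ^ D j x ≤ (1 / b0) ^ (2 ^ (j + 3)) * Q := by
      intro j
      rw [hQ, Finset.mul_sum]
      refine Finset.sum_le_sum fun x _ => ?_
      obtain ⟨y, hy, hxy⟩ := hdKex x
      have e1 : b ^ D j x ≤ (b0 ^ 2) ^ D j x := pow_le_pow_left₀ hb0.le hbb _
      have e2 : (b0 ^ 2) ^ D j x = (1 / b0) ^ (2 ^ (j + 3)) * b0 ^ (2 * D j x + 2 ^ (j + 3)) := by
        rw [pow_add b0 (2 * D j x) (2 ^ (j + 3)), mul_comm (b0 ^ (2 * D j x)) _, ← mul_assoc, ← mul_pow, one_div,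
          inv_mul_cancel₀ h00.ne', one_pow, one_mul, pow_mul]
      have e3 : b0 ^ (2 * D j x + 2 ^ (j + 3)) ≤ b0 ^ (2 * G.dist x y) := by
        refine pow_le_pow_of_le_one h00.le h01.le ?_
        have : 2 ^ (j + 3) = 2 * 2 ^ (j + 2) := by rw [pow_succ 2 (j + 2)]; ring
        simp only [hD]
        omega
      calc b ^ D j x ≤ (b0 ^ 2) ^ D j x := e1
        _ = (1 / b0) ^ (2 ^ (j + 3)) * b0 ^ (2 * D j x + 2 ^ (j + 3)) := e2
        _ ≤ (1 / b0) ^ (2 ^ (j + 3)) * rho x :=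
            mul_le_mul_of_nonneg_left (e3.trans (hrho x y hy)) (by positivity)
    have hm : ∀ j, ∃ m : ℕ, j ≤ J → (L j).card ≤ (r1 + 6) * 2 ^ j * m ∧ m ≤ A.card ∧
          ∀ q : ℕ, (∀ x, q ≤ (ball G x (2 ^ j / 4)).card) → m * q ≤ (nbd G K (2 ^ (j + 2))).card := by
      intro j
      by_cases hj : j ≤ J
      · obtain ⟨m, hm⟩ := (hL j hj).2.2
        exact ⟨m, fun _ => hm⟩
      · exact ⟨0, fun h => absurd h hj⟩
    choose m hm using hm
    have h3 := harith b g (1 / b0) Y Q (r1 + 6) (Δ + 1) p e s J N0 m (fun j => (L j).card)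
      (fun j => c * Real.exp (κ * ((2 ^ j / 4 : ℕ) : ℝ))) (fun j => ∑ x, b ^ D j x)
      hb0 hb1 hg4 hgb hx1 hY hQ0 (by positivity) (by omega) hp hN0 hpar1 (by
        intro j hj
        obtain ⟨e1, e2, e3⟩ := hm j hj
        refine ⟨by positivity, hpar2 j, ?_, (Nat.mul_le_mul_right _ e2).trans hAs, ?_, ?_, hfar j⟩
        · have e1' : ((L j).card : ℝ) ≤ (((r1 + 6) * 2 ^ j * m j : ℕ) : ℝ) := by exact_mod_cast e1
          push_cast at e1'
          exact e1'
        · have e4 := e3 ⌈c * Real.exp (κ * ((2 ^ j / 4 : ℕ) : ℝ))⌉₊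
            (fun x => Nat.ceil_le.mpr (hgrow x j hj))
          have e5 : ((m j : ℝ)) * (⌈c * Real.exp (κ * ((2 ^ j / 4 : ℕ) : ℝ))⌉₊ : ℝ)
              ≤ ((nbd G K (2 ^ (j + 2))).card : ℝ) := by exact_mod_cast e4
          have e6 := card_nbd b0 h00 h01 V G K rho hrho0 hrho (2 ^ (j + 2))
          have e7 : 2 * 2 ^ (j + 2) = 2 ^ (j + 3) := by rw [pow_succ 2 (j + 2)]; ring
          rw [e7] at e6
          exact ((mul_le_mul_of_nonneg_left (Nat.le_ceil _) (Nat.cast_nonneg _)).trans e5).trans e6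
        · exact Finset.sum_nonneg fun x _ => pow_nonneg hb0.le _)
    have h4 : ∑ x, w x ^ 2 ≤ (2 * (r1 + 6) * (1 / b0) * Y + 2) * Q * g ^ s := by
      refine h2.trans (le_trans (le_of_eq ?_) h3)
      refine Finset.sum_congr rfl fun j _ => ?_
      push_cast
      rfl
    calc tot G w ≤ Δ / b * ∑ x, w x ^ 2 := h1
      _ ≤ Δ / b * ((2 * (r1 + 6) * (1 / b0) * Y + 2) * Q * g ^ s) :=
          mul_le_mul_of_nonneg_left h4 (by positivity)
      _ = _ := by ring

theorem final_of (hmode : S_MODE) (hshift : S_SHIFT) (hlink : S_LINK2) (harith : S_ARITH2)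
    (hparam : S_PARAM) : S_FINAL := by
  classical
  intro ε hε0 hε1 Δ κ δ c hκ hδ hc
  obtain ⟨b, hb0, hb1, hbe⟩ : ∃ b : ℝ, 0 < b ∧ b < 1 ∧ b ^ 2 = 1 - ε := by
    refine ⟨Real.sqrt (1 - ε), Real.sqrt_pos.mpr (by linarith), ?_, Real.sq_sqrt (by linarith)⟩
    rw [Real.sqrt_lt' one_pos, one_pow]
    linarith
  obtain ⟨p, hp⟩ := exists_pow_lt_of_lt_one (show (0 : ℝ) < 1 / 8 by norm_num) hb1
  obtain ⟨g, hg4, hgb, hg1⟩ : ∃ g : ℝ, 1 / 4 ≤ g ∧ b ≤ g ∧ g < 1 :=
    ⟨max (1 / 4) b, le_max_left _ _, le_max_right _ _, max_lt (by norm_num) hb1⟩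
  have hg0 : 0 ≤ g := by linarith
  obtain ⟨e, b0, Y, he, h00, h01, hY, hbb, hpar1, hpar2⟩ :=
    hparam b κ c (Δ + 1) p hb0 hb1 hκ hc (by omega)
  have hlog : 0 < Real.log (1 / b0) := Real.log_pos (by rw [lt_div_iff₀ h00]; linarith)
  set r1 : ℕ := ⌈8 / (δ * Real.log (1 / b0))⌉₊ with hr1
  set R : ℝ := r1 + 10 with hR
  have hR0 : 0 ≤ R := by positivity
  set E : ℕ := 16 * (Δ + 1) ^ 4 with hE
  have hE2 : 2 ≤ E := by
    have : 0 < (Δ + 1) ^ 4 := by positivity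
    omega
  have h1g : 0 < 1 - g := by linarith
  have hx0 : 0 < 1 / b0 := by positivity
  set D : ℝ := Δ / b * (2 * (r1 + 6) * (1 / b0) * Y + 2) with hD
  have hD0 : 0 ≤ D := by positivity
  set CC : ℝ := E * R * (D / (1 - g)) + 2 * R * D with hCC
  have hCC0 : 0 ≤ CC := by positivity
  refine ⟨4 * CC + 1, by positivity, ?_⟩
  intro V _ _ G _ hN hG hΔ hgr v₀ k
  obtain ⟨cl, rho, hcl, hstar, hrad, hrho0, hrho, hsum⟩ := hshift b0 h00 h01 V G hG
  have hnpos : 0 < Fintype.card V := Fintype.card_pos_iff.mpr ⟨v₀⟩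
  have hn1 : (1 : ℝ) ≤ (Fintype.card V : ℝ) := by exact_mod_cast hnpos
  have hlogn : 0 ≤ Real.log (Fintype.card V) := Real.log_nonneg hn1
  have hδl : 0 ≤ δ * Real.log (Fintype.card V) := mul_nonneg hδ.le hlogn
  set m1 : ℕ := max 1 ⌊δ * Real.log (Fintype.card V)⌋₊ with hm1
  have hm1p : m1 ≠ 0 := by
    have : 1 ≤ m1 := le_max_left _ _
    omega
  obtain ⟨J, hJ⟩ : ∃ J, J = Nat.log 2 m1 := ⟨_, rfl⟩
  have hJ1 : 2 ^ J ≤ m1 := by rw [hJ]; exact Nat.pow_log_le_self 2 hm1p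
  have hJ2 : m1 < 2 ^ (J + 1) := by rw [hJ]; exact Nat.lt_pow_succ_log_self (by norm_num) m1
  have hgrow : ∀ x j, j ≤ J → c * Real.exp (κ * ((2 ^ j / 4 : ℕ) : ℝ)) ≤ ((ball G x (2 ^ j / 4)).card : ℝ) := by
    intro x j hj
    refine hgr x (2 ^ j / 4) ?_
    have h1 : 2 ^ j ≤ 2 ^ J := Nat.pow_le_pow_right (by norm_num) hj
    rcases Nat.eq_zero_or_pos ⌊δ * Real.log (Fintype.card V)⌋₊ with h0 | h0
    · have h2 : m1 = 1 := by rw [hm1, h0]; rfl
      have h4 : 2 ^ j ≤ 1 := h1.trans (hJ1.trans h2.le)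
      have h3 : 2 ^ j / 4 = 0 := Nat.div_eq_of_lt (by omega)
      rw [h3]
      simpa using hδl
    · have h2 : m1 = ⌊δ * Real.log (Fintype.card V)⌋₊ := by rw [hm1]; omega
      have h3 : 2 ^ j / 4 ≤ ⌊δ * Real.log (Fintype.card V)⌋₊ := by omega
      exact (Nat.cast_le.mpr h3).trans (Nat.floor_le hδl)
  have hradius : ∀ x, G.dist x (cl x) ≤ r1 * 2 ^ J := by
    intro x
    have h1 := Real.log_le_log one_pos (hrad x)
    rw [Real.log_one, Real.log_mul (by positivity) (by positivity), Real.log_pow, Real.log_pow] at h1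
    have h2 : Real.log (1 / b0) = - Real.log b0 := by rw [one_div, Real.log_inv]
    have h3 : (G.dist x (cl x) : ℝ) * Real.log (1 / b0) ≤ 2 * Real.log (Fintype.card V) := by
      rw [h2]; push_cast at h1; linarith
    have h4 : δ * Real.log (Fintype.card V) < 2 ^ (J + 1) := by
      have h5 := Nat.lt_floor_add_one (δ * Real.log (Fintype.card V))
      have h6 : ⌊δ * Real.log (Fintype.card V)⌋₊ + 1 ≤ 2 ^ (J + 1) := by
        have : ⌊δ * Real.log (Fintype.card V)⌋₊ ≤ m1 := le_max_right _ _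
        omega
      have h7 : ((⌊δ * Real.log (Fintype.card V)⌋₊ : ℝ)) + 1 ≤ 2 ^ (J + 1) := by exact_mod_cast h6
      linarith
    have h5 : 8 / (δ * Real.log (1 / b0)) ≤ r1 := Nat.le_ceil _
    have h6 : 0 < δ * Real.log (1 / b0) := mul_pos hδ hlog
    rw [div_le_iff₀ h6] at h5
    have h7 : (G.dist x (cl x) : ℝ) ≤ r1 * 2 ^ J := by
      have h8 : (G.dist x (cl x) : ℝ) * (δ * Real.log (1 / b0)) ≤ (r1 * 2 ^ J) * (δ * Real.log (1 / b0)) := by
        calc (G.dist x (cl x) : ℝ) * (δ * Real.log (1 / b0))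
            = δ * ((G.dist x (cl x) : ℝ) * Real.log (1 / b0)) := by ring
          _ ≤ δ * (2 * Real.log (Fintype.card V)) := mul_le_mul_of_nonneg_left h3 hδ.le
          _ = 2 * (δ * Real.log (Fintype.card V)) := by ring
          _ ≤ 2 * 2 ^ (J + 1) := by linarith
          _ ≤ 8 * 2 ^ J := by rw [pow_succ]; have : (0:ℝ) < 2 ^ J := by positivity
                              linarith
          _ ≤ (r1 * (δ * Real.log (1 / b0))) * 2 ^ J :=
              mul_le_mul_of_nonneg_right h5 (by positivity)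
          _ = _ := by ring
      exact le_of_mul_le_mul_right h8 h6
    exact_mod_cast h7
  set Q : V → ℝ := fun u => ∑ x, rho x u with hQ
  have hQ0 : ∀ u, 0 ≤ Q u := fun u => Finset.sum_nonneg fun x _ => hrho0 x u
  have hdfs := ce_dfs V G ε hε0.le hε1.le hN hG cl hcl (fun u => CC * Q u)
    (fun u => mul_nonneg hCC0 (hQ0 u)) (by
      intro u hu p0 hp0 T hT Cov hsub k S hS
      set K : Finset V := univ.filter (fun x => cl x = u) with hK
      have hKmem : ∀ x, x ∈ K ↔ cl x = u := by intro x; simp [hK]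
      have huK : u ∈ K := (hKmem u).mpr hu
      have hrhoK : ∀ x, ∀ y ∈ K, b0 ^ (2 * G.dist x y) ≤ rho x u := by
        intro x y hy
        have := hrho x y
        rw [(hKmem y).mp hy] at this
        exact this
      have hnb : nb G cl u ⊆ nbd G K 1 := by
        intro x hx
        unfold nb at hx
        have h1 := (Finset.mem_filter.mp (Finset.mem_of_mem_erase hx)).2
        rw [mem_nbd]
        rcases h1 with h1 | ⟨y, hxy, hy⟩
        · exact ⟨x, (hKmem x).mpr h1, by simp⟩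
        · exact ⟨y, (hKmem y).mpr hy, (SimpleGraph.dist_eq_one_iff_adj.mpr hxy).le⟩
      have hcardN : (((nb G cl u).card : ℕ) : ℝ) ≤ (1 / b0) ^ 2 * ∑ x, rho x u := by
        have h1 := card_nbd b0 h00 h01 V G K (fun x => rho x u) (fun x => hrho0 x u) hrhoK 1
        have h2 : ((nb G cl u).card : ℝ) ≤ ((nbd G K 1).card : ℝ) := by
          exact_mod_cast Finset.card_le_card hnb
        rw [mul_one] at h1
        exact h2.trans h1
      have hmd := hmode V G ε hε0.le hε1.le hN hG u p0 R hR0 (nb G cl u) (Finset.notMem_erase _ _)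
        (by
          by_cases h : p0 = u
          · exact Or.inl h
          · refine Or.inr ?_
            unfold nb
            rw [Finset.mem_erase, Finset.mem_filter]
            exact ⟨h, Finset.mem_univ _, Or.inl hp0⟩)
        E (nb G cl u).card hE2 le_rfl (fun s => D * Q u * g ^ s)
        (fun s => mul_nonneg (mul_nonneg hD0 (hQ0 u)) (pow_nonneg hg0 _))
        (by
          intro s A hA hAn hAs
          exact cluster hlink harith b ε c κ b0 Y hb0 hb1 hbe hc Δ p e hp.le h00 h01 hY hbb hpar1 hpar2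
            g hg4 hgb V G hG hΔ J r1 hgrow u K huK
            (by
              intro x hx hxu
              have hx' := (hKmem x).mp hx
              obtain ⟨z, h1, h2, h3⟩ := hstar x (by rw [hx']; exact fun h => hxu h.symm)
              rw [hx'] at h2 h3
              exact ⟨z, (hKmem z).mpr h2, h1, h3⟩)
            (by
              intro x hx
              have := hradius x
              rw [(hKmem x).mp hx] at this
              exact this)
            (fun x => rho x u) (fun x => hrho0 x u) hrhoK (nb G cl u).card hcardN s A (hA.trans hnb) hAn hAs)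
        T hT Cov hsub k S hS
      refine hmd.trans ?_
      rw [← Finset.mul_sum]
      have h2 := geo_le g hg0 hg1 ((nb G cl u).card + 1)
      have h3 : D * Q u * ∑ s ∈ range ((nb G cl u).card + 1), g ^ s ≤ D * Q u * (1 / (1 - g)) :=
        mul_le_mul_of_nonneg_left h2 (mul_nonneg hD0 (hQ0 u))
      have h4 : (E : ℝ) * R * (D * Q u * ∑ s ∈ range ((nb G cl u).card + 1), g ^ s)
          ≤ E * R * (D * Q u * (1 / (1 - g))) := mul_le_mul_of_nonneg_left h3 (by positivity)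
      have h5 : E * R * (D * Q u * (1 / (1 - g))) + 2 * R * (D * Q u * g ^ 0) = CC * Q u := by
        rw [hCC]; ring
      linarith)
    v₀ k {v₀} (Finset.mem_singleton_self _)
  refine hdfs.trans ?_
  rw [← Finset.mul_sum]
  have h1 : ∑ u, Q u ≤ 4 * Fintype.card V := by
    simp only [hQ]
    rw [Finset.sum_comm]
    exact hsum
  have h2 : CC * ∑ u, Q u ≤ CC * (4 * Fintype.card V) := mul_le_mul_of_nonneg_left h1 hCC0
  have h3 : (0 : ℝ) ≤ Fintype.card V := Nat.cast_nonneg _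
  linarith

end Pool.Agent.H576.CE
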