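import Mathlib
import Pool.Agent.H576.CE.StmP

/-!
# PROJECT CE, third part: a small set of exceptional vertices
-/

set_option autoImplicit false
set_option linter.unusedSectionVars false

namespace Pool.Agent.H576.CE

open Finset Pool.Agent.TH112.BW Pool.Agent.H576.CT

/-- LINK3. Hierarchical links for a cluster with exceptional vertices. PROOF: modify the proof of `ce_link` in
`Pool/Agent/H673/CE/CELink2.lean`. The nets are now nets of `F`: for every `j` a maximal `2^j`-separated subset `P j` of `F` and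
`ν j x ∈ P j`, `dist x (ν j x) < 2^j` for `x ∈ F` (maximal subset of `F` with pairwise distances `≥ 2^j`:
`Finset.exists_maximal` or `exists_max_image` of the cardinality over the powerset filter). For `v ∈ A ∩ F` put `p 0 v = v`,
`p (j+1) v = ν (j+1) (p j v)`, all in `F`. For `j ≤ J` the set `L j` is built as in `ce_link` from `A ∩ F` in place of `A` (empty if
`A ∩ F` is empty, with `m = 0`); `L (J+1)` is the union over `v ∈ A \ F` of the edge (or the point) from `v` to a point `y v ∈ K`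
with `dist v (y v) ≤ 1` followed by the path inside `K` to `u` (`star_walk`), at most `1 + (r1 * 2^J + 1) ≤ (r1 + 3) * 2^J` points
for each `v`; it is contained in `nbd G K 1`. Some `L j` is not empty because `A` is not empty. Last part: for `v ∈ A ∩ F`
as in `ce_link`, for `v ∈ A \ F` there are at most `r1 * 2^J + 1` steps of size `I / 4^(J+1)`. -/
def S_LINK3 : Prop :=
  ∀ (V : Type) [Fintype V] [DecidableEq V] (G : SimpleGraph V), G.Connected →
    ∀ (u : V) (K F : Finset V), u ∈ K →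
    (∀ x ∈ K, x ≠ u → ∃ z ∈ K, G.Adj x z ∧ G.dist z u + 1 = G.dist x u) →
    ∀ (J r1 : ℕ), (∀ x ∈ K, G.dist x u ≤ r1 * 2 ^ J) →
    ∀ A : Finset V, A ⊆ nbd G K 1 → A.Nonempty →
    ∃ L : ℕ → Finset V, (∃ j ≤ J + 1, (L j).Nonempty) ∧
      (∀ j ≤ J, L j ⊆ nbd G K (2 ^ (j + 2)) ∧
        ∃ m : ℕ, (L j).card ≤ (r1 + 6) * 2 ^ j * m ∧ m ≤ A.card ∧
          ∀ q : ℕ, (∀ x ∈ F, q ≤ (ball G x (2 ^ j / 4)).card) → m * q ≤ (nbd G K (2 ^ (j + 2))).card) ∧
      L (J + 1) ⊆ nbd G K 1 ∧ (L (J + 1)).card ≤ (r1 + 3) * 2 ^ J * (A \ F).card ∧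
      ∀ (f : V → ℝ) (I : ℝ), 0 ≤ I →
        (∀ j ≤ J + 1, ∀ x ∈ L j, ∀ y ∈ L j, G.Adj x y → f x - f y ≤ I / 4 ^ j) →
        ∀ v ∈ A, f v - f u ≤ (r1 + 10) * I ∧ f u - f v ≤ (r1 + 10) * I

/-- WEIGHT3. As `S_WEIGHT2`, some of the sets `L j` may be empty. -/
def S_WEIGHT3 : Prop :=
  ∀ (V : Type) [Fintype V] [DecidableEq V] (G : SimpleGraph V) [DecidableRel G.Adj], G.Connected →
    ∀ (Δ : ℕ), (∀ v, G.degree v ≤ Δ) → ∀ (b : ℝ), 0 < b → b < 1 → ∀ (J : ℕ) (L : ℕ → Finset V),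
    (∃ j ≤ J, (L j).Nonempty) →
    ∃ w : V → ℝ, (∀ x, 0 < w x) ∧ (∀ x y, G.Adj x y → b * w x ≤ w y) ∧
      (∀ j ≤ J, ∀ z ∈ L j, (2 : ℝ) ^ j ≤ w z) ∧
      ∀ (i : ℕ → ℕ) (D : ℕ → V → ℕ), (∀ j ≤ J, ∀ z ∈ L j, ∀ x, D j x ≤ G.dist x z) →
        ∑ x, w x ^ 2 ≤ ∑ j ∈ range (J + 1),
          (4 : ℝ) ^ j * ((L j).card * ((Δ : ℝ) + 1) ^ i j + b ^ i j * ∑ x, b ^ D j x)

end Pool.Agent.H576.CE
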