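import Mathlib
import Pool.Agent.H576.CE.StmG
import Pool.Agent.H576.CE.Dfs
import Pool.Agent.H576.CE.Weight3
import Pool.Agent.H576.CE.Final

/-! General assembly of the project CE: exceptional vertices and general overlap functions. -/

set_option autoImplicit false
set_option linter.unusedSectionVars false

namespace Pool.Agent.H576.CE

open Finset Pool.Agent.TH112.BW Pool.Agent.H576.CT

theorem sq_aux (W m M X bd A N : ℝ) (s : ℕ) (hW : 0 ≤ W) (hm0 : 0 ≤ m) (hM : 1 ≤ M) (hX : 0 ≤ X) (hbd : 0 ≤ bd)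
    (hmA : m ≤ A) (hmb : m ≤ bd) (hA : A * (16 * M ^ 4) ^ s ≤ N) (hN : N ≤ X) :
    W * m * M ^ s ≤ (1 / 4) ^ s * (X + W ^ 2 * bd) := by
  have h1 : (m * M ^ s * 4 ^ s) ^ 2 ≤ bd * X := by
    have e1 : (m * M ^ s * 4 ^ s) ^ 2 = m * (m * (16 * M ^ 2) ^ s) := by
      have : (16 * M ^ 2 : ℝ) ^ s = (M ^ s * 4 ^ s) ^ 2 := by
        rw [← mul_pow, ← pow_mul, mul_comm s 2, pow_mul]
        congr 1
        ring
      rw [this]; ring
    have e2 : (16 * M ^ 2 : ℝ) ^ s ≤ (16 * M ^ 4) ^ s := by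
      refine pow_le_pow_left₀ (by positivity) ?_ s
      have : M ^ 2 ≤ M ^ 4 := pow_le_pow_right₀ hM (by norm_num)
      linarith
    rw [e1]
    have e3 : m * (16 * M ^ 2) ^ s ≤ X := by
      calc m * (16 * M ^ 2) ^ s ≤ A * (16 * M ^ 4) ^ s :=
            mul_le_mul hmA e2 (by positivity) (hm0.trans hmA)
        _ ≤ X := hA.trans hN
    exact mul_le_mul hmb e3 (by positivity) hbd
  have h2 : (W * (m * M ^ s * 4 ^ s)) ^ 2 ≤ (X + W ^ 2 * bd) ^ 2 := by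
    have e1 : (W * (m * M ^ s * 4 ^ s)) ^ 2 = W ^ 2 * (m * M ^ s * 4 ^ s) ^ 2 := by ring
    rw [e1]
    have e2 : W ^ 2 * (m * M ^ s * 4 ^ s) ^ 2 ≤ W ^ 2 * (bd * X) := mul_le_mul_of_nonneg_left h1 (by positivity)
    have e3 : 0 ≤ X * (W ^ 2 * bd) := by positivity
    have e4 : 0 ≤ (W ^ 2 * bd) ^ 2 := by positivity
    have e5 : 0 ≤ X ^ 2 := by positivity
    nlinarith
  have h3 : 0 ≤ X + W ^ 2 * bd := by positivity
  have h4 := abs_le_of_sq_le_sq' h2 h3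
  have h5 : (0 : ℝ) < 4 ^ s := by positivity
  have h6 : W * m * M ^ s * 4 ^ s ≤ X + W ^ 2 * bd := by
    calc W * m * M ^ s * 4 ^ s = W * (m * M ^ s * 4 ^ s) := by ring
      _ ≤ _ := h4.2
  rw [one_div, inv_pow, inv_mul_eq_div, le_div_iff₀ h5]
  exact h6

/-- the networks of a cluster -/
theorem clusterG (hlink : S_LINK3) (harith : S_ARITH3)
    (b ε Y X1 Q : ℝ) (X β : ℕ → ℝ) (aa : ℕ → ℕ) (hb0 : 0 < b) (hb1 : b < 1) (hbe : b ^ 2 = 1 - ε)
    (Δ p : ℕ) (hp : b ^ p ≤ 1 / 8) (hY : 0 ≤ Y) (hX1 : 0 ≤ X1) (hX : ∀ j, 0 ≤ X j) (hQ0 : 0 ≤ Q)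
    (haX : ∀ j, (8 : ℝ) ^ j * b ^ aa j * X j ≤ 1) (hβ : ∀ j, 0 < β j)
    (hβ2 : ∀ j, ((16 : ℝ) ^ j * ((Δ + 1 : ℕ) : ℝ) ^ aa j) ^ 2 * X j ≤ Y ^ 2 * β j)
    (g : ℝ) (hg4 : 1 / 4 ≤ g) (hgb : b ≤ g)
    (V : Type) [Fintype V] [DecidableEq V] (G : SimpleGraph V) [DecidableRel G.Adj]
    (hG : G.Connected) (hΔ : ∀ v, G.degree v ≤ Δ) (J r1 : ℕ) (F : Finset V)
    (hgrow : ∀ x ∈ F, ∀ j, j ≤ J → β j ≤ ((ball G x (2 ^ j / 4)).card : ℝ))
    (u : V) (K : Finset V) (huK : u ∈ K)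
    (hstar : ∀ x ∈ K, x ≠ u → ∃ z ∈ K, G.Adj x z ∧ G.dist z u + 1 = G.dist x u)
    (hrad : ∀ x ∈ K, G.dist x u ≤ r1 * 2 ^ J)
    (hcard : ∀ j, ((nbd G K (2 ^ (j + 2))).card : ℝ) ≤ X j * Q)
    (dK : V → ℕ) (hdK : ∀ x, ∀ y ∈ K, dK x ≤ G.dist x y)
    (hfar : ∀ j, ∑ x, b ^ (dK x - 2 ^ (j + 2)) ≤ X j * Q)
    (hfar1 : ∑ x, b ^ (dK x - 1) ≤ X1 * Q)
    (bd : ℕ) (hbd : (nbd G K 1 \ F).card ≤ bd)
    (N0 : ℕ) (hN0 : (N0 : ℝ) ≤ X1 * Q)
    (s : ℕ) (A : Finset V) (hA : A ⊆ nbd G K 1) (hAn : A.Nonempty)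
    (hAs : A.card * (16 * (Δ + 1) ^ 4) ^ s ≤ N0) :
    ∃ w : V → ℝ, Adm G ε w ∧ (∀ v ∈ A, Res G w v u (r1 + 10)) ∧
      tot G w ≤ Δ / b * ((2 * (r1 + 6) * Real.sqrt X1 * Y + 2 + 2 * X1) * Q +
        (4 ^ (J + 1) * ((r1 + 3) * 2 ^ J) * ((Δ : ℝ) + 1) ^ (p * (J + 1))) ^ 2 * bd) * g ^ s := by
  classical
  have hg0 : 0 ≤ g := by linarith
  obtain ⟨L, hLne, hL, hLJ1, hLJ2, hf⟩ := hlink V G hG u K F huK hstar J r1 hrad A hA hAn
  obtain ⟨w, hw0, hwr, hwL, hsum⟩ := ce_weight3 V G hG Δ hΔ b hb0 hb1 (J + 1) L hLne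
  refine ⟨w, ⟨hw0, ?_⟩, ?_, ?_⟩
  · intro x y z hxy hxz
    have h1 := hwr z x hxz.symm
    have h2 := hwr x y hxy
    rw [← hbe]
    calc b ^ 2 * w z = b * (b * w z) := by ring
      _ ≤ b * w x := mul_le_mul_of_nonneg_left h1 hb0.le
      _ ≤ w y := h2
  · intro v hv f I hI hfl
    refine hf f I hI ?_ v hv
    intro j hj x hx y hy hxy
    have h4 : (0 : ℝ) < 4 ^ j := by positivity
    rcases le_or_gt (f x - f y) 0 with hneg | hpos
    · exact hneg.trans (div_nonneg hI h4.le)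
    · rw [le_div_iff₀ h4]
      have h1 := hwL j hj x hx
      have h2 := hwL j hj y hy
      have h3 : (4 : ℝ) ^ j ≤ w x * w y := by
        calc (4 : ℝ) ^ j = 2 ^ j * 2 ^ j := by rw [← mul_pow]; norm_num
          _ ≤ w x * w y := mul_le_mul h1 h2 (by positivity) (hw0 x).le
      have h5 := hfl x y hxy
      calc (f x - f y) * 4 ^ j = 4 ^ j * (f x - f y) := by ring
        _ ≤ w x * w y * (f x - f y) := mul_le_mul_of_nonneg_right h3 hpos.le
        _ ≤ I := h5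
  · have h1 := tot_sq G b hb0 Δ hΔ w hw0 hwr
    set D : ℕ → V → ℕ := fun j x => if j ≤ J then dK x - 2 ^ (j + 2) else dK x - 1 with hD
    set ii : ℕ → ℕ := fun j => if j ≤ J then aa j + s else p * (J + 1) + s with hii
    have h2 := hsum ii D (by
      intro j hj z hz x
      simp only [hD]
      split_ifs with hjJ
      · obtain ⟨y, hy, hzy⟩ := (mem_nbd G K _ z).mp ((hL j hjJ).1 hz)
        have h3 := hdK x y hy
        have h4 := hG.dist_triangle (u := x) (v := z) (w := y)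
        omega
      · have hj' : j = J + 1 := by omega
        rw [hj'] at hz
        obtain ⟨y, hy, hzy⟩ := (mem_nbd G K _ z).mp (hLJ1 hz)
        have h3 := hdK x y hy
        have h4 := hG.dist_triangle (u := x) (v := z) (w := y)
        omega)
    rw [Finset.sum_range_succ] at h2
    have hm : ∀ j, ∃ m : ℕ, j ≤ J → (L j).card ≤ (r1 + 6) * 2 ^ j * m ∧ m ≤ A.card ∧
          ∀ q : ℕ, (∀ x ∈ F, q ≤ (ball G x (2 ^ j / 4)).card) → m * q ≤ (nbd G K (2 ^ (j + 2))).card := by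
      intro j
      by_cases hj : j ≤ J
      · obtain ⟨m, hm⟩ := (hL j hj).2
        exact ⟨m, fun _ => hm⟩
      · exact ⟨0, fun h => absurd h hj⟩
    choose m hm using hm
    have h3 := harith b g X1 Y Q (r1 + 6) (Δ + 1) s J N0 m (fun j => (L j).card) aa
      β (fun j => ∑ x, b ^ (dK x - 2 ^ (j + 2))) X
      hb0 hb1 hg4 hgb hX1 hY hQ0 (by positivity) (by omega) hN0 hX haX (by
        intro j hj
        obtain ⟨e1, e2, e3⟩ := hm j hj
        refine ⟨hβ j, hβ2 j, ?_, (Nat.mul_le_mul_right _ e2).trans hAs, ?_, ?_, hfar j⟩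
        · have e1' : ((L j).card : ℝ) ≤ (((r1 + 6) * 2 ^ j * m j : ℕ) : ℝ) := by exact_mod_cast e1
          push_cast at e1'
          exact e1'
        · have e4 := e3 ⌈β j⌉₊ (fun x hx => Nat.ceil_le.mpr (hgrow x hx j hj))
          have e5 : ((m j : ℝ)) * (⌈β j⌉₊ : ℝ) ≤ ((nbd G K (2 ^ (j + 2))).card : ℝ) := by exact_mod_cast e4
          exact ((mul_le_mul_of_nonneg_left (Nat.le_ceil _) (Nat.cast_nonneg _)).trans e5).trans (hcard j)
        · exact Finset.sum_nonneg fun x _ => pow_nonneg hb0.le _)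
    have h4 : ∑ j ∈ range (J + 1), (4 : ℝ) ^ j * ((L j).card * ((Δ : ℝ) + 1) ^ ii j + b ^ ii j * ∑ x, b ^ D j x)
        ≤ (2 * (r1 + 6) * Real.sqrt X1 * Y + 2) * Q * g ^ s := by
      refine le_trans (le_of_eq ?_) h3
      refine Finset.sum_congr rfl fun j hj => ?_
      have hj' : j ≤ J := Nat.lt_succ_iff.mp (Finset.mem_range.mp hj)
      simp only [hD, hii, if_pos hj']
      push_cast
      rfl
    -- the extra level
    have hgs : (1 / 4 : ℝ) ^ s ≤ g ^ s := pow_le_pow_left₀ (by norm_num) hg4 s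
    have hbs : b ^ s ≤ g ^ s := pow_le_pow_left₀ hb0.le hgb s
    set W0 : ℝ := 4 ^ (J + 1) * ((r1 + 3) * 2 ^ J) * ((Δ : ℝ) + 1) ^ (p * (J + 1)) with hW0
    have hW00 : 0 ≤ W0 := by positivity
    have hAF : ((A \ F).card : ℝ) ≤ bd := by
      have : (A \ F).card ≤ (nbd G K 1 \ F).card :=
        Finset.card_le_card (Finset.sdiff_subset_sdiff hA (Finset.Subset.refl _))
      exact_mod_cast this.trans hbd
    have hAA : ((A \ F).card : ℝ) ≤ A.card := by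
      exact_mod_cast Finset.card_le_card Finset.sdiff_subset
    have hAs' : (A.card : ℝ) * (16 * ((Δ : ℝ) + 1) ^ 4) ^ s ≤ N0 := by exact_mod_cast hAs
    have h5 := sq_aux W0 (A \ F).card ((Δ : ℝ) + 1) (X1 * Q) bd A.card N0 s hW00 (Nat.cast_nonneg _)
      (by have : (0 : ℝ) ≤ Δ := Nat.cast_nonneg _
          linarith) (mul_nonneg hX1 hQ0) (Nat.cast_nonneg _) hAA hAF hAs' hN0
    have hLJ2' : ((L (J + 1)).card : ℝ) ≤ (r1 + 3) * 2 ^ J * (A \ F).card := by exact_mod_cast hLJ2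
    have h6 : (4 : ℝ) ^ (J + 1) * ((L (J + 1)).card * ((Δ : ℝ) + 1) ^ ii (J + 1) + b ^ ii (J + 1) * ∑ x, b ^ D (J + 1) x)
        ≤ (2 * (X1 * Q) + W0 ^ 2 * bd) * g ^ s := by
      have hn : ¬ (J + 1 ≤ J) := by omega
      simp only [hD, hii, if_neg hn]
      have e1 : (4 : ℝ) ^ (J + 1) * ((L (J + 1)).card * ((Δ : ℝ) + 1) ^ (p * (J + 1) + s))
          ≤ (X1 * Q + W0 ^ 2 * bd) * g ^ s := by
        calc (4 : ℝ) ^ (J + 1) * ((L (J + 1)).card * ((Δ : ℝ) + 1) ^ (p * (J + 1) + s))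
            ≤ (4 : ℝ) ^ (J + 1) * (((r1 + 3) * 2 ^ J * (A \ F).card) * ((Δ : ℝ) + 1) ^ (p * (J + 1) + s)) := by
              refine mul_le_mul_of_nonneg_left ?_ (by positivity)
              exact mul_le_mul_of_nonneg_right hLJ2' (by positivity)
          _ = W0 * (A \ F).card * ((Δ : ℝ) + 1) ^ s := by rw [hW0, pow_add]; ring
          _ ≤ (1 / 4) ^ s * (X1 * Q + W0 ^ 2 * bd) := h5
          _ ≤ g ^ s * (X1 * Q + W0 ^ 2 * bd) := by
              refine mul_le_mul_of_nonneg_right hgs ?_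
              have := mul_nonneg hX1 hQ0
              positivity
          _ = _ := by ring
      have e2 : (4 : ℝ) ^ (J + 1) * (b ^ (p * (J + 1) + s) * ∑ x, b ^ (dK x - 1)) ≤ (X1 * Q) * g ^ s := by
        have e3 : (4 : ℝ) ^ (J + 1) * b ^ (p * (J + 1)) ≤ 1 := by
          rw [pow_mul, ← mul_pow]
          refine pow_le_one₀ (by positivity) ?_
          have : (0 : ℝ) ≤ b ^ p := by positivity
          linarith
        calc (4 : ℝ) ^ (J + 1) * (b ^ (p * (J + 1) + s) * ∑ x, b ^ (dK x - 1))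
            = (4 ^ (J + 1) * b ^ (p * (J + 1))) * (b ^ s * ∑ x, b ^ (dK x - 1)) := by rw [pow_add]; ring
          _ ≤ 1 * (b ^ s * ∑ x, b ^ (dK x - 1)) := by
              refine mul_le_mul_of_nonneg_right e3 ?_
              have : 0 ≤ ∑ x, b ^ (dK x - 1) := Finset.sum_nonneg fun x _ => pow_nonneg hb0.le _
              positivity
          _ ≤ 1 * (g ^ s * (X1 * Q)) := by
              refine mul_le_mul_of_nonneg_left ?_ zero_le_one
              exact mul_le_mul hbs hfar1 (Finset.sum_nonneg fun x _ => pow_nonneg hb0.le _) (pow_nonneg hg0 _)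
          _ = _ := by ring
      calc (4 : ℝ) ^ (J + 1) * ((L (J + 1)).card * ((Δ : ℝ) + 1) ^ (p * (J + 1) + s)
            + b ^ (p * (J + 1) + s) * ∑ x, b ^ (dK x - 1))
          = (4 : ℝ) ^ (J + 1) * ((L (J + 1)).card * ((Δ : ℝ) + 1) ^ (p * (J + 1) + s))
            + (4 : ℝ) ^ (J + 1) * (b ^ (p * (J + 1) + s) * ∑ x, b ^ (dK x - 1)) := by ring
        _ ≤ (X1 * Q + W0 ^ 2 * bd) * g ^ s + (X1 * Q) * g ^ s := add_le_add e1 e2
        _ = _ := by ring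
    have h7 : ∑ x, w x ^ 2 ≤ ((2 * (r1 + 6) * Real.sqrt X1 * Y + 2 + 2 * X1) * Q + W0 ^ 2 * bd) * g ^ s := by
      refine h2.trans ((add_le_add h4 h6).trans (le_of_eq ?_))
      ring
    calc tot G w ≤ Δ / b * ∑ x, w x ^ 2 := h1
      _ ≤ Δ / b * (((2 * (r1 + 6) * Real.sqrt X1 * Y + 2 + 2 * X1) * Q + W0 ^ 2 * bd) * g ^ s) :=
          mul_le_mul_of_nonneg_left h7 (by positivity)
      _ = _ := by ring

end Pool.Agent.H576.CE
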