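import Mathlib
import Pool.Agent.H576.CE.Gen

/-! General assembly of the project CE: the sum over the clusters. -/

set_option autoImplicit false
set_option linter.unusedSectionVars false

namespace Pool.Agent.H576.CE

open Finset Pool.Agent.TH112.BW Pool.Agent.H576.CT

/-- every exceptional vertex is near at most `Δ + 1` clusters -/
theorem sum_bad {V : Type} [Fintype V] [DecidableEq V] (G : SimpleGraph V) [DecidableRel G.Adj] (hG : G.Connected)
    (Δ : ℕ) (hΔ : ∀ v, G.degree v ≤ Δ) (F : Finset V) (cl : V → V) :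
    ∑ u, (nbd G (univ.filter (fun x => cl x = u)) 1 \ F).card ≤ (Δ + 1) * (univ \ F).card := by
  classical
  have hball := (Pool.Agent.H675.ct_balls V G hG).1 Δ hΔ
  have h1 : ∀ u, (nbd G (univ.filter (fun x => cl x = u)) 1 \ F).card
      = ∑ x ∈ univ \ F, if ∃ y, cl y = u ∧ G.dist x y ≤ 1 then 1 else 0 := by
    intro u
    rw [Finset.sum_ite, Finset.sum_const_zero, add_zero, Finset.sum_const, smul_eq_mul, mul_one]
    refine congrArg Finset.card ?_
    ext x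
    simp only [Finset.mem_sdiff, Finset.mem_filter, Finset.mem_univ, true_and, mem_nbd]
    tauto
  have h2 : ∀ x, (∑ u, if ∃ y, cl y = u ∧ G.dist x y ≤ 1 then 1 else 0) ≤ Δ + 1 := by
    intro x
    rw [Finset.sum_ite, Finset.sum_const_zero, add_zero, Finset.sum_const, smul_eq_mul, mul_one]
    have h3 : (univ.filter (fun u => ∃ y, cl y = u ∧ G.dist x y ≤ 1)) ⊆ (ball G x 1).image cl := by
      intro u hu
      obtain ⟨y, hy1, hy2⟩ := (Finset.mem_filter.mp hu).2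
      refine Finset.mem_image.mpr ⟨y, ?_, hy1⟩
      rw [mem_ball]
      exact hy2
    have h4 := hball x 1
    rw [pow_one] at h4
    exact (Finset.card_le_card h3).trans (Finset.card_image_le.trans h4)
  calc ∑ u, (nbd G (univ.filter (fun x => cl x = u)) 1 \ F).card
      = ∑ u, ∑ x ∈ univ \ F, (if ∃ y, cl y = u ∧ G.dist x y ≤ 1 then 1 else 0) :=
        Finset.sum_congr rfl fun u _ => h1 u
    _ = ∑ x ∈ univ \ F, ∑ u, (if ∃ y, cl y = u ∧ G.dist x y ≤ 1 then 1 else 0) := Finset.sum_comm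
    _ ≤ ∑ x ∈ univ \ F, (Δ + 1) := Finset.sum_le_sum fun x _ => h2 x
    _ = _ := by rw [Finset.sum_const, smul_eq_mul]; ring

theorem graphG (hmode : S_MODE) (hlink : S_LINK3) (harith : S_ARITH3)
    (ε b Y : ℝ) (φ Kf β : ℕ → ℝ) (aa : ℕ → ℕ) (hε0 : 0 < ε) (hε1 : ε < 1) (hb0 : 0 < b) (hb1 : b < 1)
    (hbe : b ^ 2 = 1 - ε) (Δ p r1 : ℕ) (hp : b ^ p ≤ 1 / 8) (hY : 0 ≤ Y) (hKf : ∀ t, 0 ≤ Kf t)
    (hφ : ∀ t d : ℕ, b ^ (d - t) ≤ Kf t * φ d)
    (haX : ∀ j, (8 : ℝ) ^ j * b ^ aa j * Kf (2 ^ (j + 2)) ≤ 1) (hβ : ∀ j, 0 < β j)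
    (hβ2 : ∀ j, ((16 : ℝ) ^ j * ((Δ + 1 : ℕ) : ℝ) ^ aa j) ^ 2 * Kf (2 ^ (j + 2)) ≤ Y ^ 2 * β j) :
    ∃ CC : ℝ, 0 ≤ CC ∧ ∀ (V : Type) [Fintype V] [DecidableEq V] (G : SimpleGraph V) [DecidableRel G.Adj]
      (hN : ∀ x, (G.neighborFinset x).Nonempty) (_hG : G.Connected) (_hΔ : ∀ v, G.degree v ≤ Δ)
      (Jn : ℕ) (F : Finset V)
      (_hgrow : ∀ x ∈ F, ∀ j, j ≤ Jn → β j ≤ ((ball G x (2 ^ j / 4)).card : ℝ))
      (cl : V → V) (rho : V → V → ℝ) (_hcl : ∀ x, cl (cl x) = cl x)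
      (_hstar : ∀ x, cl x ≠ x → ∃ z, G.Adj x z ∧ cl z = cl x ∧ G.dist z (cl x) + 1 = G.dist x (cl x))
      (_hrad : ∀ x, G.dist x (cl x) ≤ r1 * 2 ^ Jn)
      (_hrho0 : ∀ x u, 0 ≤ rho x u) (_hrho : ∀ x y, φ (G.dist x y) ≤ rho x (cl y)) (v₀ : V) (k : ℕ),
      J G ε hN (Dt v₀ Finset.univ) k v₀ {v₀} ≤ CC * (∑ x, ∑ u, rho x u +
        (4 ^ (Jn + 1) * ((r1 + 3) * 2 ^ Jn) * ((Δ : ℝ) + 1) ^ (p * (Jn + 1))) ^ 2 * ((univ \ F).card : ℝ)) := by
  classical
  obtain ⟨g, hg4, hgb, hg1⟩ : ∃ g : ℝ, 1 / 4 ≤ g ∧ b ≤ g ∧ g < 1 :=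
    ⟨max (1 / 4) b, le_max_left _ _, le_max_right _ _, max_lt (by norm_num) hb1⟩
  have hg0 : 0 ≤ g := by linarith
  have h1g : 0 < 1 - g := by linarith
  set R : ℝ := r1 + 10 with hR
  have hR0 : 0 ≤ R := by positivity
  set E : ℕ := 16 * (Δ + 1) ^ 4 with hE
  have hE2 : 2 ≤ E := by
    have : 0 < (Δ + 1) ^ 4 := by positivity
    omega
  set X1 : ℝ := Kf 1 with hX1
  have hX10 : 0 ≤ X1 := hKf 1
  set B1 : ℝ := 2 * (r1 + 6) * Real.sqrt X1 * Y + 2 + 2 * X1 with hB1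
  have hB10 : 0 ≤ B1 := by
    have := Real.sqrt_nonneg X1
    positivity
  set CC0 : ℝ := (E * R * (1 / (1 - g)) + 2 * R) * (Δ / b) with hCC0
  have hCC00 : 0 ≤ CC0 := by positivity
  refine ⟨CC0 * (B1 + (Δ + 1)), by positivity, ?_⟩
  intro V _ _ G _ hN hG hΔ Jn F hgrow cl rho hcl hstar hrad hrho0 hrho v₀ k
  set W0 : ℝ := 4 ^ (Jn + 1) * ((r1 + 3) * 2 ^ Jn) * ((Δ : ℝ) + 1) ^ (p * (Jn + 1)) with hW0
  set Q : V → ℝ := fun u => ∑ x, rho x u with hQ
  have hQ0 : ∀ u, 0 ≤ Q u := fun u => Finset.sum_nonneg fun x _ => hrho0 x u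
  set bd : V → ℕ := fun u => (nbd G (univ.filter (fun x => cl x = u)) 1 \ F).card with hbd
  have hKu0 : ∀ u, 0 ≤ B1 * Q u + W0 ^ 2 * (bd u : ℝ) := fun u => by
    have := mul_nonneg hB10 (hQ0 u)
    positivity
  have hdfs := ce_dfs V G ε hε0.le hε1.le hN hG cl hcl (fun u => CC0 * (B1 * Q u + W0 ^ 2 * (bd u : ℝ)))
    (fun u => mul_nonneg hCC00 (hKu0 u)) (by
      intro u hu p0 hp0 T hT Cov hsub k S hS
      set K : Finset V := univ.filter (fun x => cl x = u) with hK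
      have hKmem : ∀ x, x ∈ K ↔ cl x = u := by intro x; simp [hK]
      have huK : u ∈ K := (hKmem u).mpr hu
      have hrhoK : ∀ x, ∀ y ∈ K, φ (G.dist x y) ≤ rho x u := by
        intro x y hy
        have := hrho x y
        rw [(hKmem y).mp hy] at this
        exact this
      set dK : V → ℕ := fun x => K.inf' ⟨u, huK⟩ (fun y => G.dist x y) with hdK
      have hdKle : ∀ x, ∀ y ∈ K, dK x ≤ G.dist x y := fun x y hy => Finset.inf'_le _ hy
      have hdKex : ∀ x, ∃ y ∈ K, dK x = G.dist x y := fun x =>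
        Finset.exists_mem_eq_inf' ⟨u, huK⟩ (fun y => G.dist x y)
      have hfar : ∀ t, ∑ x, b ^ (dK x - t) ≤ Kf t * Q u := by
        intro t
        simp only [hQ]
        rw [Finset.mul_sum]
        refine Finset.sum_le_sum fun x _ => ?_
        obtain ⟨y, hy, hxy⟩ := hdKex x
        rw [hxy]
        exact (hφ t _).trans (mul_le_mul_of_nonneg_left (hrhoK x y hy) (hKf t))
      have hcard : ∀ t, ((nbd G K t).card : ℝ) ≤ Kf t * Q u := by
        intro t
        refine le_trans ?_ (hfar t)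
        calc ((nbd G K t).card : ℝ) = ∑ x ∈ nbd G K t, (1 : ℝ) := by simp
          _ ≤ ∑ x ∈ nbd G K t, b ^ (dK x - t) := by
              refine Finset.sum_le_sum fun x hx => ?_
              obtain ⟨y, hy, hxy⟩ := (mem_nbd G K t x).mp hx
              have h1 := hdKle x y hy
              have h2 : dK x - t = 0 := by omega
              rw [h2, pow_zero]
          _ ≤ ∑ x, b ^ (dK x - t) :=
              Finset.sum_le_sum_of_subset_of_nonneg (Finset.subset_univ _) fun x _ _ => pow_nonneg hb0.le _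
      have hnb : nb G cl u ⊆ nbd G K 1 := by
        intro x hx
        unfold nb at hx
        have h1 := (Finset.mem_filter.mp (Finset.mem_of_mem_erase hx)).2
        rw [mem_nbd]
        rcases h1 with h1 | ⟨y, hxy, hy⟩
        · exact ⟨x, (hKmem x).mpr h1, by simp⟩
        · exact ⟨y, (hKmem y).mpr hy, (SimpleGraph.dist_eq_one_iff_adj.mpr hxy).le⟩
      have hcardN : (((nb G cl u).card : ℕ) : ℝ) ≤ X1 * Q u := by
        have h2 : ((nb G cl u).card : ℝ) ≤ ((nbd G K 1).card : ℝ) := by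
          exact_mod_cast Finset.card_le_card hnb
        exact h2.trans (hcard 1)
      have hmd := hmode V G ε hε0.le hε1.le hN hG u p0 R hR0 (nb G cl u) (Finset.notMem_erase _ _)
        (by
          by_cases h : p0 = u
          · exact Or.inl h
          · refine Or.inr ?_
            unfold nb
            rw [Finset.mem_erase, Finset.mem_filter]
            exact ⟨h, Finset.mem_univ _, Or.inl hp0⟩)
        E (nb G cl u).card hE2 le_rfl (fun s => Δ / b * (B1 * Q u + W0 ^ 2 * (bd u : ℝ)) * g ^ s)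
        (fun s => mul_nonneg (mul_nonneg (by positivity) (hKu0 u)) (pow_nonneg hg0 _))
        (by
          intro s A hA hAn hAs
          exact clusterG hlink harith b ε Y X1 (Q u) (fun j => Kf (2 ^ (j + 2))) β aa hb0 hb1 hbe Δ p hp hY hX10
            (fun j => hKf _) (hQ0 u) haX hβ hβ2 g hg4 hgb V G hG hΔ Jn r1 F hgrow u K huK
            (by
              intro x hx hxu
              have hx' := (hKmem x).mp hx
              obtain ⟨z, h1, h2, h3⟩ := hstar x (by rw [hx']; exact fun h => hxu h.symm)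
              rw [hx'] at h2 h3
              exact ⟨z, (hKmem z).mpr h2, h1, h3⟩)
            (by
              intro x hx
              have := hrad x
              rw [(hKmem x).mp hx] at this
              exact this)
            (fun j => hcard _) dK hdKle (fun j => hfar _) (hfar 1) (bd u) le_rfl (nb G cl u).card hcardN s A
            (hA.trans hnb) hAn hAs)
        T hT Cov hsub k S hS
      refine hmd.trans ?_
      rw [← Finset.mul_sum]
      have h2 := geo_le g hg0 hg1 ((nb G cl u).card + 1)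
      have hU0 : 0 ≤ Δ / b * (B1 * Q u + W0 ^ 2 * (bd u : ℝ)) := mul_nonneg (by positivity) (hKu0 u)
      have h3 : Δ / b * (B1 * Q u + W0 ^ 2 * (bd u : ℝ)) * ∑ s ∈ range ((nb G cl u).card + 1), g ^ s
          ≤ Δ / b * (B1 * Q u + W0 ^ 2 * (bd u : ℝ)) * (1 / (1 - g)) :=
        mul_le_mul_of_nonneg_left h2 hU0
      have h4 := mul_le_mul_of_nonneg_left h3 (show (0 : ℝ) ≤ E * R by positivity)
      have h5 : E * R * (Δ / b * (B1 * Q u + W0 ^ 2 * (bd u : ℝ)) * (1 / (1 - g)))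
          + 2 * R * (Δ / b * (B1 * Q u + W0 ^ 2 * (bd u : ℝ)) * g ^ 0)
          = CC0 * (B1 * Q u + W0 ^ 2 * (bd u : ℝ)) := by
        rw [hCC0]; ring
      linarith)
    v₀ k {v₀} (Finset.mem_singleton_self _)
  refine hdfs.trans ?_
  rw [← Finset.mul_sum, Finset.sum_add_distrib, ← Finset.mul_sum, ← Finset.mul_sum]
  have hS : ∑ u, Q u = ∑ x, ∑ u, rho x u := by
    simp only [hQ]
    rw [Finset.sum_comm]
  have hB : ∑ u, (bd u : ℝ) ≤ (Δ + 1) * ((univ \ F).card : ℝ) := by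
    have := sum_bad G hG Δ hΔ F cl
    have h2 : ((∑ u, bd u : ℕ) : ℝ) ≤ (((Δ + 1) * (univ \ F).card : ℕ) : ℝ) := by exact_mod_cast this
    push_cast at h2
    exact h2
  rw [hS]
  have hS0 : 0 ≤ ∑ x, ∑ u, rho x u := Finset.sum_nonneg fun x _ => Finset.sum_nonneg fun u _ => hrho0 x u
  have hF0 : (0 : ℝ) ≤ ((univ \ F).card : ℝ) := Nat.cast_nonneg _
  have h6 : W0 ^ 2 * ∑ u, (bd u : ℝ) ≤ W0 ^ 2 * ((Δ + 1) * ((univ \ F).card : ℝ)) :=
    mul_le_mul_of_nonneg_left hB (by positivity)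
  calc CC0 * (B1 * ∑ x, ∑ u, rho x u + W0 ^ 2 * ∑ u, (bd u : ℝ))
      ≤ CC0 * (B1 * ∑ x, ∑ u, rho x u + W0 ^ 2 * ((Δ + 1) * ((univ \ F).card : ℝ))) :=
        mul_le_mul_of_nonneg_left (by linarith) hCC00
    _ ≤ CC0 * ((B1 + (Δ + 1)) * (∑ x, ∑ u, rho x u + W0 ^ 2 * ((univ \ F).card : ℝ))) := by
        refine mul_le_mul_of_nonneg_left ?_ hCC00
        have e1 : 0 ≤ B1 * (W0 ^ 2 * ((univ \ F).card : ℝ)) := by positivity
        have e2 : 0 ≤ ((Δ : ℝ) + 1) * ∑ x, ∑ u, rho x u := by positivity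
        nlinarith
    _ = _ := by ring

end Pool.Agent.H576.CE
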