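import Mathlib
import Pool.Agent.H576.CE.GenGraph

/-! The two final theorems of the project CE. -/

set_option autoImplicit false
set_option linter.unusedSectionVars false

namespace Pool.Agent.H576.CE

open Finset Pool.Agent.TH112.BW Pool.Agent.H576.CT

theorem W0_le (Δ p q r1 Jn : ℕ) (hq : (8 * (Δ + 1) ^ p) ^ 2 ≤ 2 ^ q) :
    (4 ^ (Jn + 1) * (((r1 : ℝ) + 3) * 2 ^ Jn) * ((Δ : ℝ) + 1) ^ (p * (Jn + 1))) ^ 2
      ≤ (4 * ((r1 : ℝ) + 3) * ((Δ : ℝ) + 1) ^ p) ^ 2 * ((2 : ℝ) ^ Jn) ^ q := by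
  have hq' : ((8 : ℝ) * ((Δ : ℝ) + 1) ^ p) ^ 2 ≤ 2 ^ q := by exact_mod_cast hq
  have e1 : (4 ^ (Jn + 1) * (((r1 : ℝ) + 3) * 2 ^ Jn) * ((Δ : ℝ) + 1) ^ (p * (Jn + 1))) ^ 2
      = (4 * ((r1 : ℝ) + 3) * ((Δ : ℝ) + 1) ^ p) ^ 2 * (((8 : ℝ) * ((Δ : ℝ) + 1) ^ p) ^ 2) ^ Jn := by
    rw [pow_mul ((Δ : ℝ) + 1) p (Jn + 1)]
    generalize ((Δ : ℝ) + 1) ^ p = P
    have h8 : (((8 : ℝ) * P) ^ 2) ^ Jn = (4 ^ Jn * 2 ^ Jn * P ^ Jn) ^ 2 := by
      rw [← mul_pow, ← mul_pow, ← pow_mul, ← pow_mul, mul_comm 2 Jn]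
      norm_num
    rw [h8, pow_succ, pow_succ]
    ring
  rw [e1, ← pow_mul 2 Jn q, mul_comm Jn q, pow_mul 2 q Jn]
  exact mul_le_mul_of_nonneg_left (pow_le_pow_left₀ (by positivity) hq' Jn) (by positivity)

theorem exists_bpq (ε : ℝ) (hε0 : 0 < ε) (hε1 : ε < 1) (Δ : ℕ) :
    ∃ (b : ℝ) (p q : ℕ), 0 < b ∧ b < 1 ∧ b ^ 2 = 1 - ε ∧ b ^ p ≤ 1 / 8 ∧ (8 * (Δ + 1) ^ p) ^ 2 ≤ 2 ^ q := by
  obtain ⟨b, hb0, hb1, hbe⟩ : ∃ b : ℝ, 0 < b ∧ b < 1 ∧ b ^ 2 = 1 - ε := by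
    refine ⟨Real.sqrt (1 - ε), Real.sqrt_pos.mpr (by linarith), ?_, Real.sq_sqrt (by linarith)⟩
    rw [Real.sqrt_lt' one_pos, one_pow]
    linarith
  obtain ⟨p, hp⟩ := exists_pow_lt_of_lt_one (show (0 : ℝ) < 1 / 8 by norm_num) hb1
  exact ⟨b, p, (8 * (Δ + 1) ^ p) ^ 2, hb0, hb1, hbe, hp.le, Nat.lt_two_pow_self.le⟩

/-- exponential growth up to `δ log n` for all but few vertices -/
theorem finalE (hmode : S_MODE) (hlink : S_LINK3) (harith : S_ARITH3) (hshift : S_SHIFT) (hparam : S_PARAM) :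
    ∀ ε : ℝ, 0 < ε → ε < 1 → ∀ Δ : ℕ, ∃ q : ℕ, ∀ (κ δ c : ℝ), 0 < κ → 0 < δ → 0 < c → ∃ C : ℝ, 0 < C ∧
    ∀ (V : Type) [Fintype V] [DecidableEq V] (G : SimpleGraph V) [DecidableRel G.Adj],
      ∀ (hN : ∀ x, (G.neighborFinset x).Nonempty), G.Connected → (∀ v : V, G.degree v ≤ Δ) →
      ∀ B : Finset V, (B.card : ℝ) * Real.log (Fintype.card V) ^ q ≤ Fintype.card V →
      (∀ x ∉ B, ∀ r : ℕ, (r : ℝ) ≤ δ * Real.log (Fintype.card V) → c * Real.exp (κ * r) ≤ (ball G x r).card) →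
      ∀ v₀ k, J G ε hN (Dt v₀ Finset.univ) k v₀ {v₀} ≤ C * Fintype.card V := by
  classical
  intro ε hε0 hε1 Δ
  obtain ⟨b, p, q, hb0, hb1, hbe, hp, hq⟩ := exists_bpq ε hε0 hε1 Δ
  refine ⟨q, ?_⟩
  intro κ δ c hκ hδ hc
  obtain ⟨e, b0, Y, he, h00, h01, hY, hbb, hpar1, hpar2⟩ :=
    hparam b κ c (Δ + 1) p hb0 hb1 hκ hc (by omega)
  have hlog : 0 < Real.log (1 / b0) := Real.log_pos (by rw [lt_div_iff₀ h00]; linarith)
  set r1 : ℕ := ⌈8 / (δ * Real.log (1 / b0))⌉₊ with hr1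
  obtain ⟨CC, hCC, hmain⟩ := graphG hmode hlink harith ε b Y (fun d => b0 ^ (2 * d)) (fun t => (1 / b0) ^ (2 * t))
    (fun j => c * Real.exp (κ * ((2 ^ j / 4 : ℕ) : ℝ))) (fun j => p * j + (2 ^ j / e + 1)) hε0 hε1 hb0 hb1 hbe
    Δ p r1 hp hY (fun t => by positivity)
    (by
      intro t d
      have e1 : b ^ (d - t) ≤ (b0 ^ 2) ^ (d - t) := pow_le_pow_left₀ hb0.le hbb _
      have e2 : (b0 ^ 2) ^ (d - t) = (1 / b0) ^ (2 * t) * b0 ^ (2 * (d - t) + 2 * t) := by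
        rw [pow_add b0 (2 * (d - t)) (2 * t), mul_comm (b0 ^ (2 * (d - t))) _, ← mul_assoc, ← mul_pow, one_div,
          inv_mul_cancel₀ h00.ne', one_pow, one_mul, pow_mul]
      have e3 : b0 ^ (2 * (d - t) + 2 * t) ≤ b0 ^ (2 * d) :=
        pow_le_pow_of_le_one h00.le h01.le (by omega)
      rw [e2] at e1
      exact e1.trans (mul_le_mul_of_nonneg_left e3 (by positivity)))
    (by
      intro j
      have h1 := hpar1 j
      have e7 : 2 * 2 ^ (j + 2) = 2 ^ (j + 3) := by rw [pow_succ 2 (j + 2)]; ring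
      rw [e7, pow_add b (p * j)]
      have e8 : (8 : ℝ) ^ j * b ^ (p * j) ≤ 1 := by
        rw [pow_mul, ← mul_pow]
        refine pow_le_one₀ (by positivity) ?_
        linarith
      calc (8 : ℝ) ^ j * (b ^ (p * j) * b ^ (2 ^ j / e + 1)) * (1 / b0) ^ (2 ^ (j + 3))
          = ((8 : ℝ) ^ j * b ^ (p * j)) * (b ^ (2 ^ j / e + 1) * (1 / b0) ^ (2 ^ (j + 3))) := by ring
        _ ≤ 1 * 1 := mul_le_mul e8 h1 (by positivity) zero_le_one
        _ = 1 := one_mul 1)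
    (fun j => by positivity)
    (by
      intro j
      have h1 := hpar2 j
      refine le_trans (le_of_eq ?_) h1
      rw [mul_pow _ ((1 / b0) ^ (2 ^ (j + 2))) 2, ← pow_mul (1 / b0), mul_comm (2 ^ (j + 2)) 2])
  set W1 : ℝ := (4 * ((r1 : ℝ) + 3) * ((Δ : ℝ) + 1) ^ p) ^ 2 with hW1
  refine ⟨CC * (4 + W1 * (1 + δ ^ q)) + 1, by positivity, ?_⟩
  intro V _ _ G _ hN hG hΔ B hB hgr v₀ k
  obtain ⟨cl, rho, hcl, hstar, hrad, hrho0, hrho, hsum⟩ := hshift b0 h00 h01 V G hG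
  have hnpos : 0 < Fintype.card V := Fintype.card_pos_iff.mpr ⟨v₀⟩
  have hn1 : (1 : ℝ) ≤ (Fintype.card V : ℝ) := by exact_mod_cast hnpos
  have hlogn : 0 ≤ Real.log (Fintype.card V) := Real.log_nonneg hn1
  have hδl : 0 ≤ δ * Real.log (Fintype.card V) := mul_nonneg hδ.le hlogn
  set m1 : ℕ := max 1 ⌊δ * Real.log (Fintype.card V)⌋₊ with hm1
  have hm1p : m1 ≠ 0 := by
    have : 1 ≤ m1 := le_max_left _ _
    omega
  obtain ⟨Jn, hJ⟩ : ∃ Jn, Jn = Nat.log 2 m1 := ⟨_, rfl⟩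
  have hJ1 : 2 ^ Jn ≤ m1 := by rw [hJ]; exact Nat.pow_log_le_self 2 hm1p
  have hJ2 : m1 < 2 ^ (Jn + 1) := by rw [hJ]; exact Nat.lt_pow_succ_log_self (by norm_num) m1
  have hgrow : ∀ x ∈ univ \ B, ∀ j, j ≤ Jn →
      c * Real.exp (κ * ((2 ^ j / 4 : ℕ) : ℝ)) ≤ ((ball G x (2 ^ j / 4)).card : ℝ) := by
    intro x hx j hj
    refine hgr x (Finset.mem_sdiff.mp hx).2 (2 ^ j / 4) ?_
    have h1 : 2 ^ j ≤ 2 ^ Jn := Nat.pow_le_pow_right (by norm_num) hj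
    rcases Nat.eq_zero_or_pos ⌊δ * Real.log (Fintype.card V)⌋₊ with h0 | h0
    · have h2 : m1 = 1 := by rw [hm1, h0]; rfl
      have h4 : 2 ^ j ≤ 1 := h1.trans (hJ1.trans h2.le)
      have h3 : 2 ^ j / 4 = 0 := Nat.div_eq_of_lt (by omega)
      rw [h3]
      simpa using hδl
    · have h2 : m1 = ⌊δ * Real.log (Fintype.card V)⌋₊ := by rw [hm1]; omega
      have h3 : 2 ^ j / 4 ≤ ⌊δ * Real.log (Fintype.card V)⌋₊ := by omega
      exact (Nat.cast_le.mpr h3).trans (Nat.floor_le hδl)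
  have hradius : ∀ x, G.dist x (cl x) ≤ r1 * 2 ^ Jn := by
    intro x
    have h1 := Real.log_le_log one_pos (hrad x)
    rw [Real.log_one, Real.log_mul (by positivity) (by positivity), Real.log_pow, Real.log_pow] at h1
    have h2 : Real.log (1 / b0) = - Real.log b0 := by rw [one_div, Real.log_inv]
    have h3 : (G.dist x (cl x) : ℝ) * Real.log (1 / b0) ≤ 2 * Real.log (Fintype.card V) := by
      rw [h2]; push_cast at h1; linarith
    have h4 : δ * Real.log (Fintype.card V) < 2 ^ (Jn + 1) := by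
      have h5 := Nat.lt_floor_add_one (δ * Real.log (Fintype.card V))
      have h6 : ⌊δ * Real.log (Fintype.card V)⌋₊ + 1 ≤ 2 ^ (Jn + 1) := by
        have : ⌊δ * Real.log (Fintype.card V)⌋₊ ≤ m1 := le_max_right _ _
        omega
      have h7 : ((⌊δ * Real.log (Fintype.card V)⌋₊ : ℝ)) + 1 ≤ 2 ^ (Jn + 1) := by exact_mod_cast h6
      linarith
    have h5 : 8 / (δ * Real.log (1 / b0)) ≤ r1 := Nat.le_ceil _
    have h6 : 0 < δ * Real.log (1 / b0) := mul_pos hδ hlog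
    rw [div_le_iff₀ h6] at h5
    have h7 : (G.dist x (cl x) : ℝ) ≤ r1 * 2 ^ Jn := by
      have h8 : (G.dist x (cl x) : ℝ) * (δ * Real.log (1 / b0)) ≤ (r1 * 2 ^ Jn) * (δ * Real.log (1 / b0)) := by
        calc (G.dist x (cl x) : ℝ) * (δ * Real.log (1 / b0))
            = δ * ((G.dist x (cl x) : ℝ) * Real.log (1 / b0)) := by ring
          _ ≤ δ * (2 * Real.log (Fintype.card V)) := mul_le_mul_of_nonneg_left h3 hδ.le
          _ = 2 * (δ * Real.log (Fintype.card V)) := by ring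
          _ ≤ 2 * 2 ^ (Jn + 1) := by linarith
          _ ≤ 8 * 2 ^ Jn := by rw [pow_succ]; have : (0:ℝ) < 2 ^ Jn := by positivity
                               linarith
          _ ≤ (r1 * (δ * Real.log (1 / b0))) * 2 ^ Jn :=
              mul_le_mul_of_nonneg_right h5 (by positivity)
          _ = _ := by ring
      exact le_of_mul_le_mul_right h8 h6
    exact_mod_cast h7
  have hres := hmain V G hN hG hΔ Jn (univ \ B) hgrow cl rho hcl hstar hradius hrho0 hrho v₀ k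
  rw [Finset.sdiff_sdiff_eq_self (Finset.subset_univ B)] at hres
  refine hres.trans ?_
  have hW := W0_le Δ p q r1 Jn hq
  rw [← hW1] at hW
  have hB0 : (0 : ℝ) ≤ (B.card : ℝ) := Nat.cast_nonneg _
  have hBn : (B.card : ℝ) ≤ Fintype.card V := by exact_mod_cast Finset.card_le_univ B
  have h2J : ((2 : ℝ) ^ Jn) ^ q * (B.card : ℝ) ≤ (1 + δ ^ q) * Fintype.card V := by
    rcases Nat.eq_zero_or_pos ⌊δ * Real.log (Fintype.card V)⌋₊ with h0 | h0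
    · have h2 : m1 = 1 := by rw [hm1, h0]; rfl
      have h4 : (2 : ℝ) ^ Jn ≤ 1 := by exact_mod_cast hJ1.trans h2.le
      have h5 : ((2 : ℝ) ^ Jn) ^ q ≤ 1 := pow_le_one₀ (by positivity) h4
      calc ((2 : ℝ) ^ Jn) ^ q * (B.card : ℝ) ≤ 1 * Fintype.card V := mul_le_mul h5 hBn hB0 zero_le_one
        _ ≤ _ := mul_le_mul_of_nonneg_right (by have : 0 ≤ δ ^ q := by positivity
                                                linarith) (by positivity)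
    · have h2 : m1 = ⌊δ * Real.log (Fintype.card V)⌋₊ := by rw [hm1]; omega
      have h4 : (2 : ℝ) ^ Jn ≤ δ * Real.log (Fintype.card V) := by
        have h5 : (2 : ℝ) ^ Jn ≤ m1 := by exact_mod_cast hJ1
        rw [h2] at h5
        exact h5.trans (Nat.floor_le hδl)
      have h5 : ((2 : ℝ) ^ Jn) ^ q ≤ (δ * Real.log (Fintype.card V)) ^ q := pow_le_pow_left₀ (by positivity) h4 q
      calc ((2 : ℝ) ^ Jn) ^ q * (B.card : ℝ) ≤ (δ * Real.log (Fintype.card V)) ^ q * (B.card : ℝ) :=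
            mul_le_mul_of_nonneg_right h5 hB0
        _ = δ ^ q * ((B.card : ℝ) * Real.log (Fintype.card V) ^ q) := by rw [mul_pow]; ring
        _ ≤ δ ^ q * Fintype.card V := mul_le_mul_of_nonneg_left hB (by positivity)
        _ ≤ _ := mul_le_mul_of_nonneg_right (by linarith) (by positivity)
  have h3 : (0 : ℝ) ≤ Fintype.card V := Nat.cast_nonneg _
  have hW10 : 0 ≤ W1 := by positivity
  have h8 : (4 ^ (Jn + 1) * (((r1 : ℝ) + 3) * 2 ^ Jn) * ((Δ : ℝ) + 1) ^ (p * (Jn + 1))) ^ 2 * (B.card : ℝ)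
      ≤ W1 * ((1 + δ ^ q) * Fintype.card V) := by
    calc _ ≤ (W1 * ((2 : ℝ) ^ Jn) ^ q) * (B.card : ℝ) := mul_le_mul_of_nonneg_right hW hB0
      _ = W1 * (((2 : ℝ) ^ Jn) ^ q * (B.card : ℝ)) := by ring
      _ ≤ _ := mul_le_mul_of_nonneg_left h2J hW10
  have h9 := mul_le_mul_of_nonneg_left (add_le_add hsum h8) hCC
  linarith

end Pool.Agent.H576.CE
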