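import Mathlib
import Pool.Agent.H576.CE.FinalG

/-! Polynomial growth of large degree up to the scale `n ^ δ` (project CE). -/

set_option autoImplicit false
set_option linter.unusedSectionVars false

namespace Pool.Agent.H576.CE

open Finset Pool.Agent.TH112.BW Pool.Agent.H576.CT

theorem finalP (hmode : S_MODE) (hlink : S_LINK3) (harith : S_ARITH3) (hshift : S_SHIFTP) (hparam : S_PARAMP) :
    ∀ ε : ℝ, 0 < ε → ε < 1 → ∀ Δ : ℕ, ∃ q : ℕ, ∀ δ : ℝ, 0 < δ → ∃ D : ℕ, ∀ c : ℝ, 0 < c → ∃ C : ℝ, 0 < C ∧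
    ∀ (V : Type) [Fintype V] [DecidableEq V] (G : SimpleGraph V) [DecidableRel G.Adj],
      ∀ (hN : ∀ x, (G.neighborFinset x).Nonempty), G.Connected → (∀ v : V, G.degree v ≤ Δ) →
      ∀ B : Finset V, (B.card : ℝ) ≤ (Fintype.card V : ℝ) ^ (1 - q * δ) →
      (∀ x ∉ B, ∀ r : ℕ, (r : ℝ) ≤ (Fintype.card V : ℝ) ^ δ → c * (r : ℝ) ^ D ≤ (ball G x r).card) →
      ∀ v₀ k, J G ε hN (Dt v₀ Finset.univ) k v₀ {v₀} ≤ C * Fintype.card V := by
  classical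
  intro ε hε0 hε1 Δ
  obtain ⟨b, p, q, hb0, hb1, hbe, hp, hq⟩ := exists_bpq ε hε0 hε1 Δ
  refine ⟨q, ?_⟩
  intro δ hδ
  set a : ℕ := ⌈1 / δ⌉₊ with ha
  have ha1 : 1 ≤ a := Nat.one_le_iff_ne_zero.mpr (Nat.ceil_pos.mpr (by positivity)).ne'
  have haδ : 1 / (a : ℝ) ≤ δ := by
    have h1 : 1 / δ ≤ a := Nat.le_ceil _
    have ha0 : (0 : ℝ) < a := by exact_mod_cast ha1
    rw [div_le_iff₀ hδ] at h1
    rw [div_le_iff₀ ha0]
    linarith
  obtain ⟨D, aa, Cb, hCb1, hCb, hpar1, hpar⟩ := hparam b (Δ + 1) a hb0 hb1 (by omega)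
  refine ⟨D, ?_⟩
  intro c hc
  obtain ⟨Y, hY, hpar2⟩ := hpar c hc
  have hcm : 0 < min c 1 := lt_min hc one_pos
  obtain ⟨CC, hCC, hmain⟩ := graphG hmode hlink harith ε b Y (fun d => 1 / (1 + 2 * (d : ℝ)) ^ (a + 2))
    (fun t => Cb * (1 + 2 * (t : ℝ)) ^ (a + 2))
    (fun j => min c 1 * ((2 : ℝ) ^ j / 4) ^ D) aa hε0 hε1 hb0 hb1 hbe
    Δ p 2 hp hY (fun t => by positivity)
    (by
      intro t d
      have h1 := hCb (d - t)
      have h2 : (1 + 2 * (d : ℝ)) ≤ (1 + 2 * (t : ℝ)) * (1 + 2 * ((d - t : ℕ) : ℝ)) := by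
        have h3 : (d : ℝ) ≤ t + ((d - t : ℕ) : ℝ) := by
          have : d ≤ t + (d - t) := by omega
          exact_mod_cast this
        have h4 : 0 ≤ (t : ℝ) * ((d - t : ℕ) : ℝ) := by positivity
        nlinarith
      have h5 : (1 + 2 * (d : ℝ)) ^ (a + 2) ≤ (1 + 2 * (t : ℝ)) ^ (a + 2) * (1 + 2 * ((d - t : ℕ) : ℝ)) ^ (a + 2) := by
        rw [← mul_pow]
        exact pow_le_pow_left₀ (by positivity) h2 _
      have h6 : (0 : ℝ) < (1 + 2 * (d : ℝ)) ^ (a + 2) := by positivity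
      rw [mul_one_div, le_div_iff₀ h6]
      calc b ^ (d - t) * (1 + 2 * (d : ℝ)) ^ (a + 2)
          ≤ b ^ (d - t) * ((1 + 2 * (t : ℝ)) ^ (a + 2) * (1 + 2 * ((d - t : ℕ) : ℝ)) ^ (a + 2)) :=
            mul_le_mul_of_nonneg_left h5 (by positivity)
        _ = (b ^ (d - t) * (1 + 2 * ((d - t : ℕ) : ℝ)) ^ (a + 2)) * (1 + 2 * (t : ℝ)) ^ (a + 2) := by ring
        _ ≤ Cb * (1 + 2 * (t : ℝ)) ^ (a + 2) := mul_le_mul_of_nonneg_right h1 (by positivity))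
    (by
      intro j
      have h1 := hpar1 j
      have h2 : (((2 ^ (j + 2) : ℕ)) : ℝ) = (2 : ℝ) ^ (j + 2) := by push_cast; rfl
      simp only [h2]
      exact h1)
    (fun j => by positivity)
    (by
      intro j
      have h1 := hpar2 j
      have h2 : (((2 ^ (j + 2) : ℕ)) : ℝ) = (2 : ℝ) ^ (j + 2) := by push_cast; rfl
      simp only [h2]
      exact h1)
  set W1 : ℝ := (4 * (((2 : ℕ) : ℝ) + 3) * ((Δ : ℝ) + 1) ^ p) ^ 2 with hW1
  refine ⟨CC * (3 * 2 ^ (a + 2) + W1) + 1, by positivity, ?_⟩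
  intro V _ _ G _ hN hG hΔ B hB hgr v₀ k
  obtain ⟨cl, rho, hcl, hstar, hrad, hrho0, hrho, hsum⟩ := hshift a ha1 V G hG
  have hnpos : 0 < Fintype.card V := Fintype.card_pos_iff.mpr ⟨v₀⟩
  have hn1 : (1 : ℝ) ≤ (Fintype.card V : ℝ) := by exact_mod_cast hnpos
  have hn0 : (0 : ℝ) < (Fintype.card V : ℝ) := by linarith
  have hnδ : 1 ≤ (Fintype.card V : ℝ) ^ δ := Real.one_le_rpow hn1 hδ.le
  set m1 : ℕ := ⌊(Fintype.card V : ℝ) ^ δ⌋₊ with hm1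
  have hm1p : 1 ≤ m1 := by
    rw [hm1, Nat.one_le_floor_iff]
    exact hnδ
  have hm1le : (m1 : ℝ) ≤ (Fintype.card V : ℝ) ^ δ := Nat.floor_le (by linarith)
  obtain ⟨Jn, hJ⟩ : ∃ Jn, Jn = Nat.log 2 m1 := ⟨_, rfl⟩
  have hJ1 : 2 ^ Jn ≤ m1 := by rw [hJ]; exact Nat.pow_log_le_self 2 (by omega)
  have hJ2 : m1 < 2 ^ (Jn + 1) := by rw [hJ]; exact Nat.lt_pow_succ_log_self (by norm_num) m1
  have h2Jn : (2 : ℝ) ^ Jn ≤ (Fintype.card V : ℝ) ^ δ := by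
    have : (2 : ℝ) ^ Jn ≤ m1 := by exact_mod_cast hJ1
    exact this.trans hm1le
  have hgrow : ∀ x ∈ univ \ B, ∀ j, j ≤ Jn →
      min c 1 * ((2 : ℝ) ^ j / 4) ^ D ≤ ((ball G x (2 ^ j / 4)).card : ℝ) := by
    intro x hx j hj
    have h1 : 2 ^ j ≤ 2 ^ Jn := Nat.pow_le_pow_right (by norm_num) hj
    have hball1 : (1 : ℝ) ≤ ((ball G x (2 ^ j / 4)).card : ℝ) := by
      have : 0 < (ball G x (2 ^ j / 4)).card := Finset.card_pos.mpr ⟨x, by rw [mem_ball]; simp⟩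
      exact_mod_cast this
    rcases Nat.lt_or_ge j 2 with hj2 | hj2
    · refine le_trans ?_ hball1
      have h2 : (2 : ℝ) ^ j / 4 ≤ 1 := by
        have h3 : (2 : ℝ) ^ j ≤ 2 ^ 1 := pow_le_pow_right₀ (by norm_num) (by omega)
        linarith
      have h4 : ((2 : ℝ) ^ j / 4) ^ D ≤ 1 := pow_le_one₀ (by positivity) h2
      calc min c 1 * ((2 : ℝ) ^ j / 4) ^ D ≤ 1 * 1 := mul_le_mul (min_le_right _ _) h4 (by positivity) zero_le_one
        _ = 1 := one_mul 1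
    · obtain ⟨i, rfl⟩ : ∃ i, j = i + 2 := ⟨j - 2, by omega⟩
      have h2 : 2 ^ (i + 2) / 4 = 2 ^ i := by
        rw [pow_add]
        omega
      have h3 : (2 : ℝ) ^ (i + 2) / 4 = ((2 ^ i : ℕ) : ℝ) := by
        rw [pow_add]; push_cast; ring
      rw [h2, h3]
      have h4 : (((2 ^ i : ℕ)) : ℝ) ≤ (Fintype.card V : ℝ) ^ δ := by
        refine le_trans ?_ h2Jn
        push_cast
        exact pow_le_pow_right₀ (by norm_num) (by omega)
      have h5 := hgr x (Finset.mem_sdiff.mp hx).2 (2 ^ i) h4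
      refine le_trans ?_ h5
      exact mul_le_mul_of_nonneg_right (min_le_left _ _) (by positivity)
  have hradius : ∀ x, G.dist x (cl x) ≤ 2 * 2 ^ Jn := by
    intro x
    have h1 : ((G.dist x (cl x) : ℝ)) ^ a ≤ Fintype.card V := by exact_mod_cast hrad x
    have ha0 : (a : ℝ) ≠ 0 := by
      have : a ≠ 0 := by omega
      exact_mod_cast this
    have h2 : (G.dist x (cl x) : ℝ) ≤ (Fintype.card V : ℝ) ^ (1 / (a : ℝ)) := by
      have h3 := Real.rpow_le_rpow (by positivity) h1 (show (0 : ℝ) ≤ 1 / a by positivity)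
      rw [← Real.rpow_natCast, ← Real.rpow_mul (Nat.cast_nonneg _), mul_one_div_cancel ha0, Real.rpow_one] at h3
      exact h3
    have h3 : (G.dist x (cl x) : ℝ) ≤ (Fintype.card V : ℝ) ^ δ :=
      h2.trans (Real.rpow_le_rpow_of_exponent_le hn1 haδ)
    have h4 : G.dist x (cl x) ≤ m1 := Nat.le_floor h3
    have h5 : 2 ^ (Jn + 1) = 2 * 2 ^ Jn := by rw [pow_succ]; ring
    omega
  have hres := hmain V G hN hG hΔ Jn (univ \ B) hgrow cl rho hcl hstar hradius hrho0 hrho v₀ k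
  rw [Finset.sdiff_sdiff_eq_self (Finset.subset_univ B)] at hres
  refine hres.trans ?_
  have hW := W0_le Δ p q 2 Jn hq
  rw [← hW1] at hW
  have hB0 : (0 : ℝ) ≤ (B.card : ℝ) := Nat.cast_nonneg _
  have h2J : ((2 : ℝ) ^ Jn) ^ q * (B.card : ℝ) ≤ Fintype.card V := by
    have h5 : ((2 : ℝ) ^ Jn) ^ q ≤ ((Fintype.card V : ℝ) ^ δ) ^ q := pow_le_pow_left₀ (by positivity) h2Jn q
    have h6 : ((Fintype.card V : ℝ) ^ δ) ^ q = (Fintype.card V : ℝ) ^ ((q : ℝ) * δ) := by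
      rw [← Real.rpow_natCast, ← Real.rpow_mul hn0.le, mul_comm]
    calc ((2 : ℝ) ^ Jn) ^ q * (B.card : ℝ)
        ≤ (Fintype.card V : ℝ) ^ ((q : ℝ) * δ) * (Fintype.card V : ℝ) ^ (1 - (q : ℝ) * δ) := by
          rw [← h6]
          exact mul_le_mul h5 hB hB0 (by positivity)
      _ = Fintype.card V := by
          rw [← Real.rpow_add hn0]
          have : (q : ℝ) * δ + (1 - q * δ) = 1 := by ring
          rw [this, Real.rpow_one]
  have h3 : (0 : ℝ) ≤ Fintype.card V := Nat.cast_nonneg _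
  have hW10 : 0 ≤ W1 := by positivity
  have h8 : (4 ^ (Jn + 1) * ((((2 : ℕ) : ℝ) + 3) * 2 ^ Jn) * ((Δ : ℝ) + 1) ^ (p * (Jn + 1))) ^ 2 * (B.card : ℝ)
      ≤ W1 * Fintype.card V := by
    calc _ ≤ (W1 * ((2 : ℝ) ^ Jn) ^ q) * (B.card : ℝ) := mul_le_mul_of_nonneg_right hW hB0
      _ = W1 * (((2 : ℝ) ^ Jn) ^ q * (B.card : ℝ)) := by ring
      _ ≤ _ := mul_le_mul_of_nonneg_left h2J hW10
  have h9 := mul_le_mul_of_nonneg_left (add_le_add hsum h8) hCC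
  linarith

end Pool.Agent.H576.CE
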