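import Mathlib
import Pool.Agent.H576.CE.GenGraph

/-! The networks of a cluster, with holdable vertices (project CE, unified version). -/

set_option autoImplicit false
set_option linter.unusedSectionVars false

namespace Pool.Agent.H576.CE

open Finset Pool.Agent.TH112.BW Pool.Agent.H576.CT

/-- the networks of a cluster -/
theorem clusterG2 (hlink : S_LINK3) (harith : S_ARITH3)
    (b ε Y X1 Q : ℝ) (X β : ℕ → ℝ) (aa : ℕ → ℕ) (hb0 : 0 < b) (hb1 : b < 1) (hbe : b ^ 2 = 1 - ε)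
    (Δ p : ℕ) (hp : b ^ p ≤ 1 / 8) (hY : 0 ≤ Y) (hX1 : 0 ≤ X1) (hX : ∀ j, 0 ≤ X j) (hQ0 : 0 ≤ Q)
    (haX : ∀ j, (8 : ℝ) ^ j * b ^ aa j * X j ≤ 1) (hβ : ∀ j, 0 < β j)
    (hβ2 : ∀ j, ((16 : ℝ) ^ j * ((Δ + 1 : ℕ) : ℝ) ^ aa j) ^ 2 * X j ≤ Y ^ 2 * β j)
    (g : ℝ) (hg4 : 1 / 4 ≤ g) (hgb : b ≤ g)
    (V : Type) [Fintype V] [DecidableEq V] (G : SimpleGraph V) [DecidableRel G.Adj]
    (hG : G.Connected) (hΔ : ∀ v, G.degree v ≤ Δ) (J r1 : ℕ) (F : Finset V)
    (hgrow : ∀ x ∈ F, ∀ j, j ≤ J → β j ≤ ((ball G x (2 ^ j / 4)).card : ℝ))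
    (u : V) (K : Finset V) (huK : u ∈ K)
    (hstar : ∀ x ∈ K, x ≠ u → ∃ z ∈ K, G.Adj x z ∧ G.dist z u + 1 = G.dist x u)
    (hrad : ∀ x ∈ K, G.dist x u ≤ r1 * 2 ^ J)
    (hcard : ∀ j, ((nbd G K (2 ^ (j + 2))).card : ℝ) ≤ X j * Q)
    (dK : V → ℕ) (hdK : ∀ x, ∀ y ∈ K, dK x ≤ G.dist x y)
    (hfar : ∀ j, ∑ x, b ^ (dK x - 2 ^ (j + 2)) ≤ X j * Q)
    (hfar1 : ∑ x, b ^ (dK x - 1) ≤ X1 * Q)
    (bd : ℕ)
    (N0 : ℕ) (hN0 : (N0 : ℝ) ≤ X1 * Q)
    (s : ℕ) (A : Finset V) (hA : A ⊆ nbd G K 1) (hAn : A.Nonempty) (hbd : (A \ F).card ≤ bd)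
    (hAs : A.card * (16 * (Δ + 1) ^ 4) ^ s ≤ N0) :
    ∃ w : V → ℝ, (∀ x, 0 < w x) ∧ (∀ x y, G.Adj x y → b * w x ≤ w y) ∧ (∀ v ∈ A, Res G w v u (r1 + 10)) ∧
      ∑ x, w x ^ 2 ≤ ((2 * (r1 + 6) * Real.sqrt X1 * Y + 2 + 2 * X1) * Q +
        (4 ^ (J + 1) * ((r1 + 3) * 2 ^ J) * ((Δ : ℝ) + 1) ^ (p * (J + 1))) ^ 2 * bd) * g ^ s := by
  classical
  have hg0 : 0 ≤ g := by linarith
  obtain ⟨L, hLne, hL, hLJ1, hLJ2, hf⟩ := hlink V G hG u K F huK hstar J r1 hrad A hA hAn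
  obtain ⟨w, hw0, hwr, hwL, hsum⟩ := ce_weight3 V G hG Δ hΔ b hb0 hb1 (J + 1) L hLne
  refine ⟨w, hw0, hwr, ?_, ?_⟩
  · intro v hv f I hI hfl
    refine hf f I hI ?_ v hv
    intro j hj x hx y hy hxy
    have h4 : (0 : ℝ) < 4 ^ j := by positivity
    rcases le_or_gt (f x - f y) 0 with hneg | hpos
    · exact hneg.trans (div_nonneg hI h4.le)
    · rw [le_div_iff₀ h4]
      have h1 := hwL j hj x hx
      have h2 := hwL j hj y hy
      have h3 : (4 : ℝ) ^ j ≤ w x * w y := by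
        calc (4 : ℝ) ^ j = 2 ^ j * 2 ^ j := by rw [← mul_pow]; norm_num
          _ ≤ w x * w y := mul_le_mul h1 h2 (by positivity) (hw0 x).le
      have h5 := hfl x y hxy
      calc (f x - f y) * 4 ^ j = 4 ^ j * (f x - f y) := by ring
        _ ≤ w x * w y * (f x - f y) := mul_le_mul_of_nonneg_right h3 hpos.le
        _ ≤ I := h5
  · set D : ℕ → V → ℕ := fun j x => if j ≤ J then dK x - 2 ^ (j + 2) else dK x - 1 with hD
    set ii : ℕ → ℕ := fun j => if j ≤ J then aa j + s else p * (J + 1) + s with hii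
    have h2 := hsum ii D (by
      intro j hj z hz x
      simp only [hD]
      split_ifs with hjJ
      · obtain ⟨y, hy, hzy⟩ := (mem_nbd G K _ z).mp ((hL j hjJ).1 hz)
        have h3 := hdK x y hy
        have h4 := hG.dist_triangle (u := x) (v := z) (w := y)
        omega
      · have hj' : j = J + 1 := by omega
        rw [hj'] at hz
        obtain ⟨y, hy, hzy⟩ := (mem_nbd G K _ z).mp (hLJ1 hz)
        have h3 := hdK x y hy
        have h4 := hG.dist_triangle (u := x) (v := z) (w := y)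
        omega)
    rw [Finset.sum_range_succ] at h2
    have hm : ∀ j, ∃ m : ℕ, j ≤ J → (L j).card ≤ (r1 + 6) * 2 ^ j * m ∧ m ≤ A.card ∧
          ∀ q : ℕ, (∀ x ∈ F, q ≤ (ball G x (2 ^ j / 4)).card) → m * q ≤ (nbd G K (2 ^ (j + 2))).card := by
      intro j
      by_cases hj : j ≤ J
      · obtain ⟨m, hm⟩ := (hL j hj).2
        exact ⟨m, fun _ => hm⟩
      · exact ⟨0, fun h => absurd h hj⟩
    choose m hm using hm
    have h3 := harith b g X1 Y Q (r1 + 6) (Δ + 1) s J N0 m (fun j => (L j).card) aa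
      β (fun j => ∑ x, b ^ (dK x - 2 ^ (j + 2))) X
      hb0 hb1 hg4 hgb hX1 hY hQ0 (by positivity) (by omega) hN0 hX haX (by
        intro j hj
        obtain ⟨e1, e2, e3⟩ := hm j hj
        refine ⟨hβ j, hβ2 j, ?_, (Nat.mul_le_mul_right _ e2).trans hAs, ?_, ?_, hfar j⟩
        · have e1' : ((L j).card : ℝ) ≤ (((r1 + 6) * 2 ^ j * m j : ℕ) : ℝ) := by exact_mod_cast e1
          push_cast at e1'
          exact e1'
        · have e4 := e3 ⌈β j⌉₊ (fun x hx => Nat.ceil_le.mpr (hgrow x hx j hj))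
          have e5 : ((m j : ℝ)) * (⌈β j⌉₊ : ℝ) ≤ ((nbd G K (2 ^ (j + 2))).card : ℝ) := by exact_mod_cast e4
          exact ((mul_le_mul_of_nonneg_left (Nat.le_ceil _) (Nat.cast_nonneg _)).trans e5).trans (hcard j)
        · exact Finset.sum_nonneg fun x _ => pow_nonneg hb0.le _)
    have h4 : ∑ j ∈ range (J + 1), (4 : ℝ) ^ j * ((L j).card * ((Δ : ℝ) + 1) ^ ii j + b ^ ii j * ∑ x, b ^ D j x)
        ≤ (2 * (r1 + 6) * Real.sqrt X1 * Y + 2) * Q * g ^ s := by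
      refine le_trans (le_of_eq ?_) h3
      refine Finset.sum_congr rfl fun j hj => ?_
      have hj' : j ≤ J := Nat.lt_succ_iff.mp (Finset.mem_range.mp hj)
      simp only [hD, hii, if_pos hj']
      push_cast
      rfl
    -- the extra level
    have hgs : (1 / 4 : ℝ) ^ s ≤ g ^ s := pow_le_pow_left₀ (by norm_num) hg4 s
    have hbs : b ^ s ≤ g ^ s := pow_le_pow_left₀ hb0.le hgb s
    set W0 : ℝ := 4 ^ (J + 1) * ((r1 + 3) * 2 ^ J) * ((Δ : ℝ) + 1) ^ (p * (J + 1)) with hW0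
    have hW00 : 0 ≤ W0 := by positivity
    have hAF : ((A \ F).card : ℝ) ≤ bd := by exact_mod_cast hbd
    have hAA : ((A \ F).card : ℝ) ≤ A.card := by
      exact_mod_cast Finset.card_le_card Finset.sdiff_subset
    have hAs' : (A.card : ℝ) * (16 * ((Δ : ℝ) + 1) ^ 4) ^ s ≤ N0 := by exact_mod_cast hAs
    have h5 := sq_aux W0 (A \ F).card ((Δ : ℝ) + 1) (X1 * Q) bd A.card N0 s hW00 (Nat.cast_nonneg _)
      (by have : (0 : ℝ) ≤ Δ := Nat.cast_nonneg _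
          linarith) (mul_nonneg hX1 hQ0) (Nat.cast_nonneg _) hAA hAF hAs' hN0
    have hLJ2' : ((L (J + 1)).card : ℝ) ≤ (r1 + 3) * 2 ^ J * (A \ F).card := by exact_mod_cast hLJ2
    have h6 : (4 : ℝ) ^ (J + 1) * ((L (J + 1)).card * ((Δ : ℝ) + 1) ^ ii (J + 1) + b ^ ii (J + 1) * ∑ x, b ^ D (J + 1) x)
        ≤ (2 * (X1 * Q) + W0 ^ 2 * bd) * g ^ s := by
      have hn : ¬ (J + 1 ≤ J) := by omega
      simp only [hD, hii, if_neg hn]
      have e1 : (4 : ℝ) ^ (J + 1) * ((L (J + 1)).card * ((Δ : ℝ) + 1) ^ (p * (J + 1) + s))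
          ≤ (X1 * Q + W0 ^ 2 * bd) * g ^ s := by
        calc (4 : ℝ) ^ (J + 1) * ((L (J + 1)).card * ((Δ : ℝ) + 1) ^ (p * (J + 1) + s))
            ≤ (4 : ℝ) ^ (J + 1) * (((r1 + 3) * 2 ^ J * (A \ F).card) * ((Δ : ℝ) + 1) ^ (p * (J + 1) + s)) := by
              refine mul_le_mul_of_nonneg_left ?_ (by positivity)
              exact mul_le_mul_of_nonneg_right hLJ2' (by positivity)
          _ = W0 * (A \ F).card * ((Δ : ℝ) + 1) ^ s := by rw [hW0, pow_add]; ring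
          _ ≤ (1 / 4) ^ s * (X1 * Q + W0 ^ 2 * bd) := h5
          _ ≤ g ^ s * (X1 * Q + W0 ^ 2 * bd) := by
              refine mul_le_mul_of_nonneg_right hgs ?_
              have := mul_nonneg hX1 hQ0
              positivity
          _ = _ := by ring
      have e2 : (4 : ℝ) ^ (J + 1) * (b ^ (p * (J + 1) + s) * ∑ x, b ^ (dK x - 1)) ≤ (X1 * Q) * g ^ s := by
        have e3 : (4 : ℝ) ^ (J + 1) * b ^ (p * (J + 1)) ≤ 1 := by
          rw [pow_mul, ← mul_pow]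
          refine pow_le_one₀ (by positivity) ?_
          have : (0 : ℝ) ≤ b ^ p := by positivity
          linarith
        calc (4 : ℝ) ^ (J + 1) * (b ^ (p * (J + 1) + s) * ∑ x, b ^ (dK x - 1))
            = (4 ^ (J + 1) * b ^ (p * (J + 1))) * (b ^ s * ∑ x, b ^ (dK x - 1)) := by rw [pow_add]; ring
          _ ≤ 1 * (b ^ s * ∑ x, b ^ (dK x - 1)) := by
              refine mul_le_mul_of_nonneg_right e3 ?_
              have : 0 ≤ ∑ x, b ^ (dK x - 1) := Finset.sum_nonneg fun x _ => pow_nonneg hb0.le _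
              positivity
          _ ≤ 1 * (g ^ s * (X1 * Q)) := by
              refine mul_le_mul_of_nonneg_left ?_ zero_le_one
              exact mul_le_mul hbs hfar1 (Finset.sum_nonneg fun x _ => pow_nonneg hb0.le _) (pow_nonneg hg0 _)
          _ = _ := by ring
      calc (4 : ℝ) ^ (J + 1) * ((L (J + 1)).card * ((Δ : ℝ) + 1) ^ (p * (J + 1) + s)
            + b ^ (p * (J + 1) + s) * ∑ x, b ^ (dK x - 1))
          = (4 : ℝ) ^ (J + 1) * ((L (J + 1)).card * ((Δ : ℝ) + 1) ^ (p * (J + 1) + s))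
            + (4 : ℝ) ^ (J + 1) * (b ^ (p * (J + 1) + s) * ∑ x, b ^ (dK x - 1)) := by ring
        _ ≤ (X1 * Q + W0 ^ 2 * bd) * g ^ s + (X1 * Q) * g ^ s := add_le_add e1 e2
        _ = _ := by ring
    have h7 : ∑ x, w x ^ 2 ≤ ((2 * (r1 + 6) * Real.sqrt X1 * Y + 2 + 2 * X1) * Q + W0 ^ 2 * bd) * g ^ s := by
      refine h2.trans ((add_le_add h4 h6).trans (le_of_eq ?_))
      ring
    exact h7

theorem adm_of_ratio {V : Type} [Fintype V] [DecidableEq V] (G : SimpleGraph V) [DecidableRel G.Adj]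
    (b ε : ℝ) (hb0 : 0 < b) (hbe : b ^ 2 = 1 - ε) (w : V → ℝ) (hw0 : ∀ x, 0 < w x)
    (hwr : ∀ x y, G.Adj x y → b * w x ≤ w y) : Adm G ε w := by
  refine ⟨hw0, ?_⟩
  intro x y z hxy hxz
  have h1 := hwr z x hxz.symm
  have h2 := hwr x y hxy
  rw [← hbe]
  calc b ^ 2 * w z = b * (b * w z) := by ring
    _ ≤ b * w x := mul_le_mul_of_nonneg_left h1 hb0.le
    _ ≤ w y := h2

theorem res_mono {V : Type} [Fintype V] [DecidableEq V] (G : SimpleGraph V) [DecidableRel G.Adj]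
    (w w' : V → ℝ) (hw0 : ∀ x, 0 < w x) (hww : ∀ x, w x ≤ w' x) (v u : V) (R R' : ℝ) (hR : R ≤ R')
    (h : Res G w v u R) : Res G w' v u R' := by
  intro f I hI hfl
  have h1 : FlowLe G w f I := by
    intro x y hxy
    rcases le_or_gt (f x - f y) 0 with hneg | hpos
    · have : 0 < w x * w y := mul_pos (hw0 x) (hw0 y)
      have := mul_nonpos_of_nonneg_of_nonpos this.le hneg
      linarith
    · have h2 : w x * w y ≤ w' x * w' y := mul_le_mul (hww x) (hww y) (hw0 y).le ((hw0 x).le.trans (hww x))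
      exact (mul_le_mul_of_nonneg_right h2 hpos.le).trans (hfl x y hxy)
  have h2 := h f I hI h1
  have h3 : R * I ≤ R' * I := mul_le_mul_of_nonneg_right hR hI
  constructor <;> linarith [h2.1, h2.2]

/-- the single target network -/
theorem single {V : Type} [Fintype V] [DecidableEq V] (G : SimpleGraph V) [DecidableRel G.Adj]
    (hG : G.Connected) (b : ℝ) (hb0 : 0 < b) (hb1 : b < 1) (u : V) :
    (∀ x, 0 < b ^ G.dist x u) ∧ (∀ x y, G.Adj x y → b * b ^ G.dist x u ≤ b ^ G.dist y u) ∧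
      ∀ w' : V → ℝ, (∀ x, b ^ G.dist x u ≤ w' x) → ∀ v, G.Adj u v → ∀ R', 1 / b ≤ R' → Res G w' v u R' := by
  refine ⟨fun x => by positivity, ?_, ?_⟩
  · intro x y hxy
    rw [← pow_succ']
    exact pow_le_pow_of_le_one hb0.le hb1.le (adj_dist_le hG x y u hxy)
  · intro w' hw' v huv R' hR'
    refine res_mono G (fun x => b ^ G.dist x u) w' (fun x => by positivity) hw' v u (1 / b) R' hR' ?_
    intro f I hI hfl
    have h1 := hfl u v huv
    have h2 := hfl v u huv.symm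
    have e1 : b ^ G.dist u u = 1 := by simp
    have e2 : b ^ G.dist v u = b := by
      rw [SimpleGraph.dist_eq_one_iff_adj.mpr huv.symm, pow_one]
    beta_reduce at h1 h2
    rw [e1, e2] at h1 h2
    rw [one_div, ← div_eq_inv_mul]
    constructor
    · rw [le_div_iff₀ hb0]; linarith
    · rw [le_div_iff₀ hb0]; linarith

/-- the networks of a cluster, with direct links for the neighbours of the centre -/
theorem clusterU (hlink : S_LINK3) (harith : S_ARITH3)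
    (b ε Y X1 Q : ℝ) (X β : ℕ → ℝ) (aa : ℕ → ℕ) (hb0 : 0 < b) (hb1 : b < 1) (hbe : b ^ 2 = 1 - ε)
    (Δ p : ℕ) (hp : b ^ p ≤ 1 / 8) (hY : 0 ≤ Y) (hX1 : 0 ≤ X1) (hX : ∀ j, 0 ≤ X j) (hQ0 : 0 ≤ Q)
    (haX : ∀ j, (8 : ℝ) ^ j * b ^ aa j * X j ≤ 1) (hβ : ∀ j, 0 < β j)
    (hβ2 : ∀ j, ((16 : ℝ) ^ j * ((Δ + 1 : ℕ) : ℝ) ^ aa j) ^ 2 * X j ≤ Y ^ 2 * β j)
    (g : ℝ) (hg4 : 1 / 4 ≤ g) (hgb : b ≤ g)
    (V : Type) [Fintype V] [DecidableEq V] (G : SimpleGraph V) [DecidableRel G.Adj]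
    (hG : G.Connected) (hΔ : ∀ v, G.degree v ≤ Δ) (J r1 : ℕ) (F : Finset V)
    (hgrow : ∀ x ∈ F, ∀ j, j ≤ J → β j ≤ ((ball G x (2 ^ j / 4)).card : ℝ))
    (u : V) (K : Finset V) (huK : u ∈ K)
    (hstar : ∀ x ∈ K, x ≠ u → ∃ z ∈ K, G.Adj x z ∧ G.dist z u + 1 = G.dist x u)
    (hrad : ∀ x ∈ K, G.dist x u ≤ r1 * 2 ^ J)
    (hcard : ∀ j, ((nbd G K (2 ^ (j + 2))).card : ℝ) ≤ X j * Q)
    (dK : V → ℕ) (hdK : ∀ x, ∀ y ∈ K, dK x ≤ G.dist x y)
    (hfar : ∀ j, ∑ x, b ^ (dK x - 2 ^ (j + 2)) ≤ X j * Q)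
    (hfar1 : ∑ x, b ^ (dK x - 1) ≤ X1 * Q)
    (bd : ℕ) (N0 : ℕ) (hN0 : (N0 : ℝ) ≤ X1 * Q)
    (s : ℕ) (A : Finset V) (hA : A ⊆ nbd G K 1) (hAn : A.Nonempty)
    (hbd : (A.filter (fun v => ¬ G.Adj u v) \ F).card ≤ bd)
    (hAs : A.card * (16 * (Δ + 1) ^ 4) ^ s ≤ N0) :
    ∃ w : V → ℝ, Adm G ε w ∧ (∀ v ∈ A, Res G w v u (r1 + 10 + 1 / b)) ∧
      tot G w ≤ Δ / b * ((2 * (r1 + 6) * Real.sqrt X1 * Y + 2 + 4 * X1) * Q +
        (4 ^ (J + 1) * ((r1 + 3) * 2 ^ J) * ((Δ : ℝ) + 1) ^ (p * (J + 1))) ^ 2 * bd) * g ^ s := by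
  classical
  have hg0 : 0 ≤ g := by linarith
  have hgs : (1 / 4 : ℝ) ^ s ≤ g ^ s := pow_le_pow_left₀ (by norm_num) hg4 s
  have hbs : b ^ s ≤ g ^ s := pow_le_pow_left₀ hb0.le hgb s
  have hXQ : 0 ≤ X1 * Q := mul_nonneg hX1 hQ0
  obtain ⟨s1, s2, s3⟩ := single G hG b hb0 hb1 u
  have hb1' : 0 ≤ 1 / b := by positivity
  have hR1 : 1 / b ≤ (r1 : ℝ) + 10 + 1 / b := by
    have : (0 : ℝ) ≤ r1 := Nat.cast_nonneg _
    linarith
  -- the square sum of the single target network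
  have hsq : ∑ x, (b ^ G.dist x u) ^ 2 ≤ 2 * (X1 * Q) * g ^ s := by
    have hA1 : 1 ≤ A.card := Finset.card_pos.mpr hAn
    have hM : ((ball G u s).card : ℝ) ≤ (1 / 4) ^ s * (X1 * Q) := by
      have h1 : (ball G u s).card ≤ (Δ + 1) ^ s := (Pool.Agent.H675.ct_balls V G hG).1 Δ hΔ u s
      have h2 : (ball G u s).card * 4 ^ s ≤ N0 := by
        calc (ball G u s).card * 4 ^ s ≤ (Δ + 1) ^ s * 4 ^ s := Nat.mul_le_mul_right _ h1
          _ = (4 * (Δ + 1)) ^ s := by rw [mul_comm, ← mul_pow]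
          _ ≤ (16 * (Δ + 1) ^ 4) ^ s := by
              refine Nat.pow_le_pow_left ?_ s
              have h3 : (Δ + 1) ^ 1 ≤ (Δ + 1) ^ 4 := Nat.pow_le_pow_right (by omega) (by norm_num)
              rw [pow_one] at h3
              omega
          _ ≤ A.card * (16 * (Δ + 1) ^ 4) ^ s := Nat.le_mul_of_pos_left _ hA1
          _ ≤ N0 := hAs
      have h3 : ((ball G u s).card : ℝ) * 4 ^ s ≤ X1 * Q := by
        have : (((ball G u s).card * 4 ^ s : ℕ) : ℝ) ≤ N0 := by exact_mod_cast h2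
        push_cast at this
        linarith
      have h5 : (0 : ℝ) < 4 ^ s := by positivity
      rw [one_div, inv_pow, inv_mul_eq_div, le_div_iff₀ h5]
      exact h3
    have hpt : ∀ x, (b ^ G.dist x u) ^ 2 ≤ (if x ∈ ball G u s then (1 : ℝ) else 0) + b ^ s * b ^ (dK x - 1) := by
      intro x
      have hd := hdK x u huK
      have hx1 : b ^ G.dist x u ≤ 1 := pow_le_one₀ hb0.le hb1.le
      have hx0 : 0 < b ^ G.dist x u := s1 x
      have hy0 : 0 ≤ b ^ s * b ^ (dK x - 1) := by positivity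
      by_cases hx : x ∈ ball G u s
      · rw [if_pos hx]
        nlinarith
      · rw [if_neg hx, zero_add, sq]
        rw [mem_ball] at hx
        have hsym : G.dist u x = G.dist x u := SimpleGraph.dist_comm
        have h1 : b ^ G.dist x u ≤ b ^ s := pow_le_pow_of_le_one hb0.le hb1.le (by omega)
        have h2 : b ^ G.dist x u ≤ b ^ (dK x - 1) := pow_le_pow_of_le_one hb0.le hb1.le (by omega)
        exact mul_le_mul h1 h2 hx0.le (by positivity)
    calc ∑ x, (b ^ G.dist x u) ^ 2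
        ≤ ∑ x, ((if x ∈ ball G u s then (1 : ℝ) else 0) + b ^ s * b ^ (dK x - 1)) :=
          Finset.sum_le_sum fun x _ => hpt x
      _ = ((ball G u s).card : ℝ) + b ^ s * ∑ x, b ^ (dK x - 1) := by
          rw [Finset.sum_add_distrib, ← Finset.mul_sum]
          congr 1
          rw [Finset.sum_ite_mem, Finset.univ_inter, Finset.sum_const, nsmul_eq_mul, mul_one]
      _ ≤ (1 / 4) ^ s * (X1 * Q) + g ^ s * (X1 * Q) :=
          add_le_add hM (mul_le_mul hbs hfar1 (Finset.sum_nonneg fun x _ => pow_nonneg hb0.le _) (pow_nonneg hg0 _))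
      _ ≤ g ^ s * (X1 * Q) + g ^ s * (X1 * Q) :=
          add_le_add (mul_le_mul_of_nonneg_right hgs hXQ) le_rfl
      _ = _ := by ring
  set Z : ℝ := (4 ^ (J + 1) * ((r1 + 3) * 2 ^ J) * ((Δ : ℝ) + 1) ^ (p * (J + 1))) ^ 2 * bd with hZ
  have hZ0 : 0 ≤ Z := by positivity
  have hB0 : 0 ≤ 2 * ((r1 : ℝ) + 6) * Real.sqrt X1 * Y + 2 := by
    have := Real.sqrt_nonneg X1
    positivity
  rcases Finset.eq_empty_or_nonempty (A.filter (fun v => ¬ G.Adj u v)) with hA1 | hA1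
  · refine ⟨fun x => b ^ G.dist x u, adm_of_ratio G b ε hb0 hbe _ s1 s2, ?_, ?_⟩
    · intro v hv
      have hadj : G.Adj u v := by
        by_contra hno
        have : v ∈ A.filter (fun v => ¬ G.Adj u v) := Finset.mem_filter.mpr ⟨hv, hno⟩
        rw [hA1] at this
        exact absurd this (Finset.notMem_empty _)
      exact s3 _ (fun x => le_rfl) v hadj _ hR1
    · refine (tot_sq G b hb0 Δ hΔ _ s1 s2).trans ?_
      rw [mul_assoc]
      refine mul_le_mul_of_nonneg_left (hsq.trans ?_) (by positivity)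
      refine mul_le_mul_of_nonneg_right ?_ (pow_nonneg hg0 _)
      nlinarith [mul_nonneg hB0 hQ0]
  · have hAs1 : (A.filter (fun v => ¬ G.Adj u v)).card * (16 * (Δ + 1) ^ 4) ^ s ≤ N0 :=
      (Nat.mul_le_mul_right _ (Finset.card_le_card (Finset.filter_subset _ _))).trans hAs
    obtain ⟨w, hw0, hwr, hwres, hwsq⟩ := clusterG2 hlink harith b ε Y X1 Q X β aa hb0 hb1 hbe Δ p hp hY hX1 hX hQ0
      haX hβ hβ2 g hg4 hgb V G hG hΔ J r1 F hgrow u K huK hstar hrad hcard dK hdK hfar hfar1 bd N0 hN0 s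
      (A.filter (fun v => ¬ G.Adj u v)) ((Finset.filter_subset _ _).trans hA) hA1 hbd hAs1
    set w' : V → ℝ := fun x => max (w x) (b ^ G.dist x u) with hw'
    have hw'0 : ∀ x, 0 < w' x := fun x => lt_of_lt_of_le (hw0 x) (le_max_left _ _)
    have hw'r : ∀ x y, G.Adj x y → b * w' x ≤ w' y := by
      intro x y hxy
      simp only [hw']
      rw [mul_max_of_nonneg _ _ hb0.le]
      exact max_le_max (hwr x y hxy) (s2 x y hxy)
    refine ⟨w', adm_of_ratio G b ε hb0 hbe _ hw'0 hw'r, ?_, ?_⟩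
    · intro v hv
      by_cases hadj : G.Adj u v
      · exact s3 _ (fun x => le_max_right _ _) v hadj _ hR1
      · refine res_mono G w w' hw0 (fun x => le_max_left _ _) v u (r1 + 10) _ (by linarith) ?_
        exact hwres v (Finset.mem_filter.mpr ⟨hv, hadj⟩)
    · refine (tot_sq G b hb0 Δ hΔ _ hw'0 hw'r).trans ?_
      rw [mul_assoc]
      refine mul_le_mul_of_nonneg_left ?_ (by positivity)
      have h1 : ∑ x, w' x ^ 2 ≤ ∑ x, w x ^ 2 + ∑ x, (b ^ G.dist x u) ^ 2 := by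
        rw [← Finset.sum_add_distrib]
        refine Finset.sum_le_sum fun x _ => ?_
        simp only [hw']
        rcases max_cases (w x) (b ^ G.dist x u) with ⟨h, _⟩ | ⟨h, _⟩
        · rw [h]; have : 0 ≤ (b ^ G.dist x u) ^ 2 := by positivity
          linarith
        · rw [h]; have : 0 ≤ w x ^ 2 := by positivity
          linarith
      refine h1.trans ((add_le_add hwsq hsq).trans (le_of_eq ?_))
      ring

end Pool.Agent.H576.CE
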