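import Mathlib
import Pool.Agent.H576.CE.GenU

/-! The unified bound for a graph (project CE). -/

set_option autoImplicit false
set_option linter.unusedSectionVars false

namespace Pool.Agent.H576.CE

open Finset Pool.Agent.TH112.BW Pool.Agent.H576.CT

theorem card_near {V : Type} [Fintype V] [DecidableEq V] (G : SimpleGraph V) [DecidableRel G.Adj] (hG : G.Connected)
    (Δ : ℕ) (hΔ : ∀ v, G.degree v ≤ Δ) (B : Finset V) : (nbd G B 1).card ≤ (Δ + 1) * B.card := by
  classical
  have hball := (Pool.Agent.H675.ct_balls V G hG).1 Δ hΔ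
  have h1 : nbd G B 1 ⊆ B.biUnion (fun y => ball G y 1) := by
    intro x hx
    obtain ⟨y, hy, hxy⟩ := (mem_nbd G B 1 x).mp hx
    rw [Finset.mem_biUnion]
    exact ⟨y, hy, by rw [mem_ball, SimpleGraph.dist_comm]; exact hxy⟩
  refine (Finset.card_le_card h1).trans (Finset.card_biUnion_le.trans ?_)
  calc ∑ y ∈ B, (ball G y 1).card ≤ ∑ y ∈ B, (Δ + 1) := Finset.sum_le_sum fun y _ => by
        have := hball y 1
        rwa [pow_one] at this
    _ = _ := by rw [Finset.sum_const, smul_eq_mul]; ring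

theorem graphU (hmode : S_MODE) (hlink : S_LINK3) (harith : S_ARITH3)
    (ε b Y : ℝ) (φ Kf β : ℕ → ℝ) (aa : ℕ → ℕ) (hε0 : 0 < ε) (hε1 : ε < 1) (hb0 : 0 < b) (hb1 : b < 1)
    (hbe : b ^ 2 = 1 - ε) (Δ p r1 : ℕ) (hp : b ^ p ≤ 1 / 8) (hY : 0 ≤ Y) (hKf : ∀ t, 0 ≤ Kf t)
    (hφ : ∀ t d : ℕ, b ^ (d - t) ≤ Kf t * φ d)
    (haX : ∀ j, (8 : ℝ) ^ j * b ^ aa j * Kf (2 ^ (j + 2)) ≤ 1) (hβ : ∀ j, 0 < β j)
    (hβ2 : ∀ j, ((16 : ℝ) ^ j * ((Δ + 1 : ℕ) : ℝ) ^ aa j) ^ 2 * Kf (2 ^ (j + 2)) ≤ Y ^ 2 * β j) :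
    ∃ CC : ℝ, 0 ≤ CC ∧ ∀ (V : Type) [Fintype V] [DecidableEq V] (G : SimpleGraph V) [DecidableRel G.Adj]
      (hN : ∀ x, (G.neighborFinset x).Nonempty) (_hG : G.Connected) (_hΔ : ∀ v, G.degree v ≤ Δ)
      (Jn : ℕ) (F B H : Finset V)
      (_hgrow : ∀ x ∈ F, ∀ j, j ≤ Jn → β j ≤ ((ball G x (2 ^ j / 4)).card : ℝ))
      (_hcov : ∀ x, x ∉ H → x ∉ B → ∀ z, G.dist z x ≤ 1 → z ∈ F)
      (cl : V → V) (rho : V → V → ℝ) (_hcl : ∀ x, cl (cl x) = cl x)
      (_hstar : ∀ x, cl x ≠ x → ∃ z, G.Adj x z ∧ cl z = cl x ∧ G.dist z (cl x) + 1 = G.dist x (cl x))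
      (_hrad : ∀ x, G.dist x (cl x) ≤ r1 * 2 ^ Jn)
      (_hrho0 : ∀ x u, 0 ≤ rho x u) (_hrho : ∀ x y, φ (G.dist x y) ≤ rho x (cl y)) (v₀ : V) (k : ℕ),
      J G ε hN (Dt v₀ Finset.univ) k v₀ {v₀} ≤ CC * (∑ x, ∑ u, rho x u +
        (4 ^ (Jn + 1) * ((r1 + 3) * 2 ^ Jn) * ((Δ : ℝ) + 1) ^ (p * (Jn + 1))) ^ 2 * (B.card : ℝ) +
        ∑ x ∈ H, ∑ y, (1 - ε) ^ G.dist x y) := by
  classical
  obtain ⟨g, hg4, hgb, hg1⟩ : ∃ g : ℝ, 1 / 4 ≤ g ∧ b ≤ g ∧ g < 1 :=
    ⟨max (1 / 4) b, le_max_left _ _, le_max_right _ _, max_lt (by norm_num) hb1⟩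
  have hg0 : 0 ≤ g := by linarith
  have h1g : 0 < 1 - g := by linarith
  set R : ℝ := r1 + 10 + 1 / b with hR
  have hR0 : 0 ≤ R := by positivity
  have hRb : 1 / b ≤ R := by
    have : (0 : ℝ) ≤ r1 := Nat.cast_nonneg _
    rw [hR]; linarith
  set E : ℕ := 16 * (Δ + 1) ^ 4 with hE
  have hE2 : 2 ≤ E := by
    have : 0 < (Δ + 1) ^ 4 := by positivity
    omega
  set X1 : ℝ := Kf 1 with hX1
  have hX10 : 0 ≤ X1 := hKf 1
  set B1 : ℝ := 2 * (r1 + 6) * Real.sqrt X1 * Y + 2 + 4 * X1 with hB1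
  have hB10 : 0 ≤ B1 := by
    have := Real.sqrt_nonneg X1
    positivity
  set CC0 : ℝ := (E * R * (1 / (1 - g)) + 2 * R) * (Δ / b) with hCC0
  have hCC00 : 0 ≤ CC0 := by positivity
  set CC2 : ℝ := (E * R * (Δ + 1) + 2 * R) * (Δ / b) with hCC2
  have hCC20 : 0 ≤ CC2 := by positivity
  refine ⟨CC0 * (B1 + (Δ + 1) ^ 2) + CC2, by positivity, ?_⟩
  intro V _ _ G _ hN hG hΔ Jn F B H hgrow hcov cl rho hcl hstar hrad hrho0 hrho v₀ k
  set W0 : ℝ := 4 ^ (Jn + 1) * ((r1 + 3) * 2 ^ Jn) * ((Δ : ℝ) + 1) ^ (p * (Jn + 1)) with hW0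
  set Q : V → ℝ := fun u => ∑ x, rho x u with hQ
  have hQ0 : ∀ u, 0 ≤ Q u := fun u => Finset.sum_nonneg fun x _ => hrho0 x u
  set B2 : Finset V := nbd G B 1 with hB2
  set bd : V → ℕ := fun u => (nbd G (univ.filter (fun x => cl x = u)) 1 \ (univ \ B2)).card with hbd
  set sh : V → ℝ := fun u => ∑ y, (1 - ε) ^ G.dist u y with hsh
  have h1ε : 0 < 1 - ε := by linarith
  have hsh0 : ∀ u, 0 ≤ sh u := fun u => Finset.sum_nonneg fun x _ => pow_nonneg h1ε.le _
  have hKu0 : ∀ u, 0 ≤ B1 * Q u + W0 ^ 2 * (bd u : ℝ) := fun u => by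
    have := mul_nonneg hB10 (hQ0 u)
    positivity
  have hKh0 : ∀ u, 0 ≤ (if u ∈ H then sh u else 0) := fun u => by
    split_ifs
    · exact hsh0 u
    · exact le_rfl
  set cl' : V → V := fun x => if x ∈ H then x else cl x with hcl'
  have hclH : ∀ x, x ∈ H → cl' x = x := fun x hx => by simp only [hcl']; rw [if_pos hx]
  have hclN : ∀ x, x ∉ H → cl' x = cl x := fun x hx => by simp only [hcl']; rw [if_neg hx]
  have hidem : ∀ x, cl' (cl' x) = cl' x := by
    intro x
    by_cases hx : x ∈ H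
    · rw [hclH x hx, hclH x hx]
    · rw [hclN x hx]
      by_cases hu : cl x ∈ H
      · rw [hclH _ hu]
      · rw [hclN _ hu, hcl]
  have hnbmem : ∀ u v, v ∈ nb G cl' u → v ≠ u ∧ (cl' v = u ∨ ∃ y, G.Adj v y ∧ cl' y = u) := by
    intro u v hv
    unfold nb at hv
    exact ⟨Finset.ne_of_mem_erase hv, (Finset.mem_filter.mp (Finset.mem_of_mem_erase hv)).2⟩
  have hport : ∀ u p0, cl' p0 = u → p0 = u ∨ p0 ∈ nb G cl' u := by
    intro u p0 hp0
    by_cases h : p0 = u
    · exact Or.inl h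
    · refine Or.inr ?_
      unfold nb
      rw [Finset.mem_erase, Finset.mem_filter]
      exact ⟨h, Finset.mem_univ _, Or.inl hp0⟩
  have hdfs := ce_dfs V G ε hε0.le hε1.le hN hG cl' hidem
    (fun u => CC0 * (B1 * Q u + W0 ^ 2 * (bd u : ℝ)) + CC2 * (if u ∈ H then sh u else 0))
    (fun u => add_nonneg (mul_nonneg hCC00 (hKu0 u)) (mul_nonneg hCC20 (hKh0 u))) (by
      intro u hu p0 hp0 T hT Cov hsub k S hS
      by_cases hcu : cl u = u
      · -- a centre of a shift cluster
        set K : Finset V := univ.filter (fun x => cl x = u) with hK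
        have hKmem : ∀ x, x ∈ K ↔ cl x = u := by intro x; simp [hK]
        have huK : u ∈ K := (hKmem u).mpr hcu
        have hrhoK : ∀ x, ∀ y ∈ K, φ (G.dist x y) ≤ rho x u := by
          intro x y hy
          have := hrho x y
          rw [(hKmem y).mp hy] at this
          exact this
        set dK : V → ℕ := fun x => K.inf' ⟨u, huK⟩ (fun y => G.dist x y) with hdK
        have hdKle : ∀ x, ∀ y ∈ K, dK x ≤ G.dist x y := fun x y hy => Finset.inf'_le _ hy
        have hdKex : ∀ x, ∃ y ∈ K, dK x = G.dist x y := fun x =>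
          Finset.exists_mem_eq_inf' ⟨u, huK⟩ (fun y => G.dist x y)
        have hfar : ∀ t, ∑ x, b ^ (dK x - t) ≤ Kf t * Q u := by
          intro t
          simp only [hQ]
          rw [Finset.mul_sum]
          refine Finset.sum_le_sum fun x _ => ?_
          obtain ⟨y, hy, hxy⟩ := hdKex x
          rw [hxy]
          exact (hφ t _).trans (mul_le_mul_of_nonneg_left (hrhoK x y hy) (hKf t))
        have hcard : ∀ t, ((nbd G K t).card : ℝ) ≤ Kf t * Q u := by
          intro t
          refine le_trans ?_ (hfar t)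
          calc ((nbd G K t).card : ℝ) = ∑ x ∈ nbd G K t, (1 : ℝ) := by simp
            _ ≤ ∑ x ∈ nbd G K t, b ^ (dK x - t) := by
                refine Finset.sum_le_sum fun x hx => ?_
                obtain ⟨y, hy, hxy⟩ := (mem_nbd G K t x).mp hx
                have h1 := hdKle x y hy
                have h2 : dK x - t = 0 := by omega
                rw [h2, pow_zero]
            _ ≤ ∑ x, b ^ (dK x - t) :=
                Finset.sum_le_sum_of_subset_of_nonneg (Finset.subset_univ _) fun x _ _ => pow_nonneg hb0.le _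
        have hclu : ∀ y, cl' y = u → y ≠ u → y ∉ H ∧ cl y = u := by
          intro y hy hyu
          by_cases hyH : y ∈ H
          · rw [hclH y hyH] at hy
            exact absurd hy hyu
          · exact ⟨hyH, by rw [← hclN y hyH]; exact hy⟩
        have hnb : nb G cl' u ⊆ nbd G K 1 := by
          intro x hx
          obtain ⟨hxu, h1⟩ := hnbmem u x hx
          rw [mem_nbd]
          rcases h1 with h1 | ⟨y, hxy, hy⟩
          · exact ⟨x, (hKmem x).mpr (hclu x h1 hxu).2, by simp⟩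
          · by_cases hyu : y = u
            · rw [hyu] at hxy
              exact ⟨u, huK, (SimpleGraph.dist_eq_one_iff_adj.mpr hxy).le⟩
            · exact ⟨y, (hKmem y).mpr (hclu y hy hyu).2, (SimpleGraph.dist_eq_one_iff_adj.mpr hxy).le⟩
        have hcardN : (((nb G cl' u).card : ℕ) : ℝ) ≤ X1 * Q u := by
          have h2 : ((nb G cl' u).card : ℝ) ≤ ((nbd G K 1).card : ℝ) := by
            exact_mod_cast Finset.card_le_card hnb
          exact h2.trans (hcard 1)
        have hbdA : ∀ A : Finset V, A ⊆ nb G cl' u → (A.filter (fun v => ¬ G.Adj u v) \ F).card ≤ bd u := by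
          intro A hA
          refine Finset.card_le_card ?_
          intro v hv
          rw [Finset.mem_sdiff, Finset.mem_filter] at hv
          obtain ⟨⟨hvA, hnadj⟩, hvF⟩ := hv
          obtain ⟨hvu, h1⟩ := hnbmem u v (hA hvA)
          rw [Finset.mem_sdiff, Finset.mem_sdiff]
          refine ⟨hnb (hA hvA), fun h => h.2 ?_⟩
          rw [hB2, mem_nbd]
          rcases h1 with h1 | ⟨y, hxy, hy⟩
          · have h2 := hclu v h1 hvu
            by_cases hvB : v ∈ B
            · exact ⟨v, hvB, by simp⟩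
            · exact absurd (hcov v h2.1 hvB v (by simp)) hvF
          · by_cases hyu : y = u
            · rw [hyu] at hxy
              exact absurd hxy.symm hnadj
            · have h2 := hclu y hy hyu
              by_cases hyB : y ∈ B
              · exact ⟨y, hyB, (SimpleGraph.dist_eq_one_iff_adj.mpr hxy).le⟩
              · exact absurd (hcov y h2.1 hyB v (SimpleGraph.dist_eq_one_iff_adj.mpr hxy).le) hvF
        have hmd := hmode V G ε hε0.le hε1.le hN hG u p0 R hR0 (nb G cl' u) (Finset.notMem_erase _ _)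
          (hport u p0 hp0)
          E (nb G cl' u).card hE2 le_rfl (fun s => Δ / b * (B1 * Q u + W0 ^ 2 * (bd u : ℝ)) * g ^ s)
          (fun s => mul_nonneg (mul_nonneg (by positivity) (hKu0 u)) (pow_nonneg hg0 _))
          (by
            intro s A hA hAn hAs
            exact clusterU hlink harith b ε Y X1 (Q u) (fun j => Kf (2 ^ (j + 2))) β aa hb0 hb1 hbe Δ p hp hY hX10
              (fun j => hKf _) (hQ0 u) haX hβ hβ2 g hg4 hgb V G hG hΔ Jn r1 F hgrow u K huK
              (by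
                intro x hx hxu
                have hx' := (hKmem x).mp hx
                obtain ⟨z, h1, h2, h3⟩ := hstar x (by rw [hx']; exact fun h => hxu h.symm)
                rw [hx'] at h2 h3
                exact ⟨z, (hKmem z).mpr h2, h1, h3⟩)
              (by
                intro x hx
                have := hrad x
                rw [(hKmem x).mp hx] at this
                exact this)
              (fun j => hcard _) dK hdKle (fun j => hfar _) (hfar 1) (bd u) (nb G cl' u).card hcardN s A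
              (hA.trans hnb) hAn (hbdA A hA) hAs)
          T hT Cov hsub k S hS
        refine hmd.trans ?_
        rw [← Finset.mul_sum]
        have h2 := geo_le g hg0 hg1 ((nb G cl' u).card + 1)
        have hU0 : 0 ≤ Δ / b * (B1 * Q u + W0 ^ 2 * (bd u : ℝ)) := mul_nonneg (by positivity) (hKu0 u)
        have h3 : Δ / b * (B1 * Q u + W0 ^ 2 * (bd u : ℝ)) * ∑ s ∈ range ((nb G cl' u).card + 1), g ^ s
            ≤ Δ / b * (B1 * Q u + W0 ^ 2 * (bd u : ℝ)) * (1 / (1 - g)) :=
          mul_le_mul_of_nonneg_left h2 hU0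
        have h4 := mul_le_mul_of_nonneg_left h3 (show (0 : ℝ) ≤ E * R by positivity)
        have h5 : E * R * (Δ / b * (B1 * Q u + W0 ^ 2 * (bd u : ℝ)) * (1 / (1 - g)))
            + 2 * R * (Δ / b * (B1 * Q u + W0 ^ 2 * (bd u : ℝ)) * g ^ 0)
            = CC0 * (B1 * Q u + W0 ^ 2 * (bd u : ℝ)) := by
          rw [hCC0]; ring
        have h6 := mul_nonneg hCC20 (hKh0 u)
        linarith
      · -- a holdable vertex as a cluster of its own
        have huH : u ∈ H := by
          by_contra h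
          rw [hclN u h] at hu
          exact hcu hu
        have hclu : ∀ y, cl' y = u → y = u := by
          intro y hy
          by_cases hyH : y ∈ H
          · rw [hclH y hyH] at hy
            exact hy
          · rw [hclN y hyH] at hy
            exact absurd (by rw [← hy]; exact hcl y) hcu
        have hnadj : ∀ v ∈ nb G cl' u, G.Adj u v := by
          intro v hv
          obtain ⟨hvu, h1⟩ := hnbmem u v hv
          rcases h1 with h1 | ⟨y, hxy, hy⟩
          · exact absurd (hclu v h1) hvu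
          · rw [hclu y hy] at hxy
            exact hxy.symm
        have hcardN : (nb G cl' u).card ≤ Δ := by
          refine le_trans (Finset.card_le_card ?_) (hΔ u)
          intro v hv
          rw [SimpleGraph.mem_neighborFinset]
          exact hnadj v hv
        obtain ⟨s1, s2, s3⟩ := single G hG b hb0 hb1 u
        have htot : tot G (fun x => b ^ G.dist x u) ≤ Δ / b * sh u := by
          refine (tot_sq G b hb0 Δ hΔ _ s1 s2).trans (le_of_eq ?_)
          congr 1
          refine Finset.sum_congr rfl fun x _ => ?_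
          rw [← pow_mul, mul_comm, pow_mul, hbe, SimpleGraph.dist_comm]
        have hmd := hmode V G ε hε0.le hε1.le hN hG u p0 R hR0 (nb G cl' u) (Finset.notMem_erase _ _)
          (hport u p0 hp0)
          E (nb G cl' u).card hE2 le_rfl (fun _ => Δ / b * sh u)
          (fun s => mul_nonneg (by positivity) (hsh0 u))
          (by
            intro s A hA hAn hAs
            exact ⟨fun x => b ^ G.dist x u, adm_of_ratio G b ε hb0 hbe _ s1 s2,
              fun v hv => s3 _ (fun x => le_rfl) v (hnadj v (hA hv)) _ hRb, htot⟩)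
          T hT Cov hsub k S hS
        refine hmd.trans ?_
        rw [Finset.sum_const, Finset.card_range, nsmul_eq_mul, if_pos huH]
        have h1 : (((nb G cl' u).card + 1 : ℕ) : ℝ) ≤ Δ + 1 := by
          have : ((nb G cl' u).card : ℝ) ≤ Δ := by exact_mod_cast hcardN
          push_cast
          linarith
        have hT0 : 0 ≤ Δ / b * sh u := mul_nonneg (by positivity) (hsh0 u)
        have h2 : (E : ℝ) * R * ((((nb G cl' u).card + 1 : ℕ) : ℝ) * (Δ / b * sh u))
            ≤ E * R * ((Δ + 1) * (Δ / b * sh u)) :=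
          mul_le_mul_of_nonneg_left (mul_le_mul_of_nonneg_right h1 hT0) (by positivity)
        have h3 : (E : ℝ) * R * ((Δ + 1) * (Δ / b * sh u)) + 2 * R * (Δ / b * sh u) = CC2 * sh u := by
          rw [hCC2]; ring
        have h4 := mul_nonneg hCC00 (hKu0 u)
        linarith)
    v₀ k {v₀} (Finset.mem_singleton_self _)
  refine hdfs.trans ?_
  rw [Finset.sum_add_distrib, ← Finset.mul_sum, ← Finset.mul_sum, Finset.sum_add_distrib, ← Finset.mul_sum,
    ← Finset.mul_sum]
  have hS : ∑ u, Q u = ∑ x, ∑ u, rho x u := by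
    simp only [hQ]
    rw [Finset.sum_comm]
  have hB : ∑ u, (bd u : ℝ) ≤ (Δ + 1) ^ 2 * (B.card : ℝ) := by
    have h1 := sum_bad G hG Δ hΔ (univ \ B2) cl
    rw [Finset.sdiff_sdiff_eq_self (Finset.subset_univ B2)] at h1
    have h3 : (Δ + 1) * B2.card ≤ (Δ + 1) * ((Δ + 1) * B.card) :=
      Nat.mul_le_mul_left _ (card_near G hG Δ hΔ B)
    have h2 : ((∑ u, bd u : ℕ) : ℝ) ≤ (((Δ + 1) * ((Δ + 1) * B.card) : ℕ) : ℝ) := by exact_mod_cast h1.trans h3
    push_cast at h2
    calc ∑ u, (bd u : ℝ) ≤ _ := h2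
      _ = _ := by ring
  have hH : ∑ u, (if u ∈ H then sh u else 0) = ∑ x ∈ H, ∑ y, (1 - ε) ^ G.dist x y := by
    rw [Finset.sum_ite_mem, Finset.univ_inter]
  rw [hS, hH]
  have hS0 : 0 ≤ ∑ x, ∑ u, rho x u := Finset.sum_nonneg fun x _ => Finset.sum_nonneg fun u _ => hrho0 x u
  have hF0 : (0 : ℝ) ≤ (B.card : ℝ) := Nat.cast_nonneg _
  have hH0 : 0 ≤ ∑ x ∈ H, ∑ y, (1 - ε) ^ G.dist x y := Finset.sum_nonneg fun x _ => hsh0 x
  have h6 : W0 ^ 2 * ∑ u, (bd u : ℝ) ≤ W0 ^ 2 * ((Δ + 1) ^ 2 * (B.card : ℝ)) :=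
    mul_le_mul_of_nonneg_left hB (by positivity)
  have h7 : CC0 * (B1 * ∑ x, ∑ u, rho x u + W0 ^ 2 * ∑ u, (bd u : ℝ))
      ≤ CC0 * ((B1 + (Δ + 1) ^ 2) * (∑ x, ∑ u, rho x u + W0 ^ 2 * (B.card : ℝ))) := by
    refine mul_le_mul_of_nonneg_left ?_ hCC00
    have e1 : 0 ≤ B1 * (W0 ^ 2 * (B.card : ℝ)) := by positivity
    have e2 : 0 ≤ ((Δ : ℝ) + 1) ^ 2 * ∑ x, ∑ u, rho x u := by positivity
    nlinarith
  have e3 : 0 ≤ CC2 * (∑ x, ∑ u, rho x u + W0 ^ 2 * (B.card : ℝ)) := by positivity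
  have e4 : 0 ≤ CC0 * (B1 + (Δ + 1) ^ 2) * ∑ x ∈ H, ∑ y, (1 - ε) ^ G.dist x y := by positivity
  nlinarith

end Pool.Agent.H576.CE
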