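import Mathlib
import Pool.Agent.H576.CE.GenU
import Pool.Agent.H673.CE.CELink2

/-! The general bound: networks of a cluster without growth conditions. -/

set_option autoImplicit false
set_option linter.unusedSectionVars false

namespace Pool.Agent.H576.CE

open Finset Pool.Agent.TH112.BW Pool.Agent.H576.CT

theorem clusterN (hlink : S_LINK3)
    (b ε X1 Q : ℝ) (hb0 : 0 < b) (hb1 : b < 1) (hbe : b ^ 2 = 1 - ε)
    (Δ p : ℕ) (hp : b ^ p ≤ 1 / 8) (hX1 : 0 ≤ X1) (hQ0 : 0 ≤ Q)
    (g : ℝ) (hg4 : 1 / 4 ≤ g) (hgb : b ≤ g)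
    (V : Type) [Fintype V] [DecidableEq V] (G : SimpleGraph V) [DecidableRel G.Adj]
    (hG : G.Connected) (hΔ : ∀ v, G.degree v ≤ Δ) (J : ℕ)
    (u : V) (K : Finset V) (huK : u ∈ K)
    (hstar : ∀ x ∈ K, x ≠ u → ∃ z ∈ K, G.Adj x z ∧ G.dist z u + 1 = G.dist x u)
    (hrad : ∀ x ∈ K, G.dist x u ≤ 1 * 2 ^ J)
    (dK : V → ℕ) (hdK : ∀ x, ∀ y ∈ K, dK x ≤ G.dist x y) (hdKex : ∀ x, ∃ y ∈ K, dK x = G.dist x y)
    (hfar1 : ∑ x, b ^ (dK x - 1) ≤ X1 * Q)
    (N0 : ℕ) (hN0 : (N0 : ℝ) ≤ X1 * Q)
    (s : ℕ) (A : Finset V) (hA : A ⊆ nbd G K 1) (hAn : A.Nonempty)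
    (hAs : A.card * (16 * (Δ + 1) ^ 4) ^ s ≤ N0) :
    ∃ w : V → ℝ, Adm G ε w ∧ (∀ v ∈ A, Res G w v u (11 / b)) ∧
      tot G w ≤ Δ / b * (X1 * Q) * (if s < (p + 1) * (J + 1) then (2 : ℝ) ^ (J + 1)
        else 5 * g ^ (s - (p + 1) * (J + 1))) := by
  classical
  have hg0 : 0 ≤ g := by linarith
  have hXQ : 0 ≤ X1 * Q := mul_nonneg hX1 hQ0
  by_cases hs : s < (p + 1) * (J + 1)
  · rw [if_pos hs]
    have ha0 : (0 : ℝ) < 2 ^ (J + 1) := by positivity
    obtain ⟨a, hap, ha⟩ : ∃ a : ℝ, 0 < a ∧ a * a = 2 ^ (J + 1) :=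
      ⟨Real.sqrt (2 ^ (J + 1)), Real.sqrt_pos.mpr ha0, Real.mul_self_sqrt ha0.le⟩
    have hw0 : ∀ x, 0 < a * b ^ dK x := fun x => by positivity
    have hwr : ∀ x y, G.Adj x y → b * (a * b ^ dK x) ≤ a * b ^ dK y := by
      intro x y hxy
      obtain ⟨z, hz, hxz⟩ := hdKex x
      have h1 := hdK y z hz
      have h2 := adj_dist_le hG x y z hxy
      have h3 : b ^ (dK x + 1) ≤ b ^ dK y := pow_le_pow_of_le_one hb0.le hb1.le (by omega)
      calc b * (a * b ^ dK x) = a * b ^ (dK x + 1) := by rw [pow_succ]; ring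
        _ ≤ a * b ^ dK y := mul_le_mul_of_nonneg_left h3 hap.le
    have hwK : ∀ x ∈ K, a * b ^ dK x = a := by
      intro x hx
      have h1 := hdK x x hx
      rw [SimpleGraph.dist_self] at h1
      rw [Nat.le_zero.mp h1, pow_zero, mul_one]
    refine ⟨fun x => a * b ^ dK x, adm_of_ratio G b ε hb0 hbe _ hw0 hwr, ?_, ?_⟩
    · intro v hv f I hI hfl
      obtain ⟨y, hyK, hvy⟩ := (mem_nbd G K 1 v).mp (hA hv)
      obtain ⟨wk, hwk1, hwk2⟩ := Pool.Agent.H673.CE.star_walk huK hstar _ y hyK rfl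
      have hstep : ∀ x ∈ K, ∀ z ∈ K, G.Adj x z → f x - f z ≤ I / 2 ^ (J + 1) := by
        intro x hx z hz hxz
        have h1 := hfl x z hxz
        beta_reduce at h1
        rw [hwK x hx, hwK z hz, ha] at h1
        rw [le_div_iff₀ ha0]
        linarith
      have h1 := Pool.Agent.H672.ct_walk hstep wk hwk2
      have h2 : (wk.length : ℝ) ≤ 2 ^ J := by
        have := hrad y hyK
        rw [one_mul] at this
        rw [hwk1]
        exact_mod_cast this
      have h3 : (wk.length : ℝ) * (I / 2 ^ (J + 1)) ≤ I := by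
        calc (wk.length : ℝ) * (I / 2 ^ (J + 1)) ≤ 2 ^ J * (I / 2 ^ (J + 1)) :=
              mul_le_mul_of_nonneg_right h2 (by positivity)
          _ = I / 2 := by rw [pow_succ]; field_simp
          _ ≤ I := by linarith
      have h1b : 1 ≤ 1 / b := by rw [le_div_iff₀ hb0]; linarith
      have hvy2 : f v - f y ≤ 1 / b * I ∧ f y - f v ≤ 1 / b * I := by
        have hnn : 0 ≤ 1 / b * I := by positivity
        rcases Nat.eq_zero_or_pos (G.dist v y) with h0 | h0
        · have : v = y := (hG.dist_eq_zero_iff).mp h0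
          rw [this]
          constructor <;> linarith
        · have hadj : G.Adj v y := SimpleGraph.dist_eq_one_iff_adj.mp (by omega)
          have hdv : dK v ≤ 1 := (hdK v y hyK).trans hvy
          have hbv : b ≤ b ^ dK v := by
            calc b = b ^ 1 := (pow_one b).symm
              _ ≤ b ^ dK v := pow_le_pow_of_le_one hb0.le hb1.le hdv
          have h4 := hfl v y hadj
          have h5 := hfl y v hadj.symm
          beta_reduce at h4 h5
          rw [hwK y hyK] at h4 h5
          have h12 : (1 : ℝ) ≤ 2 ^ (J + 1) := one_le_pow₀ (by norm_num)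
          have hcond : b ≤ a * b ^ dK v * a := by
            calc b ≤ b ^ dK v := hbv
              _ ≤ 2 ^ (J + 1) * b ^ dK v := le_mul_of_one_le_left (by positivity) h12
              _ = a * b ^ dK v * a := by rw [← ha]; ring
          have hgen : ∀ d : ℝ, a * b ^ dK v * a * d ≤ I → d ≤ 1 / b * I := by
            intro d hd
            rcases le_or_gt d 0 with hneg | hpos
            · linarith
            · have := (mul_le_mul_of_nonneg_right hcond hpos.le).trans hd
              rw [one_div, ← div_eq_inv_mul, le_div_iff₀ hb0]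
              linarith
          refine ⟨hgen _ h4, hgen _ ?_⟩
          calc a * b ^ dK v * a * (f y - f v) = a * (a * b ^ dK v) * (f y - f v) := by ring
            _ ≤ I := h5
      have h11 : 1 / b * I + I ≤ 11 / b * I := by
        have e1 : 11 / b * I = 11 * (1 / b * I) := by ring
        have e2 : I ≤ 1 / b * I := le_mul_of_one_le_left hI h1b
        rw [e1]
        linarith
      constructor
      · linarith [h1.1, hvy2.1]
      · linarith [h1.2, hvy2.2]
    · refine (tot_sq G b hb0 Δ hΔ _ hw0 hwr).trans ?_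
      have h1 : ∑ x, (a * b ^ dK x) ^ 2 ≤ 2 ^ (J + 1) * ∑ x, b ^ (dK x - 1) := by
        rw [Finset.mul_sum]
        refine Finset.sum_le_sum fun x _ => ?_
        have e1 : (a * b ^ dK x) ^ 2 = 2 ^ (J + 1) * (b ^ dK x * b ^ dK x) := by rw [← ha]; ring
        rw [e1]
        refine mul_le_mul_of_nonneg_left ?_ ha0.le
        have e2 : b ^ dK x ≤ 1 := pow_le_one₀ hb0.le hb1.le
        have e3 : b ^ dK x ≤ b ^ (dK x - 1) := pow_le_pow_of_le_one hb0.le hb1.le (by omega)
        calc b ^ dK x * b ^ dK x ≤ 1 * b ^ (dK x - 1) := mul_le_mul e2 e3 (by positivity) zero_le_one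
          _ = _ := one_mul _
      calc Δ / b * ∑ x, (a * b ^ dK x) ^ 2 ≤ Δ / b * (2 ^ (J + 1) * (X1 * Q)) :=
            mul_le_mul_of_nonneg_left (h1.trans (mul_le_mul_of_nonneg_left hfar1 ha0.le)) (by positivity)
        _ = _ := by ring
  · rw [if_neg hs]
    have hs := not_lt.mp hs
    obtain ⟨L, hLne, hL, hLJ1, hLJ2, hf⟩ := hlink V G hG u K ∅ huK hstar J 1 hrad A hA hAn
    have hLe : ∀ j ≤ J, L j = ∅ := by
      intro j hj
      obtain ⟨-, m, h1, -, h3⟩ := hL j hj
      have h4 := h3 ((nbd G K (2 ^ (j + 2))).card + 1) (fun x hx => absurd hx (Finset.notMem_empty x))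
      have h5 : m = 0 := by
        by_contra hm
        have : 1 ≤ m := Nat.one_le_iff_ne_zero.mpr hm
        have := Nat.le_mul_of_pos_left ((nbd G K (2 ^ (j + 2))).card + 1) this
        omega
      rw [h5, mul_zero] at h1
      exact Finset.card_eq_zero.mp (Nat.le_zero.mp h1)
    obtain ⟨w, hw0, hwr, hwL, hsum⟩ := ce_weight3 V G hG Δ hΔ b hb0 hb1 (J + 1) L hLne
    refine ⟨w, adm_of_ratio G b ε hb0 hbe _ hw0 hwr, ?_, ?_⟩
    · intro v hv f I hI hfl
      have h1 := hf f I hI (by
        intro j hj x hx y hy hxy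
        have h4 : (0 : ℝ) < 4 ^ j := by positivity
        rcases le_or_gt (f x - f y) 0 with hneg | hpos
        · exact hneg.trans (div_nonneg hI h4.le)
        · rw [le_div_iff₀ h4]
          have h1 := hwL j hj x hx
          have h2 := hwL j hj y hy
          have h3 : (4 : ℝ) ^ j ≤ w x * w y := by
            calc (4 : ℝ) ^ j = 2 ^ j * 2 ^ j := by rw [← mul_pow]; norm_num
              _ ≤ w x * w y := mul_le_mul h1 h2 (by positivity) (hw0 x).le
          have h5 := hfl x y hxy
          calc (f x - f y) * 4 ^ j = 4 ^ j * (f x - f y) := by ring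
            _ ≤ w x * w y * (f x - f y) := mul_le_mul_of_nonneg_right h3 hpos.le
            _ ≤ I := h5) v hv
      have h1b : 1 ≤ 1 / b := by rw [le_div_iff₀ hb0]; linarith
      have h2 : (((1 : ℕ) : ℝ) + 10) * I ≤ 11 / b * I := by
        refine mul_le_mul_of_nonneg_right ?_ hI
        have : 11 / b = 11 * (1 / b) := by ring
        rw [this]
        push_cast
        linarith
      exact ⟨h1.1.trans h2, h1.2.trans h2⟩
    · obtain ⟨t, ht⟩ : ∃ t, s = (p + 1) * (J + 1) + t := ⟨s - (p + 1) * (J + 1), by omega⟩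
      have ht' : s - (p + 1) * (J + 1) = t := by omega
      rw [ht']
      refine (tot_sq G b hb0 Δ hΔ w hw0 hwr).trans ?_
      have h2 := hsum (fun _ => p * (J + 1) + t) (fun _ x => dK x - 1) (by
        intro j hj z hz x
        rcases Nat.lt_or_ge J j with hjJ | hjJ
        · have hj' : j = J + 1 := by omega
          rw [hj'] at hz
          obtain ⟨y, hy, hzy⟩ := (mem_nbd G K _ z).mp (hLJ1 hz)
          have h3 := hdK x y hy
          have h4 := hG.dist_triangle (u := x) (v := z) (w := y)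
          show dK x - 1 ≤ G.dist x z
          omega
        · rw [hLe j hjJ] at hz
          exact absurd hz (Finset.notMem_empty z))
      have hbt : b ^ t ≤ g ^ t := pow_le_pow_left₀ hb0.le hgb t
      have h4t : (1 / 4 : ℝ) ^ t ≤ g ^ t := pow_le_pow_left₀ (by norm_num) hg4 t
      have hgt : 0 ≤ g ^ t := pow_nonneg hg0 t
      -- the links
      have hLc : ((L (J + 1)).card : ℝ) ≤ 4 * 2 ^ J * A.card := by
        have : ((L (J + 1)).card : ℝ) ≤ (((1 + 3) * 2 ^ J * (A \ ∅).card : ℕ) : ℝ) := by exact_mod_cast hLJ2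
        rw [Finset.sdiff_empty] at this
        push_cast at this
        linarith
      have hMl : (1 : ℝ) ≤ (Δ : ℝ) + 1 := by
        have : (0 : ℝ) ≤ Δ := Nat.cast_nonneg _
        linarith
      set M : ℝ := (Δ : ℝ) + 1 with hM
      have hAs' : (A.card : ℝ) * (16 * M ^ 4) ^ s ≤ X1 * Q := by
        have : (A.card : ℝ) * (16 * M ^ 4) ^ s ≤ N0 := by
          rw [hM]
          exact_mod_cast hAs
        linarith
      have hfirst : (4 : ℝ) ^ (J + 1) * ((4 * 2 ^ J * A.card) * M ^ (p * (J + 1) + t)) ≤ 4 * (X1 * Q) * (1 / 4) ^ t := by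
        have e1 : (8 * M ^ p : ℝ) ≤ (16 * M ^ 4) ^ (p + 1) := by
          have f1 : M ^ p ≤ (16 * M ^ 4) ^ p := by
            refine pow_le_pow_left₀ (by positivity) ?_ p
            have : M ^ 1 ≤ M ^ 4 := pow_le_pow_right₀ hMl (by norm_num)
            rw [pow_one] at this
            linarith
          have f2 : (8 : ℝ) ≤ 16 * M ^ 4 := by
            have : 1 ≤ M ^ 4 := one_le_pow₀ hMl
            linarith
          rw [pow_succ, mul_comm]
          exact mul_le_mul f1 f2 (by norm_num) (by positivity)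
        have e2 : (8 * M ^ p) ^ (J + 1) ≤ (16 * M ^ 4) ^ ((p + 1) * (J + 1)) := by
          rw [pow_mul]
          exact pow_le_pow_left₀ (by positivity) e1 _
        have e3 : M ^ t * 4 ^ t ≤ (16 * M ^ 4) ^ t := by
          rw [← mul_pow]
          refine pow_le_pow_left₀ (by positivity) ?_ t
          have : M ^ 1 ≤ M ^ 4 := pow_le_pow_right₀ hMl (by norm_num)
          rw [pow_one] at this
          linarith
        have e4 : (4 : ℝ) ^ (J + 1) * ((4 * 2 ^ J * A.card) * M ^ (p * (J + 1) + t)) * 4 ^ t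
            = 2 * A.card * ((8 * M ^ p) ^ (J + 1) * (M ^ t * 4 ^ t)) := by
          have h8 : (8 : ℝ) ^ (J + 1) = 4 ^ (J + 1) * 2 ^ (J + 1) := by rw [← mul_pow]; norm_num
          have hp1 : M ^ (p * (J + 1) + t) = (M ^ p) ^ (J + 1) * M ^ t := by
            rw [pow_add M (p * (J + 1)) t, pow_mul]
          rw [mul_pow (8 : ℝ) (M ^ p) (J + 1), h8, hp1, pow_succ (2 : ℝ) J]
          ring
        have e5 : (8 * M ^ p) ^ (J + 1) * (M ^ t * 4 ^ t) ≤ (16 * M ^ 4) ^ s := by
          rw [ht, pow_add (16 * M ^ 4) ((p + 1) * (J + 1)) t]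
          exact mul_le_mul e2 e3 (by positivity) (by positivity)
        have h4p : (0 : ℝ) < 4 ^ t := by positivity
        rw [one_div, inv_pow, ← div_eq_mul_inv, le_div_iff₀ h4p, e4]
        have hA0 : (0 : ℝ) ≤ A.card := Nat.cast_nonneg _
        calc 2 * A.card * ((8 * M ^ p) ^ (J + 1) * (M ^ t * 4 ^ t))
            ≤ 2 * A.card * (16 * M ^ 4) ^ s := mul_le_mul_of_nonneg_left e5 (by positivity)
          _ ≤ 4 * (X1 * Q) := by linarith
      have hsecond : (∑ j ∈ range (J + 2), (4 : ℝ) ^ j) * (b ^ (p * (J + 1) + t) * (X1 * Q)) ≤ (X1 * Q) * b ^ t := by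
        have e1 : ∑ j ∈ range (J + 2), (4 : ℝ) ^ j ≤ 2 * 4 ^ (J + 1) := by
          have := geom_sum_mul (4 : ℝ) (J + 2)
          have h5 : (4 : ℝ) ^ (J + 2) = 4 * 4 ^ (J + 1) := by rw [pow_succ 4 (J + 1)]; ring
          have h6 : (0 : ℝ) < 4 ^ (J + 1) := by positivity
          linarith
        have e2 : 2 * 4 ^ (J + 1) * b ^ (p * (J + 1)) ≤ 1 := by
          have h7 : b ^ (p * (J + 1)) ≤ (1 / 8) ^ (J + 1) := by
            rw [pow_mul]
            exact pow_le_pow_left₀ (by positivity) hp _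
          calc 2 * 4 ^ (J + 1) * b ^ (p * (J + 1)) ≤ 2 * 4 ^ (J + 1) * (1 / 8) ^ (J + 1) :=
                mul_le_mul_of_nonneg_left h7 (by positivity)
            _ = 2 * (1 / 2 : ℝ) ^ (J + 1) := by rw [mul_assoc, ← mul_pow]; norm_num
            _ = (1 / 2 : ℝ) ^ J := by rw [pow_succ]; ring
            _ ≤ 1 := pow_le_one₀ (by norm_num) (by norm_num)
        calc (∑ j ∈ range (J + 2), (4 : ℝ) ^ j) * (b ^ (p * (J + 1) + t) * (X1 * Q))
            ≤ (2 * 4 ^ (J + 1)) * (b ^ (p * (J + 1) + t) * (X1 * Q)) :=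
              mul_le_mul_of_nonneg_right e1 (by positivity)
          _ = (2 * 4 ^ (J + 1) * b ^ (p * (J + 1))) * ((X1 * Q) * b ^ t) := by rw [pow_add]; ring
          _ ≤ 1 * ((X1 * Q) * b ^ t) := mul_le_mul_of_nonneg_right e2 (by positivity)
          _ = _ := one_mul _
      have h3 : ∑ x, w x ^ 2 ≤ 4 ^ (J + 1) * ((4 * 2 ^ J * A.card) * M ^ (p * (J + 1) + t))
          + (∑ j ∈ range (J + 2), (4 : ℝ) ^ j) * (b ^ (p * (J + 1) + t) * (X1 * Q)) := by
        refine h2.trans ?_
        rw [Finset.sum_mul]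
        have e1 : ∀ j ∈ range (J + 1 + 1), (4 : ℝ) ^ j * (((L j).card : ℝ) * ((Δ : ℝ) + 1) ^ (p * (J + 1) + t)
            + b ^ (p * (J + 1) + t) * ∑ x, b ^ (dK x - 1))
            ≤ (if j = J + 1 then 4 ^ (J + 1) * ((4 * 2 ^ J * A.card) * M ^ (p * (J + 1) + t)) else 0)
              + (4 : ℝ) ^ j * (b ^ (p * (J + 1) + t) * (X1 * Q)) := by
          intro j hj
          rw [mul_add]
          refine add_le_add ?_ ?_
          · by_cases hjJ : j = J + 1
            · rw [if_pos hjJ, hjJ]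
              exact mul_le_mul_of_nonneg_left (mul_le_mul_of_nonneg_right hLc (by positivity)) (by positivity)
            · rw [if_neg hjJ]
              have hj2 : j ≤ J := by
                have := Finset.mem_range.mp hj
                omega
              rw [hLe j hj2]
              simp
          · exact mul_le_mul_of_nonneg_left (mul_le_mul_of_nonneg_left hfar1 (by positivity)) (by positivity)
        refine (Finset.sum_le_sum e1).trans ?_
        rw [Finset.sum_add_distrib]
        refine add_le_add ?_ le_rfl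
        rw [Finset.sum_ite_eq' (range (J + 1 + 1)) (J + 1)]
        rw [if_pos (Finset.mem_range.mpr (by omega))]
      have h6 : ∑ x, w x ^ 2 ≤ (X1 * Q) * (5 * g ^ t) := by
        have e1 : 4 * (X1 * Q) * (1 / 4) ^ t ≤ 4 * (X1 * Q) * g ^ t := mul_le_mul_of_nonneg_left h4t (by positivity)
        have e2 : (X1 * Q) * b ^ t ≤ (X1 * Q) * g ^ t := mul_le_mul_of_nonneg_left hbt hXQ
        linarith
      calc Δ / b * ∑ x, w x ^ 2 ≤ Δ / b * ((X1 * Q) * (5 * g ^ t)) := mul_le_mul_of_nonneg_left h6 (by positivity)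
        _ = _ := by ring

end Pool.Agent.H576.CE
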