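import Mathlib
import Pool.Agent.H576.CE.GenN
import Pool.Agent.H576.CE.FinalG

/-! The general bound `C n log n log log n` (project CE). -/

set_option autoImplicit false
set_option linter.unusedSectionVars false

namespace Pool.Agent.H576.CE

open Finset Pool.Agent.TH112.BW Pool.Agent.H576.CT

theorem sum_stage (a g : ℝ) (ha : 0 ≤ a) (hg0 : 0 ≤ g) (hg1 : g < 1) (s0 n : ℕ) :
    ∑ s ∈ range n, (if s < s0 then a else 5 * g ^ (s - s0)) ≤ s0 * a + 5 / (1 - g) := by
  have h1g : 0 < 1 - g := by linarith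
  have key : ∀ n : ℕ, ∑ s ∈ range n, (if s < s0 then a else 5 * g ^ (s - s0))
      ≤ (min n s0 : ℕ) * a + 5 * ∑ i ∈ range (n - s0), g ^ i := by
    intro n
    induction n with
    | zero => simp
    | succ n ih =>
      rw [Finset.sum_range_succ]
      by_cases h : n < s0
      · rw [if_pos h]
        have e1 : n + 1 - s0 = n - s0 := by omega
        have e2 : min (n + 1) s0 = min n s0 + 1 := by omega
        rw [e1, e2]
        push_cast at ih ⊢
        linarith
      · rw [if_neg h]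
        have e1 : n + 1 - s0 = (n - s0) + 1 := by omega
        have e2 : min (n + 1) s0 = min n s0 := by omega
        rw [e1, e2, Finset.sum_range_succ]
        linarith
  refine (key n).trans (add_le_add ?_ ?_)
  · refine mul_le_mul_of_nonneg_right ?_ ha
    exact_mod_cast min_le_right n s0
  · have := geo_le g hg0 hg1 (n - s0)
    calc 5 * ∑ i ∈ range (n - s0), g ^ i ≤ 5 * (1 / (1 - g)) := by linarith
      _ = _ := by ring

theorem graphN (hmode : S_MODE) (hlink : S_LINK3) (hshift : S_SHIFT) :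
    ∀ ε : ℝ, 0 < ε → ε < 1 → ∀ Δ : ℕ, ∃ C : ℝ, 0 < C ∧
    ∀ (V : Type) [Fintype V] [DecidableEq V] (G : SimpleGraph V) [DecidableRel G.Adj],
      ∀ (hN : ∀ x, (G.neighborFinset x).Nonempty), G.Connected → (∀ v : V, G.degree v ≤ Δ) →
      ∀ v₀ k, J G ε hN (Dt v₀ Finset.univ) k v₀ {v₀} ≤ C * (Fintype.card V *
        (1 + Real.log (Fintype.card V)) * (1 + Real.log (1 + Real.log (Fintype.card V)))) := by
  classical
  intro ε hε0 hε1 Δ
  obtain ⟨b, p, q, hb0, hb1, hbe, hp, hq⟩ := exists_bpq ε hε0 hε1 Δ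
  obtain ⟨g, hg4, hgb, hg1⟩ : ∃ g : ℝ, 1 / 4 ≤ g ∧ b ≤ g ∧ g < 1 :=
    ⟨max (1 / 4) b, le_max_left _ _, le_max_right _ _, max_lt (by norm_num) hb1⟩
  have hg0 : 0 ≤ g := by linarith
  have h1g : 0 < 1 - g := by linarith
  obtain ⟨b0, h00, h01, hbb⟩ : ∃ b0 : ℝ, 0 < b0 ∧ b0 < 1 ∧ b ≤ b0 ^ 2 := by
    refine ⟨Real.sqrt b, Real.sqrt_pos.mpr hb0, ?_, (Real.sq_sqrt hb0.le).ge⟩
    rw [Real.sqrt_lt' one_pos, one_pow]
    exact hb1
  have hlog : 0 < Real.log (1 / b0) := Real.log_pos (by rw [lt_div_iff₀ h00]; linarith)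
  set R : ℝ := 11 / b with hR
  have hR0 : 0 ≤ R := by positivity
  set E : ℕ := 16 * (Δ + 1) ^ 4 with hE
  have hE2 : 2 ≤ E := by
    have : 0 < (Δ + 1) ^ 4 := by positivity
    omega
  set X1 : ℝ := (1 / b0) ^ 2 with hX1
  have hX10 : 0 ≤ X1 := by positivity
  set c3 : ℝ := 2 / Real.log (1 / b0) + 2 with hc3
  have hc30 : 2 ≤ c3 := by
    have : 0 ≤ 2 / Real.log (1 / b0) := by positivity
    rw [hc3]; linarith
  -- `2 ^ (J + 1) ≤ 4 c3 (1 + log n)`, `J + 1 ≤ c5 (1 + log (1 + log n))`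
  set c5 : ℝ := 2 + (Real.log c3 + 1) / Real.log 2 with hc5
  have hlog2 : 0 < Real.log 2 := Real.log_pos (by norm_num)
  have hlogc3 : 0 ≤ Real.log c3 := Real.log_nonneg (by linarith)
  have hc50 : 2 ≤ c5 := by
    have : 0 ≤ (Real.log c3 + 1) / Real.log 2 := by positivity
    rw [hc5]; linarith
  set CC : ℝ := Δ / b * X1 * (E * R * ((p + 1) * c5 * (4 * c3) + 5 / (1 - g)) + 2 * R * (4 * c3 + 5)) with hCC
  have hCC0 : 0 ≤ CC := by positivity
  refine ⟨CC * 4 + 1, by positivity, ?_⟩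
  intro V _ _ G _ hN hG hΔ v₀ k
  obtain ⟨cl, rho, hcl, hstar, hrad, hrho0, hrho, hsum⟩ := hshift b0 h00 h01 V G hG
  have hnpos : 0 < Fintype.card V := Fintype.card_pos_iff.mpr ⟨v₀⟩
  have hn1 : (1 : ℝ) ≤ (Fintype.card V : ℝ) := by exact_mod_cast hnpos
  have hlogn : 0 ≤ Real.log (Fintype.card V) := Real.log_nonneg hn1
  set ℓ : ℝ := Real.log (Fintype.card V) with hℓ
  have hℓ2 : 0 ≤ Real.log (1 + ℓ) := Real.log_nonneg (by linarith)
  set m1 : ℕ := ⌈2 * ℓ / Real.log (1 / b0)⌉₊ + 1 with hm1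
  have hm1p : m1 ≠ 0 := by omega
  obtain ⟨Jn, hJ⟩ : ∃ Jn, Jn = Nat.log 2 m1 + 1 := ⟨_, rfl⟩
  have hJ1 : m1 < 2 ^ Jn := by rw [hJ]; exact Nat.lt_pow_succ_log_self (by norm_num) m1
  have hJ2 : 2 ^ Jn ≤ 2 * m1 := by
    rw [hJ, pow_succ, mul_comm]
    exact Nat.mul_le_mul_left 2 (Nat.pow_log_le_self 2 hm1p)
  have hm1le : (m1 : ℝ) ≤ c3 * (1 + ℓ) := by
    have h1 : ((⌈2 * ℓ / Real.log (1 / b0)⌉₊ : ℕ) : ℝ) < 2 * ℓ / Real.log (1 / b0) + 1 :=
      Nat.ceil_lt_add_one (by positivity)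
    have h2 : (m1 : ℝ) = ((⌈2 * ℓ / Real.log (1 / b0)⌉₊ : ℕ) : ℝ) + 1 := by rw [hm1]; push_cast; ring
    have h3 : c3 * (1 + ℓ) = 2 * ℓ / Real.log (1 / b0) + 2 + (2 / Real.log (1 / b0) + 2 * ℓ) := by rw [hc3]; ring
    have h4 : 0 ≤ 2 / Real.log (1 / b0) + 2 * ℓ := by positivity
    rw [h2, h3]
    linarith
  have h2Jn : (2 : ℝ) ^ (Jn + 1) ≤ 4 * c3 * (1 + ℓ) := by
    have h1 : (2 : ℝ) ^ Jn ≤ 2 * m1 := by exact_mod_cast hJ2
    rw [pow_succ]
    linarith
  have hJle : ((Jn : ℝ) + 1) ≤ c5 * (1 + Real.log (1 + ℓ)) := by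
    have h1 : (2 : ℝ) ^ (Nat.log 2 m1) ≤ m1 := by exact_mod_cast Nat.pow_log_le_self 2 hm1p
    have h2 := Real.log_le_log (by positivity) (h1.trans hm1le)
    rw [Real.log_pow, Real.log_mul (by linarith) (by linarith)] at h2
    have h3 : ((Nat.log 2 m1 : ℕ) : ℝ) ≤ (Real.log c3 + Real.log (1 + ℓ)) / Real.log 2 := by
      rw [le_div_iff₀ hlog2]; exact h2
    have h4 : (Jn : ℝ) = ((Nat.log 2 m1 : ℕ) : ℝ) + 1 := by rw [hJ]; push_cast; ring
    have h5 : (Real.log c3 + Real.log (1 + ℓ)) / Real.log 2 ≤ (Real.log c3 + 1) / Real.log 2 * (1 + Real.log (1 + ℓ)) := by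
      rw [div_mul_eq_mul_div]
      refine div_le_div_of_nonneg_right ?_ hlog2.le
      nlinarith [mul_nonneg hlogc3 hℓ2]
    rw [h4, hc5]
    nlinarith
  have hradius : ∀ x, G.dist x (cl x) ≤ 1 * 2 ^ Jn := by
    intro x
    rw [one_mul]
    have h1 := Real.log_le_log one_pos (hrad x)
    rw [Real.log_one, Real.log_mul (by positivity) (by positivity), Real.log_pow, Real.log_pow] at h1
    have h2 : Real.log (1 / b0) = - Real.log b0 := by rw [one_div, Real.log_inv]
    have h3 : (G.dist x (cl x) : ℝ) * Real.log (1 / b0) ≤ 2 * ℓ := by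
      rw [h2, hℓ]; push_cast at h1; linarith
    have h4 : (G.dist x (cl x) : ℝ) ≤ 2 * ℓ / Real.log (1 / b0) := by
      rw [le_div_iff₀ hlog]; exact h3
    have h5 : G.dist x (cl x) ≤ ⌈2 * ℓ / Real.log (1 / b0)⌉₊ := by
      exact_mod_cast h4.trans (Nat.le_ceil _)
    omega
  set s0 : ℕ := (p + 1) * (Jn + 1) with hs0
  set Q : V → ℝ := fun u => ∑ x, rho x u with hQ
  have hQ0 : ∀ u, 0 ≤ Q u := fun u => Finset.sum_nonneg fun x _ => hrho0 x u
  set LL : ℝ := (1 + ℓ) * (1 + Real.log (1 + ℓ)) with hLL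
  have hLL1 : 1 ≤ LL := by
    rw [hLL]
    nlinarith
  have hL1 : 1 + ℓ ≤ LL := by
    rw [hLL]
    nlinarith
  have hdfs := ce_dfs V G ε hε0.le hε1.le hN hG cl hcl (fun u => CC * LL * Q u)
    (fun u => mul_nonneg (mul_nonneg hCC0 (by linarith)) (hQ0 u)) (by
      intro u hu p0 hp0 T hT Cov hsub k S hS
      set K : Finset V := univ.filter (fun x => cl x = u) with hK
      have hKmem : ∀ x, x ∈ K ↔ cl x = u := by intro x; simp [hK]
      have huK : u ∈ K := (hKmem u).mpr hu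
      have hrhoK : ∀ x, ∀ y ∈ K, b0 ^ (2 * G.dist x y) ≤ rho x u := by
        intro x y hy
        have := hrho x y
        rw [(hKmem y).mp hy] at this
        exact this
      set dK : V → ℕ := fun x => K.inf' ⟨u, huK⟩ (fun y => G.dist x y) with hdK
      have hdKle : ∀ x, ∀ y ∈ K, dK x ≤ G.dist x y := fun x y hy => Finset.inf'_le _ hy
      have hdKex : ∀ x, ∃ y ∈ K, dK x = G.dist x y := fun x =>
        Finset.exists_mem_eq_inf' ⟨u, huK⟩ (fun y => G.dist x y)
      have hfar1 : ∑ x, b ^ (dK x - 1) ≤ X1 * Q u := by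
        simp only [hQ]
        rw [Finset.mul_sum]
        refine Finset.sum_le_sum fun x _ => ?_
        obtain ⟨y, hy, hxy⟩ := hdKex x
        have e1 : b ^ (dK x - 1) ≤ (b0 ^ 2) ^ (dK x - 1) := pow_le_pow_left₀ hb0.le hbb _
        have e2 : (b0 ^ 2) ^ (dK x - 1) = (1 / b0) ^ 2 * b0 ^ (2 * (dK x - 1) + 2) := by
          rw [pow_add b0 (2 * (dK x - 1)) 2, mul_comm (b0 ^ (2 * (dK x - 1))) _, ← mul_assoc, ← mul_pow, one_div,
            inv_mul_cancel₀ h00.ne', one_pow, one_mul, pow_mul]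
        have e3 : b0 ^ (2 * (dK x - 1) + 2) ≤ b0 ^ (2 * G.dist x y) :=
          pow_le_pow_of_le_one h00.le h01.le (by omega)
        rw [e2] at e1
        exact e1.trans (mul_le_mul_of_nonneg_left (e3.trans (hrhoK x y hy)) (by positivity))
      have hnb : nb G cl u ⊆ nbd G K 1 := by
        intro x hx
        unfold nb at hx
        have h1 := (Finset.mem_filter.mp (Finset.mem_of_mem_erase hx)).2
        rw [mem_nbd]
        rcases h1 with h1 | ⟨y, hxy, hy⟩
        · exact ⟨x, (hKmem x).mpr h1, by simp⟩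
        · exact ⟨y, (hKmem y).mpr hy, (SimpleGraph.dist_eq_one_iff_adj.mpr hxy).le⟩
      have hcardN : (((nb G cl u).card : ℕ) : ℝ) ≤ X1 * Q u := by
        have h1 := card_nbd b0 h00 h01 V G K (fun x => rho x u) (fun x => hrho0 x u) hrhoK 1
        have h2 : ((nb G cl u).card : ℝ) ≤ ((nbd G K 1).card : ℝ) := by
          exact_mod_cast Finset.card_le_card hnb
        rw [mul_one] at h1
        exact h2.trans h1
      have hDb : 0 ≤ Δ / b * (X1 * Q u) := mul_nonneg (by positivity) (mul_nonneg hX10 (hQ0 u))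
      have hmd := hmode V G ε hε0.le hε1.le hN hG u p0 R hR0 (nb G cl u) (Finset.notMem_erase _ _)
        (by
          by_cases h : p0 = u
          · exact Or.inl h
          · refine Or.inr ?_
            unfold nb
            rw [Finset.mem_erase, Finset.mem_filter]
            exact ⟨h, Finset.mem_univ _, Or.inl hp0⟩)
        E (nb G cl u).card hE2 le_rfl
        (fun s => Δ / b * (X1 * Q u) * (if s < s0 then (2 : ℝ) ^ (Jn + 1) else 5 * g ^ (s - s0)))
        (fun s => mul_nonneg hDb (by split_ifs <;> positivity))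
        (by
          intro s A hA hAn hAs
          exact clusterN hlink b ε X1 (Q u) hb0 hb1 hbe Δ p hp hX10 (hQ0 u) g hg4 hgb V G hG hΔ Jn u K huK
            (by
              intro x hx hxu
              have hx' := (hKmem x).mp hx
              obtain ⟨z, h1, h2, h3⟩ := hstar x (by rw [hx']; exact fun h => hxu h.symm)
              rw [hx'] at h2 h3
              exact ⟨z, (hKmem z).mpr h2, h1, h3⟩)
            (by
              intro x hx
              have := hradius x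
              rw [(hKmem x).mp hx] at this
              exact this)
            dK hdKle hdKex hfar1 (nb G cl u).card hcardN s A (hA.trans hnb) hAn hAs)
        T hT Cov hsub k S hS
      refine hmd.trans ?_
      rw [← Finset.mul_sum]
      have h2 := sum_stage ((2 : ℝ) ^ (Jn + 1)) g (by positivity) hg0 hg1 s0 ((nb G cl u).card + 1)
      have hs0r : (s0 : ℝ) = (p + 1) * ((Jn : ℝ) + 1) := by rw [hs0]; push_cast; ring
      have h3 : (s0 : ℝ) * 2 ^ (Jn + 1) ≤ (p + 1) * c5 * (4 * c3) * LL := by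
        rw [hs0r]
        calc ((p : ℝ) + 1) * ((Jn : ℝ) + 1) * 2 ^ (Jn + 1)
            ≤ ((p : ℝ) + 1) * (c5 * (1 + Real.log (1 + ℓ))) * (4 * c3 * (1 + ℓ)) := by
              refine mul_le_mul (mul_le_mul_of_nonneg_left hJle (by positivity)) h2Jn (by positivity) ?_
              have : 0 ≤ c5 * (1 + Real.log (1 + ℓ)) := mul_nonneg (by linarith) (by linarith)
              positivity
          _ = _ := by rw [hLL]; ring
      have h4 : (5 : ℝ) / (1 - g) ≤ 5 / (1 - g) * LL := le_mul_of_one_le_right (by positivity) hLL1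
      have h5 : ∑ s ∈ range ((nb G cl u).card + 1), (if s < s0 then (2 : ℝ) ^ (Jn + 1) else 5 * g ^ (s - s0))
          ≤ ((p + 1) * c5 * (4 * c3) + 5 / (1 - g)) * LL := by
        have : ((p + 1) * c5 * (4 * c3) + 5 / (1 - g)) * LL = (p + 1) * c5 * (4 * c3) * LL + 5 / (1 - g) * LL := by ring
        rw [this]
        linarith
      have h6 : (if 0 < s0 then (2 : ℝ) ^ (Jn + 1) else 5 * g ^ (0 - s0)) ≤ (4 * c3 + 5) * LL := by
        have h7 : 0 < s0 := by rw [hs0]; positivity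
        rw [if_pos h7]
        have h8 : 4 * c3 * (1 + ℓ) ≤ 4 * c3 * LL := mul_le_mul_of_nonneg_left hL1 (by linarith)
        nlinarith
      have h9 := mul_le_mul_of_nonneg_left (mul_le_mul_of_nonneg_left h5 hDb) (show (0 : ℝ) ≤ E * R by positivity)
      have h10 := mul_le_mul_of_nonneg_left (mul_le_mul_of_nonneg_left h6 hDb) (show (0 : ℝ) ≤ 2 * R by positivity)
      have h11 : E * R * (Δ / b * (X1 * Q u) * (((p + 1) * c5 * (4 * c3) + 5 / (1 - g)) * LL))
          + 2 * R * (Δ / b * (X1 * Q u) * ((4 * c3 + 5) * LL)) = CC * LL * Q u := by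
        rw [hCC]; ring
      linarith)
    v₀ k {v₀} (Finset.mem_singleton_self _)
  refine hdfs.trans ?_
  rw [← Finset.mul_sum]
  have h1 : ∑ u, Q u ≤ 4 * Fintype.card V := by
    simp only [hQ]
    rw [Finset.sum_comm]
    exact hsum
  have h3 : (0 : ℝ) ≤ Fintype.card V := Nat.cast_nonneg _
  have hLL0 : 0 ≤ LL := by linarith
  calc CC * LL * ∑ u, Q u ≤ CC * LL * (4 * Fintype.card V) :=
        mul_le_mul_of_nonneg_left h1 (mul_nonneg hCC0 hLL0)
    _ = (CC * 4) * (Fintype.card V * LL) := by ring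
    _ ≤ (CC * 4 + 1) * (Fintype.card V * LL) :=
        mul_le_mul_of_nonneg_right (by linarith) (mul_nonneg h3 hLL0)
    _ = _ := by rw [hLL]; ring

end Pool.Agent.H576.CE
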