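import Mathlib
import Pool.Agent.H576.CE.FinalG
import Pool.Agent.H576.CE.FinalP
import Pool.Agent.H274.CE.CEMODE
import Pool.Agent.H437.CE.Shift
import Pool.Agent.H578.CE.CELINK3
import Pool.Agent.H200.CE.ARITH3
import Pool.Agent.H252.CEPARAM
import Pool.Agent.H348.CE.PARAMP
import Pool.Agent.H977.CESHIFTP

/-! From the value iteration to a strategy (project CE). -/

set_option autoImplicit false
set_option linter.unusedSectionVars false

namespace Pool.Agent.H576.CE

open Finset Pool.Agent.TH112.BW Pool.Agent.H576.CT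

theorem strat (ε : ℝ) (hε0 : 0 < ε) (hε1 : ε < 1) (V : Type) [Fintype V] [DecidableEq V] (G : SimpleGraph V)
    [DecidableRel G.Adj] (hcard : 2 ≤ Fintype.card V) (hG : G.Connected) (v₀ : V) (T : ℝ)
    (h : ∀ (hN : ∀ x, (G.neighborFinset x).Nonempty) (k : ℕ), J G ε hN (Dt v₀ Finset.univ) k v₀ {v₀} ≤ T) :
    ∃ f : V → Finset V → V, (∀ (u : V) (S : Finset V), G.Adj u (f u S)) ∧
        (∑' t : ℕ, ∑ p : V × Finset V,
          (if p.2 = Finset.univ then (0 : ENNReal) else
            (Nat.rec (motive := fun _ => V × Finset V → ENNReal)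
              (fun q : V × Finset V => if q = (v₀, ({v₀} : Finset V)) then (1 : ENNReal) else 0)
              (fun (_ : ℕ) (μ : V × Finset V → ENNReal) (q : V × Finset V) =>
                ∑ r : V × Finset V, μ r *
                  (if G.Adj r.1 q.1 ∧ q.2 = insert q.1 r.2 then
                    ENNReal.ofReal ((1 - ε) / (G.degree r.1 : ℝ) +
                      (if q.1 = f r.1 r.2 then ε else 0))
                  else 0))
              t) p))
          ≤ ENNReal.ofReal T := by
  have hN : ∀ x, (G.neighborFinset x).Nonempty := by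
    intro x
    have hnt : Nontrivial V := Fintype.one_lt_card_iff_nontrivial.mp (by omega)
    obtain ⟨y, hy⟩ := hG.preconnected.exists_adj_of_nontrivial x
    exact ⟨y, by simpa using hy⟩
  obtain ⟨f, hf1, hf2⟩ := exists_strategy hε0.le hε1.le hN v₀ T
    (fun k => (J_anti hε0.le hε1.le hN (Dt v₀ Finset.univ) (fun _ S => S = Finset.univ)
      (fun x S hx => Finset.eq_univ_iff_forall.mpr fun y => hx.2 (Finset.mem_univ y)) k v₀ {v₀}).trans
      (h hN k))
  exact ⟨f, hf1, hf2⟩

end Pool.Agent.H576.CE
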